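import Pool.Agent.J4.H30.CD.Mom2

/-!
# Bohr sets in `2A - 2A` (helper30): entropy and the selection of the shifts
-/

set_option autoImplicit false
set_option linter.unusedSectionVars false
set_option linter.unusedVariables false

namespace Pool.Agent.J4.H30.CD

open Finset
open scoped Pointwise

/-- the average of the translates by `c i`, `i ∈ T` -/
noncomputable def av {G : Type} [AddCommGroup G] {ι : Type} (T : Finset ι) (c : ι → G) (φ : G → ℝ) (z : G) : ℝ :=
  (∑ i ∈ T, φ (z + c i)) / T.card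

/-- the uniform measure on a set -/
noncomputable def unif {G : Type} [DecidableEq G] (S : Finset G) (x : G) : ℝ :=
  if x ∈ S then 1 / (S.card : ℝ) else 0

/-- Shannon entropy -/
noncomputable def En {G : Type} [Fintype G] (σ : G → ℝ) : ℝ := ∑ x, Real.negMulLog (σ x)

section

variable {G : Type} [AddCommGroup G] [Fintype G] [DecidableEq G]

theorem isP_unif (S : Finset G) (hS : S.Nonempty) : IsP (unif S) := by
  have hS0 : (0 : ℝ) < S.card := by exact_mod_cast hS.card_pos
  refine ⟨fun x => ?_, ?_⟩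
  · unfold unif
    split_ifs <;> positivity
  · unfold unif
    rw [sum_ite_mem, univ_inter, sum_const, nsmul_eq_mul]
    field_simp

theorem av_sum {ι : Type} (T : Finset ι) (hT : T.Nonempty) (c : ι → G) (φ : G → ℝ) :
    ∑ z, av T c φ z = ∑ z, φ z := by
  have hT0 : (0 : ℝ) < T.card := by exact_mod_cast hT.card_pos
  unfold av
  rw [← sum_div, sum_comm]
  have h : ∀ i ∈ T, ∑ z, φ (z + c i) = ∑ z, φ z := fun i _ => Equiv.sum_comp (Equiv.addRight (c i)) φ
  rw [sum_congr rfl h, sum_const, nsmul_eq_mul]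
  field_simp

theorem isP_av {ι : Type} (T : Finset ι) (hT : T.Nonempty) (c : ι → G) (σ : G → ℝ) (h : IsP σ) :
    IsP (av T c σ) := by
  refine ⟨fun x => ?_, ?_⟩
  · unfold av
    exact div_nonneg (sum_nonneg fun i _ => h.1 _) (Nat.cast_nonneg _)
  · rw [av_sum T hT, h.2]

theorem En_unif (S : Finset G) (hS : S.Nonempty) : En (unif S) = Real.log S.card := by
  have hS0 : (0 : ℝ) < S.card := by exact_mod_cast hS.card_pos
  unfold En
  have h : ∀ x, Real.negMulLog (unif S x) = if x ∈ S then (1 / (S.card : ℝ)) * Real.log S.card else 0 := by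
    intro x
    unfold unif Real.negMulLog
    split_ifs
    · rw [one_div, Real.log_inv]
      ring
    · simp
  simp_rw [h]
  rw [sum_ite_mem, univ_inter, sum_const, nsmul_eq_mul]
  field_simp

theorem neg_mul_log_le (s n : ℝ) (hs : 0 ≤ s) (hn : 0 < n) :
    Real.negMulLog s ≤ 1 / n - s + s * Real.log n := by
  unfold Real.negMulLog
  rcases hs.eq_or_lt with h | h
  · rw [← h]
    simp
    positivity
  · have h1 := Real.log_le_sub_one_of_pos (by positivity : 0 < 1 / (s * n))
    rw [one_div, Real.log_inv, Real.log_mul h.ne' hn.ne'] at h1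
    have h2 := mul_le_mul_of_nonneg_left h1 hs
    have h3 : s * ((s * n)⁻¹ - 1) = 1 / n - s := by field_simp
    rw [h3] at h2
    linarith

theorem En_le (σ : G → ℝ) (h : IsP σ) (Z : Finset G) (hZ : ∀ x, x ∉ Z → σ x = 0) : En σ ≤ Real.log Z.card := by
  have hZne : Z.Nonempty := by
    rw [nonempty_iff_ne_empty]
    rintro rfl
    have h1 : ∑ x, σ x = 0 := sum_eq_zero fun x _ => hZ x (notMem_empty x)
    rw [h.2] at h1
    exact one_ne_zero h1
  have hZ0 : (0 : ℝ) < Z.card := by exact_mod_cast hZne.card_pos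
  have h1 : En σ = ∑ x ∈ Z, Real.negMulLog (σ x) := by
    unfold En
    symm
    apply sum_subset (subset_univ Z)
    intro x _ hx
    rw [hZ x hx]
    simp
  have h2 : ∑ x ∈ Z, σ x = 1 := by
    rw [← h.2]
    apply sum_subset (subset_univ Z)
    intro x _ hx
    exact hZ x hx
  rw [h1]
  calc ∑ x ∈ Z, Real.negMulLog (σ x) ≤ ∑ x ∈ Z, (1 / (Z.card : ℝ) - σ x + σ x * Real.log Z.card) :=
        sum_le_sum fun x _ => neg_mul_log_le _ _ (h.1 x) hZ0
    _ = Real.log Z.card := by
        rw [sum_add_distrib, sum_sub_distrib, ← sum_mul, h2, sum_const, nsmul_eq_mul]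
        field_simp
        ring

theorem En_av {ι : Type} (T : Finset ι) (hT : T.Nonempty) (c : ι → G) (σ : G → ℝ) (h : IsP σ) :
    En σ ≤ En (av T c σ) := by
  have hT0 : (0 : ℝ) < T.card := by exact_mod_cast hT.card_pos
  have h1 : En σ = ∑ z, av T c (fun x => Real.negMulLog (σ x)) z := by
    rw [av_sum T hT]
    rfl
  rw [h1]
  unfold En
  refine sum_le_sum fun z _ => ?_
  have h2 := Real.concaveOn_negMulLog.le_map_sum (t := T) (w := fun _ => 1 / (T.card : ℝ))
    (p := fun i => σ (z + c i)) (fun _ _ => by positivity) (by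
      rw [sum_const, nsmul_eq_mul]
      field_simp) (fun i _ => h.1 _)
  simp only [smul_eq_mul, ← mul_sum] at h2
  unfold av
  rw [div_eq_mul_one_div, mul_comm, div_eq_mul_one_div (∑ i ∈ T, σ (z + c i)), mul_comm (∑ i ∈ T, σ (z + c i))]
  exact h2

/-- the logarithm of a product measure -/
theorem log_pk (σ ρ : G → ℝ) (T : Finset G) (t : G)
    (hpos : ∀ u, σ u ≠ 0 → ρ (u + t) ≠ 0) {k : ℕ} (a : Fin k → G) :
    pk σ a * (Real.log (pk σ a) - Real.log (pk ρ (fun i => a i + t))) =
      ∑ i, pk σ a * (Real.log (σ (a i)) - Real.log (ρ (a i + t))) := by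
  by_cases h : pk σ a = 0
  · simp [h]
  · have h1 : ∀ i, σ (a i) ≠ 0 := by
      intro i hi
      exact h (prod_eq_zero (mem_univ i) hi)
    have h2 : ∀ i ∈ (univ : Finset (Fin k)), ρ (a i + t) ≠ 0 := fun i _ => hpos _ (h1 i)
    rw [← mul_sum]
    congr 1
    rw [sum_sub_distrib]
    unfold pk
    rw [Real.log_prod (fun i _ => h1 i), Real.log_prod h2]

/-- the elementary inequality behind the selection -/
theorem log_step (p q n c : ℝ) (hp : 0 ≤ p) (hq : 0 ≤ q) (hpq : p ≠ 0 → q ≠ 0) (hn : 0 < n) (hc : 0 < c) :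
    p / n * (Real.log c + Real.log q - Real.log p) ≤ (c * q - p) / n := by
  rcases hp.eq_or_lt with h | h
  · rw [← h]
    simp
    positivity
  · have hq0 : 0 < q := lt_of_le_of_ne hq (Ne.symm (hpq h.ne'))
    have h1 := Real.log_le_sub_one_of_pos (by positivity : 0 < c * q / p)
    rw [Real.log_div (by positivity) h.ne', Real.log_mul hc.ne' hq0.ne'] at h1
    have h2 := mul_le_mul_of_nonneg_left h1 (by positivity : 0 ≤ p / n)
    have h3 : p / n * (c * q / p - 1) = (c * q - p) / n := by field_simp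
    rw [h3] at h2
    exact h2

/-- **the selection lemma**: if the shift by a random element of `T` increases the entropy of `σ` by at most `η` and
`Good` has probability at least `1/2`, then a positive proportion `exp (- 2 k η - 4)` of the `t ∈ T` satisfies
`z - t ∈ Good` for a suitable `z` -/
theorem sel (σ : G → ℝ) (hσ : IsP σ) (T : Finset G) (hT : T.Nonempty) (k : ℕ) (Good : Finset (Fin k → G))
    (hG : 1 / 2 ≤ ∑ a ∈ Good, pk σ a) (η : ℝ) (hη0 : 0 ≤ η) (hη : En (av T (fun t => -t) σ) - En σ ≤ η) :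
    ∃ z : Fin k → G, (T.card : ℝ) ≤
      Real.exp (2 * (k * η) + 4) * (T.filter (fun t => (fun i => z i - t) ∈ Good)).card := by
  by_contra hcon
  push Not at hcon
  have hT0 : (0 : ℝ) < T.card := by exact_mod_cast hT.card_pos
  obtain ⟨c, hc⟩ : ∃ c : ℝ, c = Real.exp (2 * (k * η) + 4) := ⟨_, rfl⟩
  have hc0 : 0 < c := by rw [hc]; exact Real.exp_pos _
  have hlogc : Real.log c = 2 * (k * η) + 4 := by rw [hc, Real.log_exp]
  rw [← hc] at hcon
  obtain ⟨ρ, hρ⟩ : ∃ ρ : G → ℝ, ρ = av T (fun t => -t) σ := ⟨_, rfl⟩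
  rw [← hρ] at hη
  have hρP : IsP ρ := by rw [hρ]; exact isP_av T hT _ σ hσ
  have hρeq : ∀ z, ρ z = (∑ t ∈ T, σ (z - t)) / T.card := by
    intro z
    rw [hρ]
    unfold av
    simp_rw [sub_eq_add_neg]
  have hpos : ∀ t ∈ T, ∀ u, σ u ≠ 0 → ρ (u + t) ≠ 0 := by
    intro t ht u hu
    have hu0 : 0 < σ u := lt_of_le_of_ne (hσ.1 u) (Ne.symm hu)
    have h1 : σ u ≤ ∑ s ∈ T, σ (u + t - s) := by
      have h2 := single_le_sum (f := fun s => σ (u + t - s)) (fun s _ => hσ.1 _) ht
      simpa using h2
    rw [hρeq]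
    have : 0 < ∑ s ∈ T, σ (u + t - s) := by linarith
    positivity
  have hposk : ∀ t ∈ T, ∀ a : Fin k → G, pk σ a ≠ 0 → pk ρ (fun i => a i + t) ≠ 0 := by
    intro t ht a ha
    refine prod_ne_zero_iff.2 fun i _ => hpos t ht _ ?_
    intro hi
    exact ha (prod_eq_zero (mem_univ i) hi)
  -- claim 1
  obtain ⟨A1, hA1⟩ : ∃ A1 : ℝ, A1 = ∑ t ∈ T, ∑ a : Fin k → G,
    pk σ a / T.card * (Real.log (pk ρ (fun i => a i + t)) - Real.log (pk σ a)) := ⟨_, rfl⟩
  have claim1 : -(k * η) ≤ A1 := by
    have h1 : ∀ t ∈ T, ∑ a : Fin k → G,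
        pk σ a / T.card * (Real.log (pk ρ (fun i => a i + t)) - Real.log (pk σ a)) =
        -(k * (∑ u, σ u * (Real.log (σ u) - Real.log (ρ (u + t)))) / T.card) := by
      intro t ht
      have h2 : ∀ a : Fin k → G,
          pk σ a / T.card * (Real.log (pk ρ (fun i => a i + t)) - Real.log (pk σ a)) =
          -((∑ i, pk σ a * (Real.log (σ (a i)) - Real.log (ρ (a i + t)))) / T.card) := by
        intro a
        rw [← log_pk σ ρ T t (hpos t ht) a]
        ring
      simp_rw [h2]
      rw [sum_neg_distrib, ← sum_div, sum_comm]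
      congr 2
      have h3 : ∀ i : Fin k, ∑ a : Fin k → G, pk σ a * (Real.log (σ (a i)) - Real.log (ρ (a i + t))) =
          ∑ u, σ u * (Real.log (σ u) - Real.log (ρ (u + t))) := fun i =>
        sum_pk_marg σ hσ i (fun u => Real.log (σ u) - Real.log (ρ (u + t)))
      simp_rw [h3]
      rw [sum_const, card_univ, Fintype.card_fin, nsmul_eq_mul]
    have h4 : A1 = -(k * (En ρ - En σ)) := by
      rw [hA1, sum_congr rfl h1, sum_neg_distrib, ← sum_div, ← mul_sum]
      congr 1
      rw [mul_div_assoc]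
      congr 1
      have h5 : ∑ t ∈ T, ∑ u, σ u * (Real.log (σ u) - Real.log (ρ (u + t))) =
          T.card * (∑ u, σ u * Real.log (σ u)) - ∑ t ∈ T, ∑ u, σ u * Real.log (ρ (u + t)) := by
        simp_rw [mul_sub, sum_sub_distrib]
        rw [sum_const, nsmul_eq_mul]
      have h6 : ∑ t ∈ T, ∑ u, σ u * Real.log (ρ (u + t)) = T.card * ∑ z, ρ z * Real.log (ρ z) := by
        have h7 : ∀ t ∈ T, ∑ u, σ u * Real.log (ρ (u + t)) = ∑ z, σ (z - t) * Real.log (ρ z) := by
          intro t _
          rw [← Equiv.sum_comp (Equiv.addRight t) (fun z => σ (z - t) * Real.log (ρ z))]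
          refine sum_congr rfl fun u _ => ?_
          simp
        rw [sum_congr rfl h7, sum_comm, mul_sum]
        refine sum_congr rfl fun z _ => ?_
        rw [← sum_mul, hρeq z]
        field_simp
      rw [h5, h6]
      unfold En Real.negMulLog
      simp_rw [neg_mul]
      rw [sum_neg_distrib, sum_neg_distrib]
      field_simp
      ring
    rw [h4]
    have hk : (0 : ℝ) ≤ k := Nat.cast_nonneg k
    have := mul_le_mul_of_nonneg_left hη hk
    linarith
  -- splitting
  obtain ⟨PG, hPG⟩ : ∃ PG : ℝ, PG = ∑ a ∈ Good, pk σ a := ⟨_, rfl⟩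
  rw [← hPG] at hG
  have hsum1 : ∑ a ∈ Goodᶜ, pk σ a = 1 - PG := by
    have := sum_add_sum_compl Good (fun a => pk σ a)
    rw [sum_pk σ hσ k] at this
    linarith
  have hshift : ∀ t ∈ T, ∑ a : Fin k → G, pk ρ (fun i => a i + t) = 1 := by
    intro t _
    rw [← sum_pk ρ hρP k]
    exact Equiv.sum_comp (Equiv.addRight (fun _ : Fin k => t)) (fun a => pk ρ a)
  have hbad : ∑ t ∈ T, ∑ a ∈ Goodᶜ,
      pk σ a / T.card * (Real.log (pk ρ (fun i => a i + t)) - Real.log (pk σ a)) ≤ PG := by
    calc ∑ t ∈ T, ∑ a ∈ Goodᶜ,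
          pk σ a / T.card * (Real.log (pk ρ (fun i => a i + t)) - Real.log (pk σ a))
        ≤ ∑ t ∈ T, ∑ a ∈ Goodᶜ, (1 * pk ρ (fun i => a i + t) - pk σ a) / T.card := by
          refine sum_le_sum fun t ht => sum_le_sum fun a _ => ?_
          have := log_step (pk σ a) (pk ρ (fun i => a i + t)) T.card 1 (pk_nonneg σ hσ a)
            (pk_nonneg ρ hρP _) (hposk t ht a) hT0 one_pos
          simpa using this
      _ ≤ ∑ _t ∈ T, PG / T.card := by
          refine sum_le_sum fun t ht => ?_
          rw [← sum_div]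
          refine div_le_div_of_nonneg_right ?_ hT0.le
          rw [sum_sub_distrib, hsum1]
          have h2 : ∑ a ∈ Goodᶜ, 1 * pk ρ (fun i => a i + t) ≤ 1 := by
            simp only [one_mul]
            exact (sum_le_sum_of_subset_of_nonneg (subset_univ _) fun a _ _ => pk_nonneg ρ hρP _).trans
              (hshift t ht).le
          linarith
      _ = PG := by
          rw [sum_const, nsmul_eq_mul]
          field_simp
  have hgood : ∑ t ∈ T, ∑ a ∈ Good,
      pk σ a / T.card * (Real.log (pk ρ (fun i => a i + t)) - Real.log (pk σ a)) ≤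
      1 - PG - PG * Real.log c := by
    have h1 : ∑ t ∈ T, ∑ a ∈ Good, pk ρ (fun i => a i + t) ≤ T.card / c := by
      have h2 : ∀ t ∈ T, ∑ a ∈ Good, pk ρ (fun i => a i + t) =
          ∑ z : Fin k → G, if (fun i => z i - t) ∈ Good then pk ρ z else 0 := by
        intro t _
        rw [← Equiv.sum_comp (Equiv.addRight (fun _ : Fin k => t))
          (fun z => if (fun i => z i - t) ∈ Good then pk ρ z else 0)]
        have h3 : ∀ a : Fin k → G, (fun i => (Equiv.addRight (fun _ : Fin k => t) a) i - t) = a := by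
          intro a
          funext i
          exact add_sub_cancel_right (a i) t
        simp_rw [h3]
        rw [sum_ite_mem, univ_inter]
        rfl
      rw [sum_congr rfl h2, sum_comm]
      have h4 : ∀ z : Fin k → G, ∑ t ∈ T, (if (fun i => z i - t) ∈ Good then pk ρ z else 0) =
          (T.filter (fun t => (fun i => z i - t) ∈ Good)).card * pk ρ z := by
        intro z
        rw [← sum_filter, sum_const, nsmul_eq_mul]
      simp_rw [h4]
      calc ∑ z : Fin k → G, ((T.filter (fun t => (fun i => z i - t) ∈ Good)).card : ℝ) * pk ρ z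
          ≤ ∑ z : Fin k → G, (T.card / c) * pk ρ z := by
            refine sum_le_sum fun z _ => mul_le_mul_of_nonneg_right ?_ (pk_nonneg ρ hρP z)
            rw [le_div_iff₀ hc0, mul_comm]
            exact (hcon z).le
        _ = T.card / c := by rw [← mul_sum, sum_pk ρ hρP k, mul_one]
    calc ∑ t ∈ T, ∑ a ∈ Good,
          pk σ a / T.card * (Real.log (pk ρ (fun i => a i + t)) - Real.log (pk σ a))
        = ∑ t ∈ T, ∑ a ∈ Good,
          (pk σ a / T.card * (Real.log c + Real.log (pk ρ (fun i => a i + t)) - Real.log (pk σ a)) -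
            pk σ a / T.card * Real.log c) := by
          refine sum_congr rfl fun t _ => sum_congr rfl fun a _ => ?_
          ring
      _ ≤ ∑ t ∈ T, ∑ a ∈ Good,
          ((c * pk ρ (fun i => a i + t) - pk σ a) / T.card - pk σ a / T.card * Real.log c) := by
          refine sum_le_sum fun t ht => sum_le_sum fun a _ => ?_
          have := log_step (pk σ a) (pk ρ (fun i => a i + t)) T.card c (pk_nonneg σ hσ a)
            (pk_nonneg ρ hρP _) (hposk t ht a) hT0 hc0
          linarith
      _ = (c * (∑ t ∈ T, ∑ a ∈ Good, pk ρ (fun i => a i + t))) / T.card - PG - PG * Real.log c := by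
          have h5 : ∀ t ∈ T, ∑ a ∈ Good,
              ((c * pk ρ (fun i => a i + t) - pk σ a) / T.card - pk σ a / T.card * Real.log c) =
              (c * ∑ a ∈ Good, pk ρ (fun i => a i + t)) / T.card - PG / T.card - PG / T.card * Real.log c := by
            intro t _
            rw [sum_sub_distrib, ← sum_div, sum_sub_distrib, ← mul_sum, ← sum_mul, ← sum_div, ← hPG]
            ring
          rw [sum_congr rfl h5, sum_sub_distrib, sum_sub_distrib, ← sum_div, ← mul_sum, sum_const, sum_const,
            nsmul_eq_mul, nsmul_eq_mul]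
          field_simp
      _ ≤ 1 - PG - PG * Real.log c := by
          have h6 : (c * (∑ t ∈ T, ∑ a ∈ Good, pk ρ (fun i => a i + t))) / T.card ≤ 1 := by
            rw [div_le_one hT0]
            calc c * (∑ t ∈ T, ∑ a ∈ Good, pk ρ (fun i => a i + t)) ≤ c * (T.card / c) :=
                  mul_le_mul_of_nonneg_left h1 hc0.le
              _ = T.card := by field_simp
          linarith
  have hsplit : A1 = ∑ t ∈ T, ∑ a ∈ Good,
      pk σ a / T.card * (Real.log (pk ρ (fun i => a i + t)) - Real.log (pk σ a)) +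
      ∑ t ∈ T, ∑ a ∈ Goodᶜ,
      pk σ a / T.card * (Real.log (pk ρ (fun i => a i + t)) - Real.log (pk σ a)) := by
    rw [hA1, ← sum_add_distrib]
    refine sum_congr rfl fun t _ => ?_
    exact (sum_add_sum_compl Good _).symm
  have hk : (0 : ℝ) ≤ k * η := mul_nonneg (Nat.cast_nonneg k) hη0
  have hfin : PG * Real.log c ≥ k * η + 2 := by
    rw [hlogc]
    nlinarith
  linarith

end

end Pool.Agent.J4.H30.CD
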