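import Pool.Agent.J4.H30.CD.Iter
import Pool.Agent.N142.CD.FOU

/-!
# Bohr sets in `2A - 2A` (helper30): the Fourier step with constant accuracy
-/

set_option autoImplicit false
set_option linter.unusedSectionVars false
set_option linter.unusedVariables false

namespace Pool.Agent.J4.H30.CD

open Finset Pool.Agent.N142.CD Pool.Agent.N142.CD.FOU
open scoped Pointwise

section

variable {G : Type} [AddCommGroup G] [Fintype G] [DecidableEq G]

theorem PP_adj (T : Finset G) (φ χ : G → ℝ) : ∑ x, φ x * PP T χ x = ∑ x, PP T φ x * χ x := by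
  simp_rw [PP_eq T φ, PP_eq' T χ, mul_div_assoc', div_mul_eq_mul_div]
  rw [← sum_div, ← sum_div]
  congr 1
  simp_rw [mul_sum, sum_mul]
  rw [sum_comm]
  conv_rhs => rw [sum_comm]
  refine sum_congr rfl fun t _ => ?_
  rw [sum_comm]
  conv_rhs => rw [sum_comm]
  refine sum_congr rfl fun t' _ => ?_
  have h := Equiv.sum_comp (Equiv.addRight (t - t')) (fun x => φ x * χ (x - (t - t')))
  rw [← h]
  refine sum_congr rfl fun x _ => ?_
  simp

theorem PP_adj_iter (T : Finset G) (φ χ : G → ℝ) (i : ℕ) :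
    ∑ x, φ x * ((PP T)^[i] χ) x = ∑ x, ((PP T)^[i] φ) x * χ x := by
  induction i generalizing φ with
  | zero => rfl
  | succ i ih =>
    rw [Function.iterate_succ_apply', PP_adj, ih (PP T φ), ← Function.iterate_succ_apply]

theorem PP_le (T : Finset G) (hT : T.Nonempty) (V : Finset G) (c : ℝ) (φ : G → ℝ)
    (h : ∀ t ∈ T, ∀ t' ∈ T, ∑ v ∈ V, φ (v + (t - t')) ≤ c) : ∑ v ∈ V, PP T φ v ≤ c := by
  have hT0 : (0 : ℝ) < T.card := by exact_mod_cast hT.card_pos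
  have hT2 : (0 : ℝ) < (T.card : ℝ) ^ 2 := by positivity
  simp_rw [PP_eq]
  rw [← sum_div, div_le_iff₀ hT2, sum_comm]
  calc ∑ t ∈ T, ∑ v ∈ V, ∑ t' ∈ T, φ (v + (t - t'))
      = ∑ t ∈ T, ∑ t' ∈ T, ∑ v ∈ V, φ (v + (t - t')) := sum_congr rfl fun t _ => sum_comm
    _ ≤ ∑ t ∈ T, ∑ t' ∈ T, c := sum_le_sum fun t ht => sum_le_sum fun t' ht' => h t ht t' ht'
    _ = c * (T.card : ℝ) ^ 2 := by
        rw [sum_const, sum_const, nsmul_eq_mul, nsmul_eq_mul]
        ring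

theorem PP_ge (T : Finset G) (hT : T.Nonempty) (V : Finset G) (c : ℝ) (φ : G → ℝ)
    (h : ∀ t ∈ T, ∀ t' ∈ T, c ≤ ∑ v ∈ V, φ (v + (t - t'))) : c ≤ ∑ v ∈ V, PP T φ v := by
  have hT0 : (0 : ℝ) < T.card := by exact_mod_cast hT.card_pos
  have hT2 : (0 : ℝ) < (T.card : ℝ) ^ 2 := by positivity
  simp_rw [PP_eq]
  rw [← sum_div, le_div_iff₀ hT2, sum_comm]
  calc c * (T.card : ℝ) ^ 2 = ∑ t ∈ T, ∑ t' ∈ T, c := by
        rw [sum_const, sum_const, nsmul_eq_mul, nsmul_eq_mul]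
        ring
    _ ≤ ∑ t ∈ T, ∑ t' ∈ T, ∑ v ∈ V, φ (v + (t - t')) :=
        sum_le_sum fun t ht => sum_le_sum fun t' ht' => h t ht t' ht'
    _ = ∑ t ∈ T, ∑ v ∈ V, ∑ t' ∈ T, φ (v + (t - t')) := sum_congr rfl fun t _ => sum_comm

end

/-- the indicator function -/
noncomputable def ind {G : Type} [DecidableEq G] (V : Finset G) (x : G) : ℝ := if x ∈ V then 1 else 0

variable {N : ℕ} [NeZero N]

/-- the autocorrelation of the averaged indicator function -/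
noncomputable def UU (V T : Finset (ZMod N)) (i : ℕ) (y : ZMod N) : ℝ :=
  ∑ v ∈ V, ((PP T)^[i] (ind V)) (v + y)

theorem UU_succ (V T : Finset (ZMod N)) (i : ℕ) (y : ZMod N) :
    UU V T (i + 1) y = (∑ t ∈ T, ∑ t' ∈ T, UU V T i (y + (t - t'))) / (T.card : ℝ) ^ 2 := by
  unfold UU
  simp_rw [Function.iterate_succ_apply', PP_eq]
  rw [← sum_div]
  congr 1
  rw [sum_comm]
  refine sum_congr rfl fun t _ => ?_
  rw [sum_comm]
  refine sum_congr rfl fun t' _ => ?_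
  refine sum_congr rfl fun v _ => ?_
  rw [add_assoc]

theorem UU_eq (V T : Finset (ZMod N)) (i : ℕ) : ∀ y : ZMod N, ((UU V T i y : ℝ) : ℂ) =
    (∑ γ : ZMod N, ((‖hh V γ‖ ^ 2 : ℝ) : ℂ) * ((ww T γ : ℝ) : ℂ) ^ i * ψ (γ * y)) / N := by
  induction i with
  | zero =>
    intro y
    have h0 : ((UU V T 0 y : ℝ) : ℂ) = ∑ v ∈ V, (if v + y ∈ V then (1 : ℂ) else 0) := by
      unfold UU
      rw [Complex.ofReal_sum]
      refine sum_congr rfl fun v _ => ?_
      show ((ind V (v + y) : ℝ) : ℂ) = _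
      unfold ind
      split_ifs <;> simp
    rw [h0]
    simp_rw [ind_eq]
    rw [← sum_div, sum_comm]
    congr 1
    refine sum_congr rfl fun γ _ => ?_
    rw [pow_zero, mul_one, ← hh_mul_neg V γ]
    have e : ∀ v, hh V (-γ) * ψ (γ * (v + y)) = ψ (γ * v) * (hh V (-γ) * ψ (γ * y)) := by
      intro v
      rw [mul_add, psi_add]
      ring
    simp_rw [e]
    rw [← sum_mul]
    unfold hh
    ring
  | succ i ih =>
    intro y
    rw [UU_succ]
    push_cast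
    simp_rw [ih]
    simp_rw [← sum_div]
    have h2 : ∑ s ∈ T, ∑ s' ∈ T, ∑ γ : ZMod N, ((‖hh V γ‖ ^ 2 : ℝ) : ℂ) * ((ww T γ : ℝ) : ℂ) ^ i *
          ψ (γ * (y + (s - s'))) =
        ∑ γ : ZMod N, ((‖hh V γ‖ ^ 2 : ℝ) : ℂ) * ((ww T γ : ℝ) : ℂ) ^ i * ψ (γ * y) *
          ((‖hh T γ‖ ^ 2 : ℝ) : ℂ) := by
      calc ∑ s ∈ T, ∑ s' ∈ T, ∑ γ : ZMod N, ((‖hh V γ‖ ^ 2 : ℝ) : ℂ) * ((ww T γ : ℝ) : ℂ) ^ i *
            ψ (γ * (y + (s - s')))
          = ∑ s ∈ T, ∑ γ : ZMod N, ∑ s' ∈ T, ((‖hh V γ‖ ^ 2 : ℝ) : ℂ) * ((ww T γ : ℝ) : ℂ) ^ i *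
            ψ (γ * (y + (s - s'))) :=
            sum_congr rfl fun x _ => sum_comm
        _ = ∑ γ : ZMod N, ∑ s ∈ T, ∑ s' ∈ T, ((‖hh V γ‖ ^ 2 : ℝ) : ℂ) * ((ww T γ : ℝ) : ℂ) ^ i *
            ψ (γ * (y + (s - s'))) := sum_comm
        _ = _ := by
            refine sum_congr rfl fun γ _ => ?_
            rw [← hh_mul_neg T γ]
            have e : hh T γ * hh T (-γ) = ∑ s ∈ T, ∑ s' ∈ T, ψ (γ * s) * ψ (-γ * s') := by
              unfold hh
              rw [sum_mul_sum]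
            rw [e, mul_sum]
            refine sum_congr rfl fun s _ => ?_
            rw [mul_sum]
            refine sum_congr rfl fun s' _ => ?_
            have e2 : γ * (y + (s - s')) = γ * y + γ * s + -γ * s' := by ring
            rw [e2, psi_add, psi_add]
            ring
    rw [h2, div_div, sum_div, sum_div]
    refine sum_congr rfl fun γ _ => ?_
    rw [mul_comm (N : ℂ) _, ← div_div]
    congr 1
    rw [pow_succ]
    unfold ww
    push_cast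
    ring


theorem UU_zero (V T : Finset (ZMod N)) (i : ℕ) :
    UU V T i 0 = (∑ γ : ZMod N, ‖hh V γ‖ ^ 2 * ww T γ ^ i) / N := by
  have h := UU_eq V T i 0
  have h1 : ∀ γ : ZMod N, ψ (γ * (0 : ZMod N)) = 1 := by
    intro γ
    rw [mul_zero]
    exact AddChar.map_zero_eq_one _
  simp_rw [h1, mul_one] at h
  exact_mod_cast h

/-- the change of `U` under the shift by an element of the Bohr set -/
theorem UU_far (V T : Finset (ZMod N)) (hT : T.Nonempty) (i : ℕ) (y : ZMod N)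
    (hy : ∀ γ : ZMod N, (T.card : ℝ) / 2 ≤ ‖∑ t ∈ T, ψ (γ * t)‖ → ‖ψ (γ * y) - 1‖ ≤ 1 / 4) :
    |UU V T i y - UU V T i 0| ≤ 1 / 4 * UU V T i 0 + 2 / 4 ^ i * V.card := by
  have hN : (0 : ℝ) < N := by exact_mod_cast NeZero.pos N
  have hT0 : (0 : ℝ) < T.card := by exact_mod_cast hT.card_pos
  have e : ((UU V T i y - UU V T i 0 : ℝ) : ℂ) =
      (∑ γ : ZMod N, ((‖hh V γ‖ ^ 2 : ℝ) : ℂ) * ((ww T γ : ℝ) : ℂ) ^ i * (ψ (γ * y) - 1)) / N := by
    rw [Complex.ofReal_sub, UU_eq, UU_eq, ← sub_div, ← sum_sub_distrib]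
    congr 1
    refine sum_congr rfl fun γ _ => ?_
    have : ψ (γ * (0 : ZMod N)) = 1 := by
      rw [mul_zero]
      exact AddChar.map_zero_eq_one _
    rw [this]
    ring
  have hb : ∀ γ : ZMod N, ‖((‖hh V γ‖ ^ 2 : ℝ) : ℂ) * ((ww T γ : ℝ) : ℂ) ^ i * (ψ (γ * y) - 1)‖ ≤
      1 / 4 * (‖hh V γ‖ ^ 2 * ww T γ ^ i) + 2 / 4 ^ i * ‖hh V γ‖ ^ 2 := by
    intro γ
    have hw0 := ww_nonneg T γ
    rw [norm_mul, norm_mul, norm_pow, Complex.norm_real, Complex.norm_real, Real.norm_of_nonneg hw0,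
      Real.norm_of_nonneg (by positivity)]
    by_cases hγ : (T.card : ℝ) / 2 ≤ ‖∑ t ∈ T, ψ (γ * t)‖
    · have h1 := hy γ hγ
      have h2 : 0 ≤ 2 / 4 ^ i * ‖hh V γ‖ ^ 2 := by positivity
      have h3 : ‖hh V γ‖ ^ 2 * ww T γ ^ i * ‖ψ (γ * y) - 1‖ ≤ ‖hh V γ‖ ^ 2 * ww T γ ^ i * (1 / 4) :=
        mul_le_mul_of_nonneg_left h1 (by positivity)
      linarith
    · push Not at hγ
      have h4 : ww T γ ≤ 1 / 4 := by
        unfold ww
        rw [div_le_iff₀ (by positivity)]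
        have h5 : ‖hh T γ‖ ≤ (T.card : ℝ) / 2 := hγ.le
        calc ‖hh T γ‖ ^ 2 ≤ ((T.card : ℝ) / 2) ^ 2 := pow_le_pow_left₀ (norm_nonneg _) h5 2
          _ = _ := by ring
      have h6 : ‖ψ (γ * y) - 1‖ ≤ 2 := by
        calc ‖ψ (γ * y) - 1‖ ≤ ‖ψ (γ * y)‖ + ‖(1 : ℂ)‖ := norm_sub_le _ _
          _ = 2 := by rw [psi_norm, norm_one]; norm_num
      have h7 : ww T γ ^ i ≤ 1 / 4 ^ i := by
        have := pow_le_pow_left₀ hw0 h4 i
        rwa [div_pow, one_pow] at this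
      have h8 : 0 ≤ 1 / 4 * (‖hh V γ‖ ^ 2 * ww T γ ^ i) := by positivity
      calc ‖hh V γ‖ ^ 2 * ww T γ ^ i * ‖ψ (γ * y) - 1‖ ≤ ‖hh V γ‖ ^ 2 * (1 / 4 ^ i) * 2 := by gcongr
        _ = 2 / 4 ^ i * ‖hh V γ‖ ^ 2 := by ring
        _ ≤ _ := by linarith
  have h9 : |UU V T i y - UU V T i 0| = ‖((UU V T i y - UU V T i 0 : ℝ) : ℂ)‖ := by
    rw [Complex.norm_real, Real.norm_eq_abs]
  rw [h9, e, norm_div, Complex.norm_natCast, div_le_iff₀ hN]
  calc ‖∑ γ : ZMod N, ((‖hh V γ‖ ^ 2 : ℝ) : ℂ) * ((ww T γ : ℝ) : ℂ) ^ i * (ψ (γ * y) - 1)‖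
      ≤ ∑ γ : ZMod N, (1 / 4 * (‖hh V γ‖ ^ 2 * ww T γ ^ i) + 2 / 4 ^ i * ‖hh V γ‖ ^ 2) :=
        (norm_sum_le _ _).trans (sum_le_sum fun γ _ => hb γ)
    _ = (1 / 4 * UU V T i 0 + 2 / 4 ^ i * V.card) * N := by
        rw [sum_add_distrib, ← mul_sum, ← mul_sum, parseval, UU_zero]
        field_simp

/-- **the Fourier step** -/
theorem fou2 (V S W T : Finset (ZMod N)) (κ b : ℝ) (j : ℕ) (hV : V.Nonempty) (hS : S.Nonempty)
    (hT : T.Nonempty) (hVS : V + S ⊆ W) (hκ : 1 ≤ κ) (hW : (W.card : ℝ) ≤ κ * V.card)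
    (hj : 16 * κ ≤ 4 ^ (2 * j)) (hb : 128 * κ * b ≤ V.card)
    (hper : ∀ r ∈ ds T (2 * j), PhiE (1 / 8) (fun x => FW W (unif S) (x + r)) (FW W (unif S)) ≤ b)
    (y : ZMod N)
    (hy : ∀ γ : ZMod N, (T.card : ℝ) / 2 ≤ ‖∑ t ∈ T, ψ (γ * t)‖ → ‖ψ (γ * y) - 1‖ ≤ 1 / 4) :
    ∃ v ∈ V, ∃ s ∈ S, ∃ w ∈ W, y = w - s - v := by
  classical
  have hV0 : (0 : ℝ) < V.card := by exact_mod_cast hV.card_pos
  have hκ0 : 0 < κ := by linarith
  obtain ⟨F, hF⟩ : ∃ F, F = FW W (unif S) := ⟨_, rfl⟩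
  rw [← hF] at hper
  have hF1 : ∀ v ∈ V, F v = 1 := fun v hv => by rw [hF]; exact FW_unif_one V S W hS hVS v hv
  have hF0 : ∀ x, 0 ≤ F x := fun x => by rw [hF]; exact FW_nonneg W _ (isP_unif S hS) x
  have hFs : ∑ x, F x = W.card := by rw [hF]; exact sum_FW W _ (isP_unif S hS)
  obtain ⟨φ, hφ⟩ : ∃ φ : ZMod N → ℝ, φ = fun x => if F x < 3 / 4 then 1 else 0 := ⟨_, rfl⟩
  obtain ⟨φ', hφ'⟩ : ∃ φ' : ZMod N → ℝ, φ' = fun x => if F x < 3 / 4 then 0 else 1 := ⟨_, rfl⟩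
  have hφφ : ∀ x, φ' x = 1 - φ x := by
    intro x
    rw [hφ, hφ']
    simp only
    split_ifs <;> norm_num
  have hφ0 : ∀ x, 0 ≤ φ x := by
    intro x
    rw [hφ]
    simp only
    split_ifs <;> norm_num
  -- the exceptional set
  have h1 : ∀ r ∈ ds T (2 * j), ∑ v ∈ V, φ (v + r) ≤ 8 * b := by
    intro r hr
    have h2 := hper r hr
    have h3 : 1 / 8 * ∑ v ∈ V, φ (v + r) ≤ PhiE (1 / 8) (fun x => F (x + r)) F := by
      unfold PhiE
      rw [mul_sum]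
      calc ∑ v ∈ V, 1 / 8 * φ (v + r) ≤ ∑ v ∈ V, max (|F (v + r) - F v| - 1 / 8) 0 := by
            refine sum_le_sum fun v hv => ?_
            rw [hφ]
            simp only
            split_ifs with h4
            · rw [hF1 v hv]
              refine le_max_of_le_left ?_
              have h5 : 1 / 4 ≤ |F (v + r) - 1| := by
                rw [abs_sub_comm]
                exact (by linarith : (1 : ℝ) / 4 ≤ 1 - F (v + r)).trans (le_abs_self _)
              linarith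
            · rw [mul_zero]
              exact le_max_right _ _
        _ ≤ _ := sum_le_sum_of_subset_of_nonneg (subset_univ _) fun x _ _ => le_max_right _ _
    linarith
  have hind : ∀ (χ : ZMod N → ℝ), ∑ x, χ x * ind V x = ∑ v ∈ V, χ v := by
    intro χ
    unfold ind
    simp_rw [mul_ite, mul_one, mul_zero]
    rw [sum_ite_mem, univ_inter]
  have h2 : ∑ x, φ x * ((PP T)^[2 * j] (ind V)) x ≤ 8 * b := by
    rw [PP_adj_iter, hind]
    exact iter_closed T (fun χ => ∑ v ∈ V, χ v ≤ 8 * b) (fun χ hχ => PP_le T hT V _ χ hχ) (2 * j) φ h1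
  have h3 : (V.card : ℝ) - 8 * b ≤ ∑ x, φ' x * ((PP T)^[j] (ind V)) x := by
    rw [PP_adj_iter, hind]
    refine iter_closed T (fun χ => (V.card : ℝ) - 8 * b ≤ ∑ v ∈ V, χ v)
      (fun χ hχ => PP_ge T hT V _ χ hχ) j φ' ?_
    intro r hr
    have h4 := h1 r (ds_mono T hT j (2 * j) (by omega) hr)
    have h5 : ∑ v ∈ V, φ' (v + r) = V.card - ∑ v ∈ V, φ (v + r) := by
      simp_rw [hφφ]
      rw [sum_sub_distrib, sum_const, nsmul_eq_mul, mul_one]
    show (V.card : ℝ) - 8 * b ≤ ∑ v ∈ V, φ' (v + r)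
    rw [h5]
    linarith
  obtain ⟨u, hu⟩ : ∃ u, u = (PP T)^[j] (ind V) := ⟨_, rfl⟩
  rw [← hu] at h3
  have hU0 : UU V T (2 * j) 0 = ∑ x, u x * u x := by
    unfold UU
    simp_rw [add_zero]
    rw [← hind, hu]
    have h4 := PP_adj_iter T ((PP T)^[j] (ind V)) (ind V) j
    have h5 : (PP T)^[2 * j] (ind V) = (PP T)^[j] ((PP T)^[j] (ind V)) := by
      rw [two_mul, Function.iterate_add_apply]
    rw [h5, ← h4]
  have hVp : ∑ x, φ' x * φ' x ≤ 4 / 3 * W.card := by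
    rw [← hFs, mul_sum]
    refine sum_le_sum fun x _ => ?_
    rw [hφ']
    simp only
    have := hF0 x
    split_ifs with h4
    · linarith
    · push Not at h4
      linarith
  have hCS : (∑ x, φ' x * u x) ^ 2 ≤ (∑ x, φ' x * φ' x) * (∑ x, u x * u x) := by
    have h4 := Finset.sum_mul_sq_le_sq_mul_sq univ φ' u
    simp_rw [pow_two (φ' _), pow_two (u _)] at h4
    exact h4
  have hb' : 8 * b ≤ V.card / (16 * κ) := by
    rw [le_div_iff₀ (by positivity)]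
    linarith
  have hVκ : (V.card : ℝ) / (16 * κ) ≤ V.card / 16 := by
    apply div_le_div_of_nonneg_left hV0.le (by norm_num)
    linarith
  have hUlow : (V.card : ℝ) / (2 * κ) ≤ UU V T (2 * j) 0 := by
    rw [hU0]
    have h5 : (15 / 16 * (V.card : ℝ)) ^ 2 ≤ (4 / 3 * (κ * V.card)) * ∑ x, u x * u x := by
      have h6 : 15 / 16 * (V.card : ℝ) ≤ ∑ x, φ' x * u x := by linarith
      have h7 : 0 ≤ ∑ x, u x * u x := sum_nonneg fun x _ => mul_self_nonneg _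
      calc (15 / 16 * (V.card : ℝ)) ^ 2 ≤ (∑ x, φ' x * u x) ^ 2 :=
            pow_le_pow_left₀ (by positivity) h6 2
        _ ≤ (∑ x, φ' x * φ' x) * (∑ x, u x * u x) := hCS
        _ ≤ (4 / 3 * (κ * V.card)) * ∑ x, u x * u x := by
            refine mul_le_mul_of_nonneg_right (hVp.trans ?_) h7
            linarith
    have h8 : (V.card : ℝ) / (2 * κ) * ((4 / 3) * (κ * V.card)) ≤ (4 / 3 * (κ * V.card)) * ∑ x, u x * u x := by
      refine le_trans ?_ h5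
      have : (V.card : ℝ) / (2 * κ) * ((4 / 3) * (κ * V.card)) = 2 / 3 * (V.card : ℝ) ^ 2 := by
        field_simp
        norm_num
      rw [this]
      nlinarith [sq_nonneg (V.card : ℝ)]
    rw [mul_comm (4 / 3 * (κ * (V.card : ℝ)))] at h8
    exact le_of_mul_le_mul_right h8 (by positivity)
  have hfar := UU_far V T hT (2 * j) y hy
  have h4j : 2 / 4 ^ (2 * j) * (V.card : ℝ) ≤ V.card / (8 * κ) := by
    rw [div_mul_eq_mul_div, div_le_div_iff₀ (by positivity) (by positivity)]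
    nlinarith
  have hUy : (V.card : ℝ) / (4 * κ) ≤ UU V T (2 * j) y := by
    have h5 := (abs_le.1 hfar).1
    have h6 : (V.card : ℝ) / (4 * κ) = 3 / 4 * (V.card / (2 * κ)) - V.card / (8 * κ) := by
      field_simp
      norm_num
    rw [h6]
    linarith
  by_contra hcon
  push Not at hcon
  have hzero : ∀ v ∈ V, φ (v + y) = 1 := by
    intro v hv
    have h5 : F (v + y) = 0 := by
      by_contra h6
      rw [hF] at h6
      obtain ⟨s, hs, hw⟩ := FW_pos S W _ h6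
      exact hcon v hv s hs _ hw (by ring)
    rw [hφ]
    simp only
    rw [if_pos]
    rw [h5]
    norm_num
  have hnn : ∀ x, 0 ≤ ((PP T)^[2 * j] (ind V)) x := by
    refine iter_closed T (fun χ => ∀ x, 0 ≤ χ x) ?_ (2 * j) (ind V) ?_
    · intro χ hχ x
      rw [PP_eq]
      exact div_nonneg (sum_nonneg fun t ht => sum_nonneg fun t' ht' => hχ t ht t' ht' x) (by positivity)
    · intro r _ x
      show 0 ≤ ind V (x + r)
      unfold ind
      split_ifs <;> norm_num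
  have hle : UU V T (2 * j) y ≤ ∑ x, φ x * ((PP T)^[2 * j] (ind V)) x := by
    unfold UU
    calc ∑ v ∈ V, ((PP T)^[2 * j] (ind V)) (v + y) = ∑ v ∈ V, φ (v + y) * ((PP T)^[2 * j] (ind V)) (v + y) := by
          refine sum_congr rfl fun v hv => ?_
          rw [hzero v hv, one_mul]
      _ ≤ ∑ v, φ (v + y) * ((PP T)^[2 * j] (ind V)) (v + y) :=
          sum_le_sum_of_subset_of_nonneg (subset_univ _) fun x _ _ => mul_nonneg (hφ0 _) (hnn _)
      _ = _ := Equiv.sum_comp (Equiv.addRight y) (fun x => φ x * ((PP T)^[2 * j] (ind V)) x)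
  have h5 : (V.card : ℝ) / (16 * κ) < V.card / (4 * κ) := by
    apply div_lt_div_of_pos_left hV0 (by positivity)
    linarith
  linarith

end Pool.Agent.J4.H30.CD
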