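import Pool.Agent.J4.H30.CD.Stage

/-!
# Bohr sets in `2A - 2A` (helper30): the iteration of the stages

`STG e`: a set `T ⊆ Y` of relative density `exp (- C m h l ^ e)` all of whose `l`-fold sums of differences are
almost periods. `STG 2` is the Croot-Sisask argument; `STG e → STG (2 e / (1 + e))` uses the entropies of the
measures `μ_S * μ_{T-T} * ... * μ_{T-T}`.
-/

set_option autoImplicit false
set_option linter.unusedSectionVars false
set_option linter.unusedVariables false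

namespace Pool.Agent.J4.H30.CD

open Finset
open scoped Pointwise

/-- the existence of almost periods with a loss of exponent `e` -/
def STG (e : ℝ) : Prop := ∀ δ : ℝ, 0 < δ → δ ≤ 1 / 2 → ∃ C : ℝ, 1 ≤ C ∧
  ∀ (G : Type) [AddCommGroup G] [Fintype G] [DecidableEq G] (V S W Y Z : Finset G) (κ h : ℝ) (m Q : ℕ),
  V.Nonempty → S.Nonempty → Y.Nonempty → V + S ⊆ W → (W.card : ℝ) ≤ κ * V.card → 1 ≤ κ →
  1 ≤ m → 2 * κ ≤ Real.exp m → 1 ≤ h →
  ((S + Y).card : ℝ) ≤ Real.exp h * S.card →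
  (Z.card : ℝ) ≤ Real.exp h * S.card →
  (∀ n : ℕ, n ≤ Q → ∀ r ∈ ds Y n, r ∈ W - V - S → ∀ s ∈ S, s + r ∈ Z) →
  ∀ l : ℕ, 1 ≤ l → l ≤ Q → ∃ T : Finset G, T ⊆ Y ∧ T.Nonempty ∧
    (Y.card : ℝ) ≤ Real.exp (C * (m * h * (l : ℝ) ^ e)) * T.card ∧
    ∀ r ∈ ds T l, PhiE δ (fun x => FW W (unif S) (x + r)) (FW W (unif S)) ≤
      δ * W.card * Real.exp (-(4 * m))

section

variable {G : Type} [AddCommGroup G] [Fintype G] [DecidableEq G]

theorem neg_mem_ds (T : Finset G) (j : ℕ) (r : G) (hr : r ∈ ds T j) : -r ∈ ds T j := by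
  induction j generalizing r with
  | zero =>
    have : r = 0 := by simpa [ds] using hr
    subst this
    simp [ds]
  | succ j ih =>
    unfold ds at hr ⊢
    obtain ⟨r', hr', q, hq, rfl⟩ := mem_add.1 hr
    obtain ⟨s, hs, s', hs', rfl⟩ := mem_sub.1 hq
    rw [mem_add]
    exact ⟨-r', ih r' hr', s' - s, sub_mem_sub hs' hs, by abel⟩

theorem FW_unif_one (V S W : Finset G) (hS : S.Nonempty) (hVS : V + S ⊆ W) (v : G) (hv : v ∈ V) :
    FW W (unif S) v = 1 := by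
  have h1 := (isP_unif S hS).2
  rw [← h1]
  unfold FW
  refine sum_congr rfl fun u _ => ?_
  by_cases hu : u ∈ S
  · rw [if_pos (hVS (add_mem_add hv hu)), mul_one]
  · unfold unif
    rw [if_neg hu, zero_mul]

theorem FW_pos (S W : Finset G) (x : G) (h : FW W (unif S) x ≠ 0) : ∃ s ∈ S, x + s ∈ W := by
  by_contra hcon
  push Not at hcon
  apply h
  unfold FW
  refine sum_eq_zero fun u _ => ?_
  by_cases hu : u ∈ S
  · rw [if_neg (hcon u hu), mul_zero]
  · unfold unif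
    rw [if_neg hu, zero_mul]

/-- the almost periods lie in `W - V - S` -/
theorem mem_of_PhiE (V S W : Finset G) (hV : V.Nonempty) (hS : S.Nonempty) (hVS : V + S ⊆ W) (κ δ : ℝ) (m : ℕ)
    (hκ : 1 ≤ κ) (hW : (W.card : ℝ) ≤ κ * V.card) (hm2 : 2 * κ ≤ Real.exp m) (hδ : 0 < δ) (hδ2 : δ ≤ 1 / 2)
    (r : G) (h : PhiE δ (fun x => FW W (unif S) (x + r)) (FW W (unif S)) ≤ δ * W.card * Real.exp (-(4 * m))) :
    r ∈ W - V - S := by
  have hV0 : (0 : ℝ) < V.card := by exact_mod_cast hV.card_pos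
  by_contra hr
  have h1 : ∀ v ∈ V, FW W (unif S) (v + r) = 0 := by
    intro v hv
    by_contra h2
    obtain ⟨s, hs, hw⟩ := FW_pos S W _ h2
    apply hr
    have : r = (v + r + s) - v - s := by abel
    rw [this]
    exact sub_mem_sub (sub_mem_sub hw hv) hs
  have h2 : (1 - δ) * V.card ≤ PhiE δ (fun x => FW W (unif S) (x + r)) (FW W (unif S)) := by
    unfold PhiE
    calc (1 - δ) * (V.card : ℝ) = ∑ v ∈ V, (1 - δ) := by rw [sum_const, nsmul_eq_mul]; ring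
      _ ≤ ∑ v ∈ V, max (|FW W (unif S) (v + r) - FW W (unif S) v| - δ) 0 := by
          refine sum_le_sum fun v hv => ?_
          rw [h1 v hv, FW_unif_one V S W hS hVS v hv, zero_sub, abs_neg, abs_one]
          exact le_max_left _ _
      _ ≤ _ := sum_le_sum_of_subset_of_nonneg (subset_univ _) fun x _ _ => le_max_right _ _
  have h3 : Real.exp (-(4 * m)) ≤ 1 / (16 * κ) := by
    have h4 : Real.exp (-(4 * (m : ℝ))) = 1 / Real.exp m ^ 4 := by
      rw [← Real.exp_nat_mul, one_div, ← Real.exp_neg]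
      norm_num
    rw [h4]
    apply one_div_le_one_div_of_le (by positivity)
    calc 16 * κ ≤ 16 * κ ^ 4 := by
          have : κ ≤ κ ^ 4 := le_self_pow₀ hκ (by norm_num)
          linarith
      _ = (2 * κ) ^ 4 := by ring
      _ ≤ Real.exp m ^ 4 := pow_le_pow_left₀ (by linarith) hm2 4
  have h5 : δ * W.card * Real.exp (-(4 * m)) ≤ δ * (κ * V.card) * (1 / (16 * κ)) := by gcongr
  have h6 : δ * (κ * V.card) * (1 / (16 * κ)) = δ * V.card / 16 := by field_simp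
  rw [h6] at h5
  have h7 : (1 - δ) * (V.card : ℝ) ≤ δ * V.card / 16 := h2.trans (h.trans h5)
  nlinarith

theorem pigeon_En (E : ℕ → ℝ) (l : ℕ) (hl : 1 ≤ l) (h : ℝ) (hE : E l - E 0 ≤ h) :
    ∃ j < l, E (j + 1) - E j ≤ h / l := by
  have hl0 : (0 : ℝ) < l := by exact_mod_cast hl
  by_contra hcon
  push Not at hcon
  have h1 : ∑ j ∈ range l, (h / l : ℝ) < ∑ j ∈ range l, (E (j + 1) - E j) :=
    sum_lt_sum_of_nonempty ⟨0, mem_range.2 (by omega)⟩ fun j hj => hcon j (mem_range.1 hj)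
  rw [sum_range_sub, sum_const, card_range, nsmul_eq_mul] at h1
  have h2 : (l : ℝ) * (h / l) = h := by field_simp
  rw [h2] at h1
  linarith

end

/-- the choice of the number of samples -/
theorem choose_k (δ : ℝ) (hδ : 0 < δ) : ∃ c : ℕ, 1 ≤ c ∧ ∀ m l : ℕ, 1 ≤ m → 1 ≤ l →
    m ≤ c * m * l ^ 2 ∧ 88 * (m : ℝ) * Real.exp 4 * (l : ℝ) ^ 2 ≤ ((c * m * l ^ 2 : ℕ) : ℝ) * δ ^ 2 := by
  refine ⟨⌈88 * Real.exp 4 / δ ^ 2⌉₊, Nat.ceil_pos.2 (by positivity), fun m l hm hl => ⟨?_, ?_⟩⟩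
  · have h1 : 1 ≤ ⌈88 * Real.exp 4 / δ ^ 2⌉₊ := Nat.ceil_pos.2 (by positivity)
    have h2 : 1 ≤ l ^ 2 := Nat.one_le_pow _ _ hl
    calc m = 1 * m * 1 := by ring
      _ ≤ _ := Nat.mul_le_mul (Nat.mul_le_mul_right m h1) h2
  · have h1 := Nat.le_ceil (88 * Real.exp 4 / δ ^ 2)
    rw [div_le_iff₀ (by positivity)] at h1
    push_cast
    calc 88 * (m : ℝ) * Real.exp 4 * (l : ℝ) ^ 2 = (88 * Real.exp 4) * (m * (l : ℝ) ^ 2) := by ring
      _ ≤ (⌈88 * Real.exp 4 / δ ^ 2⌉₊ * δ ^ 2) * (m * (l : ℝ) ^ 2) :=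
          mul_le_mul_of_nonneg_right h1 (by positivity)
      _ = _ := by ring

theorem stg_two : STG 2 := by
  intro δ hδ hδ2
  obtain ⟨c, hc1, hc⟩ := choose_k (δ / 2) (by positivity)
  have hc1R : (1 : ℝ) ≤ c := by exact_mod_cast hc1
  refine ⟨2 * c + 4, by linarith, ?_⟩
  intro G _ _ _ V S W Y Z κ h m Q hV hS hY hVS hW hκ hm hm2 hh hSY hZ hQ l hl hlQ
  have hS0 : (0 : ℝ) < S.card := by exact_mod_cast hS.card_pos
  have hWne : W.Nonempty := (hV.add hS).mono hVS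
  obtain ⟨hmk, hk⟩ := hc m l hm hl
  have hη : En (av Y (fun t => -t) ((PP Y)^[0] (unif S))) - En ((PP Y)^[0] (unif S)) ≤ h := by
    rw [Function.iterate_zero_apply, En_unif S hS]
    have h1 := En_le (av Y (fun t => -t) (unif S)) (isP_av Y hY _ _ (isP_unif S hS)) (S + Y) (by
      intro x hx
      unfold av
      rw [sum_eq_zero, zero_div]
      intro t ht
      unfold unif
      rw [if_neg]
      intro hs
      apply hx
      rw [mem_add]
      exact ⟨x + -t, hs, t, ht, by abel⟩)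
    have h2 : Real.log (S + Y).card ≤ h + Real.log S.card := by
      have h3 : (0 : ℝ) < (S + Y).card := by exact_mod_cast (hS.add hY).card_pos
      have h4 := Real.log_le_log h3 hSY
      rw [Real.log_mul (Real.exp_pos _).ne' hS0.ne', Real.log_exp] at h4
      exact h4
    linarith
  obtain ⟨T, hTY, hT, hTc, hper⟩ := stage W S Y hWne hS hY 0 0 0 (by
    intro r hr
    have : r = 0 := by simpa [ds] using hr
    subst this
    simp only [add_zero]
    exact (PhiE_self 0 le_rfl _).le) h (by linarith) hη m l (c * m * l ^ 2) hm hl hmk (δ / 2) (by positivity) hk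
  refine ⟨T, hTY, hT, ?_, ?_⟩
  · refine hTc.trans (mul_le_mul_of_nonneg_right (Real.exp_le_exp.2 ?_) (Nat.cast_nonneg _))
    have hm1 : (1 : ℝ) ≤ m := by exact_mod_cast hm
    have hl1 : (1 : ℝ) ≤ l := by exact_mod_cast hl
    have hrp : (l : ℝ) ^ (2 : ℝ) = (l : ℝ) ^ 2 := by
      rw [← Real.rpow_natCast]; norm_num
    rw [hrp]
    push_cast
    have h1 : 1 ≤ (m : ℝ) * h * (l : ℝ) ^ 2 := by
      have h2 : 1 ≤ (m : ℝ) * h := by nlinarith
      have h3 : 1 ≤ (l : ℝ) ^ 2 := one_le_pow₀ hl1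
      nlinarith
    nlinarith
  · intro r hr
    have h1 := hper r hr
    have h2 : (2 * 0 + δ / 2 : ℝ) = δ / 2 := by ring
    have h3 : 2 * (0 : ℝ) + 2 * (δ / 2) * W.card * Real.exp (-(4 * m)) = δ * W.card * Real.exp (-(4 * m)) := by
      ring
    rw [h2, h3] at h1
    exact (PhiE_mono (δ / 2) δ (by linarith) _ _).trans h1

theorem stg_step (e : ℝ) (he1 : 1 ≤ e) (he2 : e ≤ 2) (hstg : STG e) : STG (2 * e / (1 + e)) := by
  intro δ hδ hδ2
  obtain ⟨C₁, hC₁, hstg⟩ := hstg (δ / 6) (by positivity) (by linarith)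
  obtain ⟨c, hc1, hc⟩ := choose_k (δ / 3) (by positivity)
  have hc1R : (1 : ℝ) ≤ c := by exact_mod_cast hc1
  refine ⟨4 * C₁ + 2 * c + 4, by linarith, ?_⟩
  intro G _ _ _ V S W Y Z κ h m Q hV hS hY hVS hW hκ hm hm2 hh hSY hZ hQ l hl hlQ
  have hS0 : (0 : ℝ) < S.card := by exact_mod_cast hS.card_pos
  have hWne : W.Nonempty := (hV.add hS).mono hVS
  have hm1 : (1 : ℝ) ≤ m := by exact_mod_cast hm
  have hl1 : (1 : ℝ) ≤ l := by exact_mod_cast hl
  have hl0 : (0 : ℝ) < l := by linarith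
  obtain ⟨θ, hθ⟩ : ∃ θ : ℝ, θ = 2 / (1 + e) := ⟨_, rfl⟩
  have hθ1 : θ ≤ 1 := by rw [hθ, div_le_one (by linarith)]; linarith
  have hθ0 : 0 < θ := by rw [hθ]; positivity
  have hθe : θ * e = 2 * e / (1 + e) := by rw [hθ]; ring
  have hθe' : 2 - θ = 2 * e / (1 + e) := by rw [hθ]; field_simp; ring
  obtain ⟨l', hl'⟩ : ∃ l' : ℕ, l' = ⌈(l : ℝ) ^ θ⌉₊ := ⟨_, rfl⟩
  have hlθ1 : 1 ≤ (l : ℝ) ^ θ := Real.one_le_rpow hl1 hθ0.le
  have hl'1 : 1 ≤ l' := by rw [hl']; exact Nat.ceil_pos.2 (by linarith)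
  have hl'l : l' ≤ l := by
    rw [hl', Nat.ceil_le]
    calc (l : ℝ) ^ θ ≤ (l : ℝ) ^ (1 : ℝ) := Real.rpow_le_rpow_of_exponent_le hl1 hθ1
      _ = l := Real.rpow_one _
  have hl'ge : (l : ℝ) ^ θ ≤ l' := by rw [hl']; exact Nat.le_ceil _
  have hl'le : (l' : ℝ) ≤ 2 * (l : ℝ) ^ θ := by
    have := (Nat.ceil_lt_add_one (by linarith : 0 ≤ (l : ℝ) ^ θ)).le
    rw [← hl'] at this
    linarith
  have hl'0 : (0 : ℝ) < l' := by exact_mod_cast hl'1
  obtain ⟨T₁, hT₁Y, hT₁, hT₁c, hper₁⟩ := hstg G V S W Y Z κ h m Q hV hS hY hVS hW hκ hm hm2 hh hSY hZ hQ l' hl'1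
    (hl'l.trans hlQ)
  -- entropies
  have hsupp : ∀ x, x ∉ Z → ((PP T₁)^[l'] (unif S)) x = 0 := by
    refine iter_closed T₁ (fun φ => ∀ x, x ∉ Z → φ x = 0) ?_ l' (unif S) ?_
    · intro φ hφ x hx
      rw [PP_eq]
      rw [sum_eq_zero, zero_div]
      intro t ht
      exact sum_eq_zero fun t' ht' => hφ t ht t' ht' x hx
    · intro r hr x hx
      show unif S (x + r) = 0
      unfold unif
      rw [if_neg]
      intro hs
      apply hx
      have h1 := neg_mem_ds T₁ l' r hr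
      have h2 := mem_of_PhiE V S W hV hS hVS κ (δ / 6) m hκ hW hm2 (by positivity) (by linarith) (-r)
        (hper₁ (-r) h1)
      have h3 := hQ l' (hl'l.trans hlQ) (-r) (ds_subset Y T₁ hT₁Y l' h1) h2 (x + r) hs
      simpa using h3
  have hEl : En ((PP T₁)^[l'] (unif S)) - En ((PP T₁)^[0] (unif S)) ≤ h := by
    have h1 := En_le _ (isP_iter T₁ hT₁ _ (isP_unif S hS) l') Z hsupp
    have hZne : (0 : ℝ) < Z.card := by
      obtain ⟨s, hs⟩ := hS
      have h3 := hQ 0 (by omega) 0 (by simp [ds]) (mem_of_PhiE V S W hV ⟨s, hs⟩ hVS κ (δ / 6) m hκ hW hm2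
        (by positivity) (by linarith) 0 (by
          simp only [add_zero]
          rw [PhiE_self _ (by positivity)]
          positivity)) s hs
      exact_mod_cast card_pos.2 ⟨_, h3⟩
    have h4 := Real.log_le_log hZne hZ
    rw [Real.log_mul (Real.exp_pos _).ne' hS0.ne', Real.log_exp] at h4
    rw [Function.iterate_zero_apply, En_unif S hS]
    linarith
  obtain ⟨j, hj, hEj⟩ := pigeon_En (fun j => En ((PP T₁)^[j] (unif S))) l' hl'1 h hEl
  have hη : En (av T₁ (fun t => -t) ((PP T₁)^[j] (unif S))) - En ((PP T₁)^[j] (unif S)) ≤ h / l' := by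
    have h1 : En (av T₁ (fun t => -t) ((PP T₁)^[j] (unif S))) ≤ En ((PP T₁)^[j + 1] (unif S)) := by
      rw [Function.iterate_succ_apply', PP_eq_av]
      exact En_av T₁ hT₁ _ _ (isP_av T₁ hT₁ _ _ (isP_iter T₁ hT₁ _ (isP_unif S hS) j))
    linarith
  obtain ⟨hmk, hk⟩ := hc m l hm hl
  obtain ⟨T, hTT, hT, hTc, hper⟩ := stage W S T₁ hWne hS hT₁ j (δ / 6)
    (δ / 6 * W.card * Real.exp (-(4 * m))) (fun r hr => hper₁ r (ds_mono T₁ hT₁ j l' hj.le hr)) (h / l')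
    (by positivity) hη m l (c * m * l ^ 2) hm hl hmk (δ / 3) (by positivity) hk
  refine ⟨T, hTT.trans hT₁Y, hT, ?_, ?_⟩
  · have h1 : (Y.card : ℝ) ≤ Real.exp (C₁ * (m * h * (l' : ℝ) ^ e)) *
        (Real.exp (2 * (((c * m * l ^ 2 : ℕ) : ℝ) * (h / l')) + 4) * T.card) := by
      refine hT₁c.trans ?_
      gcongr
    rw [← mul_assoc, ← Real.exp_add] at h1
    refine h1.trans (mul_le_mul_of_nonneg_right (Real.exp_le_exp.2 ?_) (Nat.cast_nonneg _))
    obtain ⟨X, hX⟩ : ∃ X : ℝ, X = (l : ℝ) ^ (2 * e / (1 + e)) := ⟨_, rfl⟩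
    rw [← hX]
    have hX1 : 1 ≤ X := by
      rw [hX]
      exact Real.one_le_rpow hl1 (by positivity)
    have h2 : (l' : ℝ) ^ e ≤ 4 * X := by
      calc (l' : ℝ) ^ e ≤ (2 * (l : ℝ) ^ θ) ^ e := Real.rpow_le_rpow hl'0.le hl'le (by linarith)
        _ = 2 ^ e * (l : ℝ) ^ (θ * e) := by
            rw [Real.mul_rpow (by norm_num) (by linarith), ← Real.rpow_mul hl0.le]
        _ ≤ 4 * X := by
            rw [hθe, ← hX]
            refine mul_le_mul_of_nonneg_right ?_ (by linarith)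
            calc (2 : ℝ) ^ e ≤ 2 ^ (2 : ℝ) := Real.rpow_le_rpow_of_exponent_le (by norm_num) he2
              _ = 4 := by
                rw [Real.rpow_two]; norm_num
    have h3 : (l : ℝ) ^ 2 / l' ≤ X := by
      rw [div_le_iff₀ hl'0]
      calc (l : ℝ) ^ 2 = (l : ℝ) ^ (2 - θ) * (l : ℝ) ^ θ := by
            rw [← Real.rpow_add hl0]
            rw [show 2 - θ + θ = (2 : ℝ) by ring, Real.rpow_two]
        _ = X * (l : ℝ) ^ θ := by rw [hθe', ← hX]
        _ ≤ X * l' := by gcongr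
    have hmh : 1 ≤ (m : ℝ) * h := by nlinarith
    have hmh0 : 0 ≤ (m : ℝ) * h := by linarith
    have h4 : C₁ * (m * h * (l' : ℝ) ^ e) ≤ C₁ * (m * h * (4 * X)) := by gcongr
    have h5 : 2 * (((c * m * l ^ 2 : ℕ) : ℝ) * (h / l')) ≤ 2 * c * (m * h * X) := by
      push_cast
      calc 2 * ((c : ℝ) * m * (l : ℝ) ^ 2 * (h / l')) = 2 * c * (m * h * ((l : ℝ) ^ 2 / l')) := by ring
        _ ≤ 2 * c * (m * h * X) := by gcongr
    have h6 : 1 ≤ (m : ℝ) * h * X := one_le_mul_of_one_le_of_one_le hmh hX1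
    calc C₁ * (m * h * (l' : ℝ) ^ e) + (2 * (((c * m * l ^ 2 : ℕ) : ℝ) * (h / l')) + 4)
        ≤ C₁ * (m * h * (4 * X)) + (2 * c * (m * h * X) + 4 * (m * h * X)) := by
          refine add_le_add h4 (add_le_add h5 ?_)
          linarith
      _ = (4 * C₁ + 2 * c + 4) * (m * h * X) := by ring
  · intro r hr
    have h1 := hper r hr
    have h2 : (2 * (δ / 6) + δ / 3 : ℝ) = 2 * δ / 3 := by ring
    have h3 : 2 * (δ / 6 * W.card * Real.exp (-(4 * m))) + 2 * (δ / 3) * W.card * Real.exp (-(4 * m)) =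
        δ * W.card * Real.exp (-(4 * m)) := by
      ring
    rw [h2, h3] at h1
    exact (PhiE_mono (2 * δ / 3) δ (by linarith) _ _).trans h1

theorem stg_mono (e e' : ℝ) (h : e ≤ e') (hstg : STG e) : STG e' := by
  intro δ hδ hδ2
  obtain ⟨C, hC, hstg⟩ := hstg δ hδ hδ2
  refine ⟨C, hC, ?_⟩
  intro G _ _ _ V S W Y Z κ h m Q hV hS hY hVS hW hκ hm hm2 hh hSY hZ hQ l hl hlQ
  obtain ⟨T, hTY, hT, hTc, hper⟩ := hstg G V S W Y Z κ h m Q hV hS hY hVS hW hκ hm hm2 hh hSY hZ hQ l hl hlQ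
  refine ⟨T, hTY, hT, hTc.trans ?_, hper⟩
  have hl1 : (1 : ℝ) ≤ l := by exact_mod_cast hl
  refine mul_le_mul_of_nonneg_right (Real.exp_le_exp.2 ?_) (Nat.cast_nonneg _)
  have : (l : ℝ) ^ e ≤ (l : ℝ) ^ e' := Real.rpow_le_rpow_of_exponent_le hl1 (by assumption)
  gcongr

/-- **the iterated Croot-Sisask argument** -/
theorem stg_all (ε : ℝ) (hε : 0 < ε) : STG (1 + ε) := by
  have h1 : ∀ n : ℕ, ∃ e : ℝ, 1 ≤ e ∧ e ≤ 2 ∧ e ≤ 1 + (1 / 2) ^ n ∧ STG e := by
    intro n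
    induction n with
    | zero => exact ⟨2, by norm_num, le_rfl, by norm_num, stg_two⟩
    | succ n ih =>
      obtain ⟨e, he1, he2, he3, he⟩ := ih
      refine ⟨2 * e / (1 + e), ?_, ?_, ?_, stg_step e he1 he2 he⟩
      · rw [le_div_iff₀ (by linarith)]; linarith
      · rw [div_le_iff₀ (by linarith)]; nlinarith
      · rw [div_le_iff₀ (by linarith), pow_succ]
        obtain ⟨p, hp⟩ : ∃ p : ℝ, p = (1 / 2 : ℝ) ^ n := ⟨_, rfl⟩
        rw [← hp] at he3 ⊢
        have hp0 : 0 < p := by rw [hp]; positivity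
        nlinarith
  obtain ⟨n, hn⟩ := exists_pow_lt_of_lt_one hε (by norm_num : (1 / 2 : ℝ) < 1)
  obtain ⟨e, he1, he2, he3, he⟩ := h1 n
  exact stg_mono e (1 + ε) (by linarith) he

end Pool.Agent.J4.H30.CD
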