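import Mathlib

/-!
# Bohr sets in `2A - 2A` (helper30): moments of a sum of `k` independent samples of a probability measure

`E (∑ (f (a_i) - μ))^{2m} ≤ μ (22 m k)^m` for `0 ≤ f ≤ 1` of mean `μ`; the factor `μ` is what is new with respect to
`N142.CD.MOM`.
-/

set_option autoImplicit false
set_option linter.unusedSectionVars false
set_option linter.unusedVariables false

namespace Pool.Agent.J4.H30.CD

open Finset

/-- probability measures on a finite set -/
def IsP {G : Type} [Fintype G] (σ : G → ℝ) : Prop := (∀ x, 0 ≤ σ x) ∧ ∑ x, σ x = 1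

/-- the product measure -/
def pk {G : Type} (σ : G → ℝ) {k : ℕ} (a : Fin k → G) : ℝ := ∏ i, σ (a i)

section

variable {G : Type} [Fintype G] [DecidableEq G]

theorem pk_nonneg (σ : G → ℝ) (h : IsP σ) {k : ℕ} (a : Fin k → G) : 0 ≤ pk σ a :=
  prod_nonneg fun i _ => h.1 _

theorem sum_pk_prod (σ : G → ℝ) {k : ℕ} (f : Fin k → G → ℝ) :
    ∑ a : Fin k → G, pk σ a * ∏ i, f i (a i) = ∏ i, ∑ u, σ u * f i u := by
  have h := Finset.prod_univ_sum (fun _ : Fin k => (univ : Finset G)) (fun i u => σ u * f i u)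
  rw [h, Fintype.piFinset_univ]
  refine sum_congr rfl fun a _ => ?_
  rw [prod_mul_distrib]
  rfl

theorem sum_pk (σ : G → ℝ) (h : IsP σ) (k : ℕ) : ∑ a : Fin k → G, pk σ a = 1 := by
  have h1 := sum_pk_prod σ (k := k) (fun _ _ => 1)
  simpa [h.2] using h1

/-- marginals -/
theorem sum_pk_marg (σ : G → ℝ) (h : IsP σ) {k : ℕ} (i : Fin k) (φ : G → ℝ) :
    ∑ a : Fin k → G, pk σ a * φ (a i) = ∑ u, σ u * φ u := by
  have h1 := sum_pk_prod σ (k := k) (fun j u => if j = i then φ u else 1)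
  have h2 : ∀ a : Fin k → G, ∏ j, (if j = i then φ (a j) else 1) = φ (a i) := by
    intro a
    rw [prod_ite_eq' univ i (fun j => φ (a j))]
    simp
  simp only [h2] at h1
  rw [h1]
  rw [prod_eq_single i]
  · simp
  · intro j _ hj
    simp [hj, h.2]
  · intro hi
    exact absurd (mem_univ i) hi

theorem two_fact (n : ℕ) (hn : 2 ≤ n) : 2 * n.factorial ≤ n ^ n := by
  induction n, hn using Nat.le_induction with
  | base => decide
  | succ n hn ih =>
    rw [Nat.factorial_succ, pow_succ]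
    calc 2 * ((n + 1) * n.factorial) = (2 * n.factorial) * (n + 1) := by ring
      _ ≤ n ^ n * (n + 1) := Nat.mul_le_mul_right _ ih
      _ ≤ (n + 1) ^ n * (n + 1) := Nat.mul_le_mul_right _ (Nat.pow_le_pow_left (by omega) _)

theorem pow_le_cosh (x : ℝ) (m : ℕ) (hm : 1 ≤ m) :
    x ^ (2 * m) / (2 * m).factorial ≤ (Real.exp x + Real.exp (-x)) / 2 - 1 := by
  have h1 := Real.hasSum_cosh x
  have h2 := h1.summable.sum_le_tsum {0, m} (fun i _ => by
    have : 0 ≤ x ^ (2 * i) := by rw [pow_mul]; positivity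
    positivity)
  rw [h1.tsum_eq, sum_pair (by omega)] at h2
  rw [Real.cosh_eq] at h2
  norm_num at h2
  linarith

/-- the exponential moment of one sample -/
theorem exp_one (σ : G → ℝ) (h : IsP σ) (f : G → ℝ) (hf : ∀ u, 0 ≤ f u ∧ f u ≤ 1) (t : ℝ) (ht : |t| ≤ 1) :
    ∑ u, σ u * Real.exp (t * (f u - ∑ v, σ v * f v)) ≤ Real.exp (t ^ 2 * ∑ v, σ v * f v) := by
  set μ := ∑ v, σ v * f v with hμ
  have hμ0 : 0 ≤ μ := sum_nonneg fun v _ => mul_nonneg (h.1 v) (hf v).1
  have hμ1 : μ ≤ 1 := by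
    rw [hμ, ← h.2]
    exact sum_le_sum fun v _ => mul_le_of_le_one_right (h.1 v) (hf v).2
  have h1 : ∀ u, σ u * Real.exp (t * (f u - μ)) ≤
      σ u * (1 + t * (f u - μ) + t ^ 2 * (f u - μ) ^ 2) := by
    intro u
    refine mul_le_mul_of_nonneg_left ?_ (h.1 u)
    have h2 : |t * (f u - μ)| ≤ 1 := by
      rw [abs_mul]
      have : |f u - μ| ≤ 1 := by
        rw [abs_le]
        constructor <;> linarith [(hf u).1, (hf u).2]
      calc |t| * |f u - μ| ≤ 1 * 1 := mul_le_mul ht this (abs_nonneg _) zero_le_one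
        _ = 1 := one_mul 1
    have h3 := Real.abs_exp_sub_one_sub_id_le h2
    have h4 := (abs_le.1 h3).2
    rw [mul_pow] at h4
    linarith
  refine (sum_le_sum fun u _ => h1 u).trans ?_
  have h2 : ∑ u, σ u * (1 + t * (f u - μ) + t ^ 2 * (f u - μ) ^ 2) =
      1 + t ^ 2 * (∑ u, σ u * f u ^ 2 - μ ^ 2) := by
    have e : ∀ u, σ u * (1 + t * (f u - μ) + t ^ 2 * (f u - μ) ^ 2) =
        (1 - t * μ + t ^ 2 * μ ^ 2) * σ u + (t - 2 * t ^ 2 * μ) * (σ u * f u) + t ^ 2 * (σ u * f u ^ 2) := by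
      intro u; ring
    simp_rw [e]
    rw [sum_add_distrib, sum_add_distrib, ← mul_sum, ← mul_sum, ← mul_sum, h.2, ← hμ]
    ring
  rw [h2]
  have h3 : ∑ u, σ u * f u ^ 2 ≤ μ := by
    rw [hμ]
    refine sum_le_sum fun u _ => mul_le_mul_of_nonneg_left ?_ (h.1 u)
    nlinarith [(hf u).1, (hf u).2]
  have h4 := Real.add_one_le_exp (t ^ 2 * μ)
  have h5 : t ^ 2 * (∑ u, σ u * f u ^ 2 - μ ^ 2) ≤ t ^ 2 * μ := by
    refine mul_le_mul_of_nonneg_left ?_ (sq_nonneg t)
    nlinarith [sq_nonneg μ]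
  linarith

/-- the exponential moment of a sum of samples -/
theorem exp_many (σ : G → ℝ) (h : IsP σ) (f : G → ℝ) (hf : ∀ u, 0 ≤ f u ∧ f u ≤ 1) (t : ℝ) (ht : |t| ≤ 1)
    (k : ℕ) :
    ∑ a : Fin k → G, pk σ a * Real.exp (t * ∑ i, (f (a i) - ∑ v, σ v * f v)) ≤
      Real.exp (k * (t ^ 2 * ∑ v, σ v * f v)) := by
  have h1 : ∑ a : Fin k → G, pk σ a * Real.exp (t * ∑ i, (f (a i) - ∑ v, σ v * f v)) =
      (∑ u, σ u * Real.exp (t * (f u - ∑ v, σ v * f v))) ^ k := by
    have h2 := sum_pk_prod σ (k := k) (fun _ u => Real.exp (t * (f u - ∑ v, σ v * f v)))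
    rw [prod_const, card_univ, Fintype.card_fin] at h2
    rw [← h2]
    refine sum_congr rfl fun a _ => ?_
    rw [← Real.exp_sum, mul_sum]
  rw [h1, Real.exp_nat_mul]
  exact pow_le_pow_left₀ (sum_nonneg fun u _ => mul_nonneg (h.1 u) (Real.exp_pos _).le)
    (exp_one σ h f hf t ht) k

/-- **moments of a sum of samples** -/
theorem mom2 (σ : G → ℝ) (h : IsP σ) (f : G → ℝ) (hf : ∀ u, 0 ≤ f u ∧ f u ≤ 1) (k m : ℕ) (hm : 1 ≤ m)
    (hmk : m ≤ k) :
    ∑ a : Fin k → G, pk σ a * (∑ i, (f (a i) - ∑ v, σ v * f v)) ^ (2 * m) ≤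
      (∑ v, σ v * f v) * (22 * m * k) ^ m := by
  set μ := ∑ v, σ v * f v with hμ
  have hμ0 : 0 ≤ μ := sum_nonneg fun v _ => mul_nonneg (h.1 v) (hf v).1
  have hμ1 : μ ≤ 1 := by
    rw [hμ, ← h.2]
    exact sum_le_sum fun v _ => mul_le_of_le_one_right (h.1 v) (hf v).2
  have hmR : (1 : ℝ) ≤ m := by exact_mod_cast hm
  have hmkR : (m : ℝ) ≤ k := by exact_mod_cast hmk
  have hkR : (1 : ℝ) ≤ k := hmR.trans hmkR
  have hk0 : (0 : ℝ) < k := by linarith
  have hm0 : (0 : ℝ) < m := by linarith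
  set t : ℝ := √(m / k) with ht
  have ht0 : 0 ≤ t := Real.sqrt_nonneg _
  have ht2 : t ^ 2 = m / k := Real.sq_sqrt (by positivity)
  have ht1 : |t| ≤ 1 := by
    rw [abs_of_nonneg ht0, ht]
    apply Real.sqrt_le_one.2
    rw [div_le_one hk0]
    exact hmkR
  have e1 := exp_many σ h f hf t ht1 k
  have e2 := exp_many σ h f hf (-t) (by rwa [abs_neg]) k
  rw [neg_sq] at e2
  rw [← hμ] at e1 e2
  have e3 : (k : ℝ) * (t ^ 2 * μ) = m * μ := by
    rw [ht2]; field_simp
  rw [e3] at e1 e2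
  set P := ∑ a : Fin k → G, pk σ a * (∑ i, (f (a i) - μ)) ^ (2 * m) with hP
  have e4 : (t ^ 2) ^ m / ((2 * m).factorial : ℝ) * P ≤ Real.exp (m * μ) - 1 := by
    calc (t ^ 2) ^ m / ((2 * m).factorial : ℝ) * P
        = ∑ a : Fin k → G, pk σ a *
            ((t * ∑ i, (f (a i) - μ)) ^ (2 * m) / ((2 * m).factorial : ℝ)) := by
          rw [hP, mul_sum]
          apply sum_congr rfl
          intro a _
          rw [mul_pow, ← pow_mul]; ring
      _ ≤ ∑ a : Fin k → G, pk σ a *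
            ((Real.exp (t * ∑ i, (f (a i) - μ)) + Real.exp (-(t * ∑ i, (f (a i) - μ)))) / 2 - 1) := by
          apply sum_le_sum
          intro a _
          exact mul_le_mul_of_nonneg_left (pow_le_cosh _ m hm) (pk_nonneg σ h a)
      _ = (∑ a : Fin k → G, pk σ a * Real.exp (t * ∑ i, (f (a i) - μ)) +
            ∑ a : Fin k → G, pk σ a * Real.exp (-t * ∑ i, (f (a i) - μ))) / 2 - 1 := by
          have h3 : ∀ a : Fin k → G, pk σ a *
              ((Real.exp (t * ∑ i, (f (a i) - μ)) + Real.exp (-(t * ∑ i, (f (a i) - μ)))) / 2 - 1) =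
              (1 / 2) * (pk σ a * Real.exp (t * ∑ i, (f (a i) - μ))) +
              (1 / 2) * (pk σ a * Real.exp (-t * ∑ i, (f (a i) - μ))) - pk σ a := by
            intro a
            rw [neg_mul]
            ring
          simp_rw [h3]
          rw [sum_sub_distrib, sum_add_distrib, ← mul_sum, ← mul_sum, sum_pk σ h]
          ring
      _ ≤ Real.exp (m * μ) - 1 := by linarith
  have e5 : Real.exp (m * μ) - 1 ≤ m * μ * Real.exp 1 ^ m := by
    have h6 := Real.add_one_le_exp (-(m * μ))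
    have h7 : Real.exp (m * μ) - 1 ≤ m * μ * Real.exp (m * μ) := by
      have h8 := mul_le_mul_of_nonneg_right h6 (Real.exp_pos (m * μ)).le
      rw [← Real.exp_add] at h8
      simp only [neg_add_cancel, Real.exp_zero] at h8
      linarith
    refine h7.trans (mul_le_mul_of_nonneg_left ?_ (by positivity))
    rw [← Real.exp_nat_mul]
    apply Real.exp_le_exp.2
    nlinarith
  have hfact : 2 * ((2 * m).factorial : ℝ) ≤ (2 * m : ℝ) ^ (2 * m) := by
    exact_mod_cast two_fact (2 * m) (by omega)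
  have hfpos : (0 : ℝ) < ((2 * m).factorial : ℝ) := by exact_mod_cast Nat.factorial_pos _
  have htpos : 0 < (t ^ 2) ^ m := by rw [ht2]; positivity
  have he : Real.exp 1 ≤ 2.72 := by linarith [Real.exp_one_lt_d9]
  have e6 : (t ^ 2) ^ m * P ≤ ((2 * m).factorial : ℝ) * (m * μ * Real.exp 1 ^ m) := by
    have h1 : (t ^ 2) ^ m * P = ((2 * m).factorial : ℝ) * ((t ^ 2) ^ m / ((2 * m).factorial : ℝ) * P) := by
      field_simp
    rw [h1]
    exact mul_le_mul_of_nonneg_left (e4.trans e5) hfpos.le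
  have e7 : ((2 * m).factorial : ℝ) * (m * μ * Real.exp 1 ^ m) ≤ (t ^ 2) ^ m * (μ * (22 * m * k) ^ m) := by
    have h2m : (m : ℝ) ≤ 2 ^ m := by
      have := Nat.lt_two_pow_self (n := m)
      exact_mod_cast this.le
    have h2 : (2 * m : ℝ) ^ (2 * m) = (t ^ 2) ^ m * (4 * m * k) ^ m := by
      rw [pow_mul, ← mul_pow, ht2]
      congr 1
      field_simp
      ring
    have h3 : (4 * m * k : ℝ) ^ m * (2 ^ m * Real.exp 1 ^ m) ≤ (22 * m * k) ^ m := by
      rw [← mul_pow, ← mul_pow]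
      apply pow_le_pow_left₀ (by positivity)
      have : 0 ≤ (m : ℝ) * k := by positivity
      nlinarith
    calc ((2 * m).factorial : ℝ) * (m * μ * Real.exp 1 ^ m)
        = (2 * ((2 * m).factorial : ℝ)) * (m * μ * Real.exp 1 ^ m) / 2 := by ring
      _ ≤ (2 * m : ℝ) ^ (2 * m) * (m * μ * Real.exp 1 ^ m) / 2 := by gcongr
      _ ≤ (2 * m : ℝ) ^ (2 * m) * (2 ^ m * μ * Real.exp 1 ^ m) / 2 := by gcongr
      _ = (t ^ 2) ^ m * (μ * ((4 * m * k : ℝ) ^ m * (2 ^ m * Real.exp 1 ^ m))) / 2 := by rw [h2]; ring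
      _ ≤ (t ^ 2) ^ m * (μ * (22 * m * k) ^ m) / 2 := by gcongr
      _ ≤ (t ^ 2) ^ m * (μ * (22 * m * k) ^ m) := by
        have : 0 ≤ (t ^ 2) ^ m * (μ * (22 * m * k : ℝ) ^ m) := by positivity
        linarith
  exact le_of_mul_le_mul_left (e6.trans e7) htpos

end

end Pool.Agent.J4.H30.CD
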