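import Pool.Agent.J4.H30.CD.Fou2
import Pool.Agent.N142.CD.LCH
import Pool.Agent.N142.CD.RAD

/-!
# Bohr sets in `2A - 2A` (helper30): the large set of almost periods
-/

set_option autoImplicit false
set_option linter.unusedSectionVars false
set_option linter.unusedVariables false

namespace Pool.Agent.J4.H30.CD

open Finset Pool.Agent.N142.CD Pool.Agent.N142.CD.FOU Pool.Agent.TH858
open scoped Pointwise

/-- **the almost periods**: every `y` at which the characters of the spectrum of `T` are close to `1` lies in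
`W - S - V` -/
theorem periods (ε : ℝ) (hε : 0 < ε) : ∃ C : ℝ, 1 ≤ C ∧
    ∀ (N : ℕ) [NeZero N] (V S W Y Z : Finset (ZMod N)) (κ h : ℝ) (m : ℕ),
    V.Nonempty → S.Nonempty → Y.Nonempty → V + S ⊆ W → (W.card : ℝ) ≤ κ * V.card → 1 ≤ κ →
    1 ≤ m → 2 * κ ≤ Real.exp m → 1 ≤ h →
    ((S + Y).card : ℝ) ≤ Real.exp h * S.card →
    (Z.card : ℝ) ≤ Real.exp h * S.card →
    (∀ n : ℕ, n ≤ 4 * m → ∀ r ∈ ds Y n, r ∈ W - V - S → ∀ s ∈ S, s + r ∈ Z) →
    ∃ T : Finset (ZMod N), T ⊆ Y ∧ T.Nonempty ∧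
      (Y.card : ℝ) ≤ Real.exp (C * (h * (m : ℝ) ^ (2 + ε))) * T.card ∧
      ∀ T' : Finset (ZMod N), T' ⊆ T → T'.Nonempty → ∀ y : ZMod N,
        (∀ γ : ZMod N, (T'.card : ℝ) / 2 ≤ ‖∑ t ∈ T', ψ (γ * t)‖ → ‖ψ (γ * y) - 1‖ ≤ 1 / 4) →
        ∃ v ∈ V, ∃ s ∈ S, ∃ w ∈ W, y = w - s - v := by
  obtain ⟨C, hC, hstg⟩ := stg_all ε hε (1 / 8) (by norm_num) (by norm_num)
  have h4 : (1 : ℝ) ≤ 4 ^ (1 + ε) := Real.one_le_rpow (by norm_num) (by linarith)
  refine ⟨C * 4 ^ (1 + ε), by nlinarith, ?_⟩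
  intro N _ V S W Y Z κ h m hV hS hY hVS hW hκ hm hm2 hh hSY hZ hQ
  obtain ⟨T, hTY, hT, hTc, hper⟩ := hstg (ZMod N) V S W Y Z κ h m (4 * m) hV hS hY hVS hW hκ hm hm2 hh hSY hZ hQ
    (4 * m) (by omega) le_rfl
  have hm1 : (1 : ℝ) ≤ m := by exact_mod_cast hm
  have hm0 : (0 : ℝ) < m := by linarith
  refine ⟨T, hTY, hT, ?_, ?_⟩
  · refine hTc.trans (le_of_eq ?_)
    congr 2
    push_cast
    rw [Real.mul_rpow (by norm_num) hm0.le]
    have h1 : (m : ℝ) ^ (2 + ε) = m * (m : ℝ) ^ (1 + ε) := by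
      rw [show (2 + ε : ℝ) = 1 + (1 + ε) by ring, Real.rpow_add hm0, Real.rpow_one]
    rw [h1]
    ring
  · intro T' hT'T hT' y hy
    have hV0 : (0 : ℝ) < V.card := by exact_mod_cast hV.card_pos
    have h2κ : (2 * κ) ^ 4 ≤ Real.exp m ^ 4 := pow_le_pow_left₀ (by linarith) hm2 4
    have hκ4 : κ ≤ κ ^ 4 := le_self_pow₀ hκ (by norm_num)
    have hκ4' : κ * κ ≤ κ ^ 4 := by
      calc κ * κ = κ ^ 2 := by ring
        _ ≤ κ ^ 4 := pow_le_pow_right₀ hκ (by norm_num)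
    refine fou2 V S W T' κ (1 / 8 * W.card * Real.exp (-(4 * m))) (2 * m) hV hS hT' hVS hκ hW ?_ ?_ ?_ y hy
    · have he4 : Real.exp 1 ≤ 4 := by linarith [Real.exp_one_lt_d9]
      calc 16 * κ ≤ (2 * κ) ^ 4 := by linarith
        _ ≤ Real.exp m ^ 4 := h2κ
        _ = (Real.exp 1) ^ (2 * (2 * m)) := by
            rw [← Real.exp_nat_mul, ← Real.exp_nat_mul]
            congr 1
            push_cast
            ring
        _ ≤ 4 ^ (2 * (2 * m)) := pow_le_pow_left₀ (Real.exp_pos _).le he4 _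
    · have h3 : Real.exp (-(4 * (m : ℝ))) = 1 / Real.exp m ^ 4 := by
        rw [← Real.exp_nat_mul, one_div, ← Real.exp_neg]
        norm_num
      rw [h3]
      have h5 : 128 * κ * (1 / 8 * W.card * (1 / Real.exp m ^ 4)) = (16 * κ * W.card) / Real.exp m ^ 4 := by
        ring
      rw [h5, div_le_iff₀ (by positivity)]
      calc 16 * κ * (W.card : ℝ) ≤ 16 * κ * (κ * V.card) := by gcongr
        _ = V.card * (16 * (κ * κ)) := by ring
        _ ≤ V.card * (16 * κ ^ 4) := by gcongr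
        _ = V.card * (2 * κ) ^ 4 := by ring
        _ ≤ V.card * Real.exp m ^ 4 := by gcongr
    · intro r hr
      exact hper r (ds_subset T T' hT'T _ (by
        have : 2 * (2 * m) = 4 * m := by ring
        rwa [this] at hr))

/-- Chang's theorem and the passage to a Bohr set of large radius -/
theorem chang_bohr (N : ℕ) [NeZero N] (T : Finset (ZMod N)) (hT : T.Nonempty) (n R J : ℕ)
    (hn : 8 * Real.log (4 * N / T.card) ≤ n) (hR : 2 ≤ R) (hJ : 4 * Real.pi * n ≤ (R : ℝ) ^ (J + 1)) :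
    ∃ Γ : Finset (ZMod N), (Γ.card : ℝ) ≤ n * (J + 1) ∧ ∀ y : ZMod N, (∀ g ∈ Γ, CB.nn (g * y) ≤ 1 / (4 * R)) →
      ∀ γ : ZMod N, (T.card : ℝ) / 2 ≤ ‖∑ t ∈ T, ψ (γ * t)‖ → ‖ψ (γ * y) - 1‖ ≤ 1 / 4 := by
  classical
  obtain ⟨Λ, hΛn, hΛ⟩ := t_LCH N T univ univ univ 0 (n + 1) n hT ⟨0, mem_univ _⟩ (fun _ _ => mem_univ _)
    (fun _ _ => mem_univ _) (fun _ _ _ _ => mem_univ _) (by
      have : (0 : ℝ) ≤ (univ : Finset (ZMod N)).card := Nat.cast_nonneg _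
      linarith) (by rw [card_univ, ZMod.card]; exact hn) le_rfl
  refine ⟨(Λ ×ˢ range (J + 1)).image fun p => ((R ^ p.2 : ℕ) : ZMod N) * p.1, ?_, ?_⟩
  · have : ((Λ ×ˢ range (J + 1)).image fun p => ((R ^ p.2 : ℕ) : ZMod N) * p.1).card ≤ n * (J + 1) := by
      refine card_image_le.trans ?_
      rw [card_product, card_range]
      exact Nat.mul_le_mul_right _ hΛn
    exact_mod_cast this
  · intro y hy γ hγ
    obtain ⟨e, he, hδ⟩ := hΛ γ hγ
    have hδ0 : γ - ∑ z ∈ Λ, (e z : ZMod N) * z = 0 := by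
      by_contra hne
      have h1 : ∑ s : ZMod N, ψ ((γ - ∑ z ∈ Λ, (e z : ZMod N) * z) * s) = 0 := by
        have h2 := ortho (γ - ∑ z ∈ Λ, (e z : ZMod N) * z)
        rw [if_neg hne] at h2
        simp_rw [mul_comm _ (γ - ∑ z ∈ Λ, (e z : ZMod N) * z)] at h2
        exact h2
      rw [h1, norm_zero] at hδ
      have : (0 : ℝ) < (univ : Finset (ZMod N)).card := by
        rw [card_univ, ZMod.card]
        exact_mod_cast NeZero.pos N
      linarith
    have hγ' : γ = ∑ z ∈ Λ, (e z : ZMod N) * z := sub_eq_zero.1 hδ0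
    have h3 : ‖ψ ((∑ z ∈ Λ, (e z : ZMod N) * z) * y) - 1‖ ≤ 1 / (8 * 1) := by
      refine bohr_small Λ R J hR 1 le_rfl ?_ y ?_ e he
      · refine le_trans ?_ hJ
        have h4 : (Λ.card : ℝ) ≤ n := by exact_mod_cast hΛn
        have := Real.pi_pos
        calc 4 * Real.pi * 1 * Λ.card ≤ 4 * Real.pi * 1 * n := by gcongr
          _ = 4 * Real.pi * n := by ring
      · intro z hz i hi
        exact hy _ (mem_image.2 ⟨(z, i), mem_product.2 ⟨hz, mem_range.2 hi⟩, rfl⟩)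
    rw [hγ']
    refine h3.trans ?_
    norm_num

end Pool.Agent.J4.H30.CD
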