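import Pool.Agent.J4.H30.CD.Per

/-!
# Bohr sets in `K A - K A` (helper30)
-/

set_option autoImplicit false
set_option linter.unusedSectionVars false
set_option linter.unusedVariables false

namespace Pool.Agent.J4.H30.CD

open Finset Pool.Agent.N142.CD Pool.Agent.N142.CD.FOU Pool.Agent.TH858
open scoped Pointwise

/-- the sumset `(j + 1) A` -/
def it {G : Type} [AddCommGroup G] [DecidableEq G] (A : Finset G) : ℕ → Finset G
  | 0 => A
  | j + 1 => it A j + A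

theorem it_nonempty {G : Type} [AddCommGroup G] [DecidableEq G] (A : Finset G) (hA : A.Nonempty) (j : ℕ) :
    (it A j).Nonempty := by
  induction j with
  | zero => exact hA
  | succ j ih => exact ih.add hA

theorem r1 (ε : ℝ) (hε : 0 < ε) : ∃ C : ℝ, 1 ≤ C ∧
    ∀ (N : ℕ) [NeZero N] (A : Finset (ZMod N)), A.Nonempty → (A.card : ℝ) / N ≤ 1 / 2 → ∀ K : ℕ, 2 ≤ K →
    ∃ (Γ : Finset (ZMod N)) (R : ℕ), 1 ≤ R ∧
      (Γ.card : ℝ) ≤ C * (Real.log (N / A.card) * (1 + Real.log (N / A.card) / K) ^ (2 + ε)) ∧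
      (R : ℝ) ≤ C * Real.log (N / A.card) ∧
      ∀ y : ZMod N, (∀ g ∈ Γ, CB.nn (g * y) ≤ 1 / (4 * R)) →
        ∃ j : ℕ, j + 1 ≤ K ∧ ∃ w ∈ it A j, ∃ w' ∈ it A j, y = w - w' := by
  classical
  obtain ⟨C₁, hC₁, hper⟩ := periods ε hε
  have h2ε : (1 : ℝ) ≤ 2 ^ (2 + ε) := Real.one_le_rpow (by norm_num) (by linarith)
  obtain ⟨C₂, hC₂⟩ : ∃ C₂ : ℝ, C₂ = 33 + 16 * C₁ * 2 ^ (2 + ε) := ⟨_, rfl⟩
  have hC₂1 : 33 ≤ C₂ := by
    rw [hC₂]
    have : 0 ≤ 16 * C₁ * 2 ^ (2 + ε) := by positivity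
    linarith
  obtain ⟨q, hq⟩ : ∃ q : ℕ, q = ⌈ε⌉₊ + 3 := ⟨_, rfl⟩
  have hqε : ε + 3 ≤ q := by
    rw [hq]
    push_cast
    linarith [Nat.le_ceil ε]
  refine ⟨C₂ * q + 32 * C₂ + 2, by nlinarith, ?_⟩
  intro N _ A hA hα K hK
  have hAc : (0 : ℝ) < A.card := by exact_mod_cast hA.card_pos
  have hNpos : (0 : ℝ) < N := by exact_mod_cast NeZero.pos N
  obtain ⟨x, hx⟩ : ∃ x : ℝ, x = Real.log (N / A.card) := ⟨_, rfl⟩
  rw [← hx]
  have hlog2 := Real.log_two_gt_d9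
  have hlog2' := Real.log_two_lt_d9
  have hx2 : Real.log 2 ≤ x := by
    rw [hx]
    apply Real.log_le_log (by norm_num)
    rw [div_le_iff₀ hNpos] at hα
    rw [le_div_iff₀ hAc]
    linarith
  have hx0 : 0 < x := by linarith
  have hexp : Real.exp x = N / A.card := by rw [hx, Real.exp_log (by positivity)]
  have hcardle : ∀ B : Finset (ZMod N), (B.card : ℝ) ≤ N := by
    intro B
    have := card_le_univ B
    rw [ZMod.card] at this
    exact_mod_cast this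
  have hNA : (N : ℝ) ≤ Real.exp (2 * x) * A.card := by
    have h1 : (N : ℝ) = Real.exp x * A.card := by rw [hexp, div_mul_cancel₀ _ hAc.ne']
    have h2 : Real.exp x ≤ Real.exp (2 * x) := Real.exp_le_exp.2 (by linarith)
    calc (N : ℝ) = Real.exp x * A.card := h1
      _ ≤ Real.exp (2 * x) * A.card := mul_le_mul_of_nonneg_right h2 hAc.le
  -- the pigeonhole
  have hK1 : (0 : ℝ) < ((K - 1 : ℕ) : ℝ) := by exact_mod_cast (by omega : 0 < K - 1)
  have hK2 : (K : ℝ) ≤ 2 * ((K - 1 : ℕ) : ℝ) := by exact_mod_cast (by omega : K ≤ 2 * (K - 1))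
  have hK0 : (0 : ℝ) < K := by exact_mod_cast (by omega : 0 < K)
  obtain ⟨i, hi, hEi⟩ := pigeon_En (fun j => Real.log (it A j).card) (K - 1) (by omega) x (by
    have h1 : Real.log (it A (K - 1)).card ≤ Real.log N :=
      Real.log_le_log (by exact_mod_cast (it_nonempty A hA _).card_pos) (hcardle _)
    have h2 : x = Real.log N - Real.log A.card := by rw [hx, Real.log_div hNpos.ne' hAc.ne']
    show Real.log (it A (K - 1)).card - Real.log A.card ≤ x
    linarith)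
  obtain ⟨V, hV⟩ : ∃ V, V = it A i := ⟨_, rfl⟩
  obtain ⟨W, hW⟩ : ∃ W, W = it A (i + 1) := ⟨_, rfl⟩
  have hVne : V.Nonempty := by rw [hV]; exact it_nonempty A hA i
  have hWne : W.Nonempty := by rw [hW]; exact it_nonempty A hA _
  have hVc : (0 : ℝ) < V.card := by exact_mod_cast hVne.card_pos
  have hWc : (0 : ℝ) < W.card := by exact_mod_cast hWne.card_pos
  obtain ⟨κ, hκ⟩ : ∃ κ : ℝ, κ = Real.exp (x / ((K - 1 : ℕ) : ℝ)) := ⟨_, rfl⟩
  have hxK0 : 0 ≤ x / ((K - 1 : ℕ) : ℝ) := by positivity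
  have hκ1 : 1 ≤ κ := by rw [hκ]; exact Real.one_le_exp hxK0
  have hWκ : (W.card : ℝ) ≤ κ * V.card := by
    have h1 : Real.log W.card ≤ Real.log (κ * V.card) := by
      rw [Real.log_mul (by linarith) hVc.ne', hκ, Real.log_exp, hW, hV]
      linarith
    exact (Real.log_le_log_iff hWc (by positivity)).1 h1
  have hxK : x / ((K - 1 : ℕ) : ℝ) ≤ 2 * (x / K) := by
    rw [mul_div_assoc', div_le_div_iff₀ hK1 hK0]
    nlinarith
  obtain ⟨m, hm⟩ : ∃ m : ℕ, m = ⌈Real.log 2 + x / ((K - 1 : ℕ) : ℝ)⌉₊ := ⟨_, rfl⟩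
  have hmpos : 0 < Real.log 2 + x / ((K - 1 : ℕ) : ℝ) := by linarith
  have hm1 : 1 ≤ m := by rw [hm]; exact Nat.ceil_pos.2 hmpos
  have hm2 : 2 * κ ≤ Real.exp m := by
    have h1 := Nat.le_ceil (Real.log 2 + x / ((K - 1 : ℕ) : ℝ))
    rw [← hm] at h1
    calc 2 * κ = Real.exp (Real.log 2 + x / ((K - 1 : ℕ) : ℝ)) := by
          rw [Real.exp_add, Real.exp_log (by norm_num), hκ]
      _ ≤ Real.exp m := Real.exp_le_exp.2 h1
  have hmle : (m : ℝ) ≤ 2 * (1 + x / K) := by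
    have h1 := (Nat.ceil_lt_add_one hmpos.le).le
    rw [← hm] at h1
    linarith
  obtain ⟨T, hTA, hT, hTc, hTper⟩ := hper N V A W A univ κ (2 * x) m hVne hA hA
    (by rw [hV, hW]; exact Subset.refl _) hWκ hκ1 hm1 hm2 (by linarith) ((hcardle _).trans hNA)
    ((hcardle _).trans hNA) (fun _ _ _ _ _ _ _ => mem_univ _)
  have hTpos : (0 : ℝ) < T.card := by exact_mod_cast hT.card_pos
  obtain ⟨X, hX⟩ : ∃ X : ℝ, X = (1 + x / K) ^ (2 + ε) := ⟨_, rfl⟩
  rw [← hX]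
  have hxK1 : 1 ≤ 1 + x / K := by
    have : 0 ≤ x / K := by positivity
    linarith
  have hX1 : 1 ≤ X := by rw [hX]; exact Real.one_le_rpow hxK1 (by linarith)
  have hmX : (m : ℝ) ^ (2 + ε) ≤ 2 ^ (2 + ε) * X := by
    rw [hX, ← Real.mul_rpow (by norm_num) (by linarith)]
    exact Real.rpow_le_rpow (Nat.cast_nonneg _) hmle (by linarith)
  have hlogT : Real.log (4 * N / T.card) ≤ 2 + x + C₁ * (2 * x * (2 ^ (2 + ε) * X)) := by
    have h1 : Real.log A.card ≤ C₁ * (2 * x * (m : ℝ) ^ (2 + ε)) + Real.log T.card := by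
      have h2 := Real.log_le_log hAc hTc
      rw [Real.log_mul (Real.exp_pos _).ne' hTpos.ne', Real.log_exp] at h2
      exact h2
    have h3 : Real.log (4 * N / T.card) = Real.log 4 + Real.log N - Real.log T.card := by
      rw [Real.log_div (by positivity) hTpos.ne', Real.log_mul (by norm_num) hNpos.ne']
    have h4 : x = Real.log N - Real.log A.card := by rw [hx, Real.log_div hNpos.ne' hAc.ne']
    have h5 : Real.log 4 ≤ 2 := by
      rw [show (4 : ℝ) = 2 ^ 2 by norm_num, Real.log_pow]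
      push_cast
      linarith
    have h6 : C₁ * (2 * x * (m : ℝ) ^ (2 + ε)) ≤ C₁ * (2 * x * (2 ^ (2 + ε) * X)) := by gcongr
    linarith
  obtain ⟨n, hn⟩ : ∃ n : ℕ, n = ⌈8 * (2 + x + C₁ * (2 * x * (2 ^ (2 + ε) * X)))⌉₊ := ⟨_, rfl⟩
  have hn1 : 8 * Real.log (4 * N / T.card) ≤ n := by
    have := Nat.le_ceil (8 * (2 + x + C₁ * (2 * x * (2 ^ (2 + ε) * X))))
    rw [← hn] at this
    linarith
  have hxX : x ≤ x * X := by nlinarith
  have hn2 : (n : ℝ) ≤ C₂ * (x * X) := by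
    have h1 := (Nat.ceil_lt_add_one
      (by positivity : 0 ≤ 8 * (2 + x + C₁ * (2 * x * (2 ^ (2 + ε) * X))))).le
    rw [← hn] at h1
    rw [hC₂]
    have h2 : (17 : ℝ) ≤ 25 * (x * X) := by nlinarith
    have h3 : 8 * (C₁ * (2 * x * (2 ^ (2 + ε) * X))) = 16 * C₁ * 2 ^ (2 + ε) * (x * X) := by ring
    linarith
  obtain ⟨R, hR⟩ : ∃ R : ℕ, R = ⌈4 * Real.pi * C₂ * (1 + x)⌉₊ := ⟨_, rfl⟩
  have hpi := Real.pi_gt_three
  have hpi' := Real.pi_lt_d2
  have hRge : 4 * Real.pi * C₂ * (1 + x) ≤ R := by rw [hR]; exact Nat.le_ceil _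
  have h4pC : 1 ≤ 4 * Real.pi * C₂ := by nlinarith
  have hR2 : 2 ≤ R := by
    have : (2 : ℝ) ≤ R := by nlinarith
    exact_mod_cast this
  have hRle : (R : ℝ) ≤ (32 * C₂ + 2) * x := by
    have h1 := (Nat.ceil_lt_add_one (by positivity : 0 ≤ 4 * Real.pi * C₂ * (1 + x))).le
    rw [← hR] at h1
    have h2 : 1 + x ≤ 2.5 * x := by linarith
    have h3 : 4 * Real.pi * C₂ * (1 + x) ≤ 4 * 3.15 * C₂ * (2.5 * x) := by gcongr
    nlinarith
  obtain ⟨Γ, hΓ1, hΓ2⟩ := chang_bohr N T hT n R (q - 1) hn1 hR2 (by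
    have hq1 : q - 1 + 1 = q := by omega
    rw [hq1]
    have h1 : x * X ≤ (1 + x) ^ q := by
      have h2 : X ≤ (1 + x) ^ (2 + ε) := by
        rw [hX]
        apply Real.rpow_le_rpow (by linarith) _ (by linarith)
        have : x / K ≤ x := div_le_self hx0.le (by exact_mod_cast (by omega : 1 ≤ K))
        linarith
      calc x * X ≤ (1 + x) ^ (1 : ℝ) * (1 + x) ^ (2 + ε) := by
            rw [Real.rpow_one]
            gcongr
            linarith
        _ = (1 + x) ^ (1 + (2 + ε)) := (Real.rpow_add (by linarith) 1 (2 + ε)).symm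
        _ ≤ (1 + x) ^ (q : ℝ) := Real.rpow_le_rpow_of_exponent_le (by linarith) (by linarith)
        _ = (1 + x) ^ q := Real.rpow_natCast _ _
    calc 4 * Real.pi * n ≤ 4 * Real.pi * (C₂ * (x * X)) := by gcongr
      _ ≤ 4 * Real.pi * (C₂ * (1 + x) ^ q) := by gcongr
      _ = (4 * Real.pi * C₂) ^ 1 * (1 + x) ^ q := by ring
      _ ≤ (4 * Real.pi * C₂) ^ q * (1 + x) ^ q := by
          have : (4 * Real.pi * C₂) ^ 1 ≤ (4 * Real.pi * C₂) ^ q := pow_le_pow_right₀ h4pC (by omega)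
          gcongr
      _ = (4 * Real.pi * C₂ * (1 + x)) ^ q := (mul_pow (4 * Real.pi * C₂) (1 + x) q).symm
      _ ≤ (R : ℝ) ^ q := by gcongr)
  refine ⟨Γ, R, by omega, ?_, ?_, ?_⟩
  · have hq1 : ((q - 1 : ℕ) : ℝ) + 1 = q := by
      have : q - 1 + 1 = q := by omega
      exact_mod_cast this
    rw [hq1] at hΓ1
    have h1 : 0 ≤ x * X := by positivity
    calc (Γ.card : ℝ) ≤ n * q := hΓ1
      _ ≤ (C₂ * (x * X)) * q := by gcongr
      _ = (C₂ * q) * (x * X) := by ring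
      _ ≤ (C₂ * q + 32 * C₂ + 2) * (x * X) := by
          refine mul_le_mul_of_nonneg_right ?_ h1
          linarith
  · have h1 : 0 ≤ C₂ * q := by positivity
    nlinarith
  · intro y hy
    obtain ⟨v, hv, s, hs, w, hw, hy'⟩ := hTper T (Subset.refl _) hT y (hΓ2 y hy)
    refine ⟨i + 1, by omega, w, by rw [← hW]; exact hw, v + s, ?_, ?_⟩
    · rw [hV] at hv
      exact add_mem_add hv hs
    · rw [hy']
      ring

end Pool.Agent.J4.H30.CD
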