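import Pool.Agent.J4.H30.CD.Loc

/-!
# Bohr sets in `2A - 2A` (helper30): sets that are dense on a translate of a proper coset progression
-/

set_option autoImplicit false
set_option linter.unusedSectionVars false
set_option linter.unusedVariables false

namespace Pool.Agent.J4.H30.CD

open Finset Pool.Agent.N142.CD Pool.Agent.N142.CD.FOU Pool.Agent.TH858
open scoped Pointwise

section

variable {N : ℕ} [NeZero N]

/-- a set in a translate -/
theorem card_translate (B X : Finset (ZMod N)) (t : ZMod N) (h : ∀ x ∈ B, x - t ∈ X) : B.card ≤ X.card :=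
  card_le_card_of_injOn (fun x => x - t) (fun x hx => h x hx) (fun x _ y _ hxy => sub_left_injective hxy)

/-- the neighbourhood of a coset progression -/
theorem card_nbhd (H : AddSubgroup (ZMod N)) {d : ℕ} (a : Fin d → ZMod N) (L L' : Fin d → ℕ)
    (hP : ProperH H a L) (h : ∀ i, 4 * (d + 1) * L' i ≤ L i) :
    ((HP H a (fun i => L i + L' i)).card : ℝ) ≤ 2 * (HP H a L).card := by
  have h1 := (t_VOL N H d a (fun i => L i + L' i)).1
  have h2 := (t_VOL N H d a L).2 hP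
  have h3 := AS.box_double L L' h
  calc ((HP H a (fun i => L i + L' i)).card : ℝ)
      ≤ ((Nat.card H * ∏ i, (2 * (L i + L' i) + 1) : ℕ) : ℝ) := by exact_mod_cast h1
    _ = (Nat.card H : ℝ) * ((∏ i, (2 * (L i + L' i) + 1) : ℕ) : ℝ) := by push_cast; ring
    _ ≤ (Nat.card H : ℝ) * (2 * ((∏ i, (2 * L i + 1) : ℕ) : ℝ)) := by gcongr
    _ = 2 * ((Nat.card H * ∏ i, (2 * L i + 1) : ℕ) : ℝ) := by push_cast; ring
    _ = 2 * (HP H a L).card := by rw [h2]

theorem HP_mono (H : AddSubgroup (ZMod N)) {d : ℕ} (a : Fin d → ZMod N) (L L' : Fin d → ℕ)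
    (h : ∀ i, L i ≤ L' i) : HP H a L ⊆ HP H a L' := by
  intro x hx
  rw [mem_HP] at hx ⊢
  obtain ⟨m, hm, h'⟩ := hx
  exact ⟨m, fun i => (hm i).trans (by exact_mod_cast h i), h'⟩

theorem ds_HP (H : AddSubgroup (ZMod N)) {d : ℕ} (a : Fin d → ZMod N) (L : Fin d → ℕ) (n : ℕ) (r : ZMod N)
    (hr : r ∈ ds (HP H a L) n) : r ∈ HP H a (fun i => 2 * n * L i) := by
  induction n generalizing r with
  | zero =>
    have : r = 0 := by simpa [ds] using hr
    subst this
    exact AS.zero_mem_HP H a _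
  | succ n ih =>
    unfold ds at hr
    obtain ⟨r', hr', q, hq, rfl⟩ := mem_add.1 hr
    obtain ⟨s, hs, s', hs', rfl⟩ := mem_sub.1 hq
    have h1 := AS.add_mem_HP H a _ L _ _ (ih r' hr') hs
    have h2 := AS.add_mem_HP H a _ L _ _ h1 (AS.neg_mem_HP H a L s' hs')
    have h3 : (fun i => 2 * n * L i + L i + L i) = fun i => 2 * (n + 1) * L i := by
      funext i; ring
    rw [h3] at h2
    have h4 : r' + s + -s' = r' + (s - s') := by ring
    rwa [h4] at h2

/-- a dense piece -/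
theorem dense_piece (V P' U : Finset (ZMod N)) (t : ZMod N) (hV : V.Nonempty) (hP' : P'.Nonempty)
    (h : ∀ v ∈ V, ∀ p ∈ P', v - p - t ∈ U) :
    ∃ x : ZMod N, V.card * P'.card ≤ U.card * (V.filter fun v => v - x ∈ P').card := by
  classical
  by_contra hcon
  push Not at hcon
  have h1 : ∀ p ∈ V ×ˢ P', p.1 - p.2 ∈ U.image fun u => u + t := by
    intro p hp
    rw [mem_product] at hp
    exact mem_image.2 ⟨p.1 - p.2 - t, h _ hp.1 _ hp.2, by ring⟩
  have h2 := card_eq_sum_card_fiberwise (f := fun p : ZMod N × ZMod N => p.1 - p.2) (s := V ×ˢ P')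
    (t := U.image fun u => u + t) h1
  have h3 : ∀ x ∈ U.image fun u => u + t, ((V ×ˢ P').filter fun p => p.1 - p.2 = x).card ≤
      (V.filter fun v => v - x ∈ P').card := by
    intro x _
    refine card_le_card_of_injOn (fun p => p.1) ?_ ?_
    · intro p hp
      rw [mem_coe, mem_filter, mem_product] at hp
      rw [mem_coe, mem_filter]
      refine ⟨hp.1.1, ?_⟩
      have : p.1 - x = p.2 := by rw [← hp.2]; ring
      rw [this]
      exact hp.1.2
    · intro p hp q hq hpq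
      rw [mem_coe, mem_filter, mem_product] at hp hq
      have h4 : p.1 = q.1 := hpq
      have h5 : p.2 = q.2 := by
        have h6 := hp.2.trans hq.2.symm
        rw [h4] at h6
        exact sub_right_injective h6
      exact Prod.ext h4 h5
  have hUim : (U.image fun u => u + t).Nonempty := by
    obtain ⟨v, hv⟩ := hV
    obtain ⟨p, hp⟩ := hP'
    exact ⟨_, h1 (v, p) (mem_product.2 ⟨hv, hp⟩)⟩
  have hUc : 0 < U.card := by
    rcases Nat.eq_zero_or_pos U.card with h0 | h0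
    · rw [card_eq_zero] at h0
      rw [h0] at hUim
      simp at hUim
    · exact h0
  have h4 : (V ×ˢ P').card * U.card < (U.image fun u => u + t).card * (V.card * P'.card) := by
    rw [h2, sum_mul]
    calc ∑ x ∈ U.image fun u => u + t, ((V ×ˢ P').filter fun p => p.1 - p.2 = x).card * U.card
        ≤ ∑ x ∈ U.image fun u => u + t, (V.filter fun v => v - x ∈ P').card * U.card :=
          sum_le_sum fun x hx => Nat.mul_le_mul_right _ (h3 x hx)
      _ < ∑ _x ∈ U.image fun u => u + t, V.card * P'.card :=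
          sum_lt_sum_of_nonempty hUim fun x _ => by rw [mul_comm]; exact hcon x
      _ = _ := by rw [sum_const, smul_eq_mul]
  rw [card_product] at h4
  have h5 : (U.image fun u => u + t).card ≤ U.card := card_image_le
  have h6 : (U.image fun u => u + t).card * (V.card * P'.card) ≤ U.card * (V.card * P'.card) :=
    Nat.mul_le_mul_right _ h5
  rw [mul_comm (V.card * P'.card)] at h4
  omega

end

/-- **sets that are dense on a translate of a proper coset progression** -/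
theorem r2 (ε : ℝ) (hε : 0 < ε) : ∃ C : ℝ, 1 ≤ C ∧
    ∀ (N : ℕ) [NeZero N] (A : Finset (ZMod N)) (H : AddSubgroup (ZMod N)) (d : ℕ) (a : Fin d → ZMod N)
      (L : Fin d → ℕ) (t : ZMod N) (δ : ℝ) (R : ℕ), ProperH H a L → 0 < δ →
      δ * (HP H a L).card ≤ (A.filter fun x => x - t ∈ HP H a L).card →
      C * (d + Real.log (4 / δ)) ≤ R →
      ∃ Γ : Finset (ZMod N), (Γ.card : ℝ) ≤
        C * (d + Real.log (4 / δ) ^ (3 + ε) + Real.log (N / (HP H a L).card) / Real.log R) ∧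
        ∀ y : ZMod N, (∀ g ∈ Γ, CB.nn (g * y) ≤ 1 / (8 * R)) →
          ∃ a₁ ∈ A, ∃ a₂ ∈ A, ∃ a₃ ∈ A, ∃ a₄ ∈ A, y = a₁ + a₂ - a₃ - a₄ := by
  classical
  obtain ⟨C₁, hC₁, hper⟩ := periods ε hε
  obtain ⟨c, hc⟩ : ∃ c : ℝ, c = (2 : ℝ) ^ (2 + ε) := ⟨_, rfl⟩
  have hc1 : 1 ≤ c := by rw [hc]; exact Real.one_le_rpow (by norm_num) (by linarith)
  obtain ⟨C₂, hC₂⟩ : ∃ C₂ : ℝ, C₂ = 8 * (2 + C₁ * c) + 2 := ⟨_, rfl⟩
  have hC₂1 : 26 ≤ C₂ := by rw [hC₂]; nlinarith
  obtain ⟨p, hp⟩ : ∃ p : ℕ, p = ⌈ε⌉₊ + 3 := ⟨_, rfl⟩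
  have hpε : 3 + ε ≤ p := by
    rw [hp]
    push_cast
    linarith [Nat.le_ceil ε]
  have hp1 : 1 ≤ p := by omega
  have hp1R : (1 : ℝ) ≤ p := by exact_mod_cast hp1
  obtain ⟨C₃, hC₃⟩ : ∃ C₃ : ℝ, C₃ = Real.log (32768 * C₂) + 1 + 4 + (3 + ε) := ⟨_, rfl⟩
  have hC₃0 : 0 ≤ C₃ := by
    rw [hC₃]
    have : 0 ≤ Real.log (32768 * C₂) := Real.log_nonneg (by linarith)
    linarith
  refine ⟨13 * C₂ + C₂ * p + 180 + 5 * C₃, by nlinarith, ?_⟩
  intro N _ A H d a L t δ R hP hδ hA hR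
  obtain ⟨P, hPdef⟩ : ∃ P, P = HP H a L := ⟨_, rfl⟩
  rw [← hPdef] at hA ⊢
  obtain ⟨V, hV⟩ : ∃ V, V = A.filter fun x => x - t ∈ P := ⟨_, rfl⟩
  rw [← hV] at hA
  have hVA : V ⊆ A := by rw [hV]; exact filter_subset _ _
  have hVP : ∀ v ∈ V, v - t ∈ P := fun v hv => by rw [hV] at hv; exact (mem_filter.1 hv).2
  have hPne : P.Nonempty := ⟨0, by rw [hPdef]; exact AS.zero_mem_HP H a L⟩
  have hPc : (0 : ℝ) < P.card := by exact_mod_cast hPne.card_pos
  have hVc : (0 : ℝ) < V.card := lt_of_lt_of_le (by positivity) hA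
  have hVne : V.Nonempty := by
    rw [← card_pos]
    exact_mod_cast hVc
  have hδ1 : δ ≤ 1 := by
    have h1 : (V.card : ℝ) ≤ P.card := by exact_mod_cast card_translate V P t hVP
    have h2 : δ * P.card ≤ 1 * P.card := by linarith
    exact le_of_mul_le_mul_right h2 hPc
  obtain ⟨l, hl⟩ : ∃ l : ℝ, l = Real.log (4 / δ) := ⟨_, rfl⟩
  rw [← hl] at hR ⊢
  have hlog2 := Real.log_two_gt_d9
  have hlog2' := Real.log_two_lt_d9
  have h4δ : 4 ≤ 4 / δ := by rw [le_div_iff₀ hδ]; linarith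
  have hlog4 : Real.log 4 = 2 * Real.log 2 := by
    rw [show (4 : ℝ) = 2 ^ 2 by norm_num, Real.log_pow]; norm_num
  have hl1 : 1 ≤ l := by
    have h1 : Real.log 4 ≤ l := by rw [hl]; exact Real.log_le_log (by norm_num) h4δ
    linarith
  have hl0 : 0 < l := by linarith
  have hexpl : Real.exp l = 4 / δ := by rw [hl, Real.exp_log (by positivity)]
  obtain ⟨m, hm⟩ : ∃ m : ℕ, m = ⌈l⌉₊ := ⟨_, rfl⟩
  have hm1 : 1 ≤ m := by rw [hm]; exact Nat.ceil_pos.2 hl0
  have hml : l ≤ m := by rw [hm]; exact Nat.le_ceil _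
  have hmle : (m : ℝ) ≤ 2 * l := by
    have h1 := (Nat.ceil_lt_add_one hl0.le).le
    rw [← hm] at h1
    linarith
  have hm1R : (1 : ℝ) ≤ m := by exact_mod_cast hm1
  have hm2 : 2 * (2 / δ) ≤ Real.exp m := by
    have h1 : Real.exp l ≤ Real.exp m := Real.exp_le_exp.2 hml
    rw [hexpl] at h1
    calc 2 * (2 / δ) = 4 / δ := by ring
      _ ≤ _ := h1
  -- the progressions
  obtain ⟨L', hL'⟩ : ∃ L' : Fin d → ℕ, L' = fun i => L i / (4 * (d + 1)) := ⟨_, rfl⟩
  obtain ⟨L'', hL''⟩ : ∃ L'' : Fin d → ℕ, L'' = fun i => L' i / (4 * (d + 1) * (8 * m)) := ⟨_, rfl⟩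
  have hLL' : ∀ i, 4 * (d + 1) * L' i ≤ L i := fun i => by rw [hL']; exact Nat.mul_div_le _ _
  have hLL'' : ∀ i, 4 * (d + 1) * (8 * m) * L'' i ≤ L' i := fun i => by rw [hL'']; exact Nat.mul_div_le _ _
  have hL'L : ∀ i, L' i ≤ L i := fun i => by rw [hL']; exact Nat.div_le_self _ _
  have hL''L' : ∀ i, L'' i ≤ L' i := fun i => by rw [hL'']; exact Nat.div_le_self _ _
  have hPr' : ProperH H a L' := AS.mono_HP H a L L' hL'L hP
  have hPr'' : ProperH H a L'' := AS.mono_HP H a L' L'' hL''L' hPr'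
  obtain ⟨P', hP'⟩ : ∃ P', P' = HP H a L' := ⟨_, rfl⟩
  obtain ⟨U, hU⟩ : ∃ U, U = HP H a (fun i => L i + L' i) := ⟨_, rfl⟩
  obtain ⟨Y, hY⟩ : ∃ Y, Y = HP H a L'' := ⟨_, rfl⟩
  obtain ⟨U', hU'⟩ : ∃ U', U' = HP H a (fun i => L' i + 8 * m * L'' i) := ⟨_, rfl⟩
  have hP'ne : P'.Nonempty := ⟨0, by rw [hP']; exact AS.zero_mem_HP H a _⟩
  have hYne : Y.Nonempty := ⟨0, by rw [hY]; exact AS.zero_mem_HP H a _⟩
  have hP'c : (0 : ℝ) < P'.card := by exact_mod_cast hP'ne.card_pos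
  have hUc : (U.card : ℝ) ≤ 2 * P.card := by rw [hU, hPdef]; exact card_nbhd H a L L' hP hLL'
  have hU'c : (U'.card : ℝ) ≤ 2 * P'.card := by
    rw [hU', hP']
    refine card_nbhd H a L' (fun i => 8 * m * L'' i) hPr' fun i => ?_
    have := hLL'' i
    calc 4 * (d + 1) * (8 * m * L'' i) = 4 * (d + 1) * (8 * m) * L'' i := by ring
      _ ≤ _ := this
  obtain ⟨x, hx⟩ := dense_piece V P' U t hVne hP'ne (by
    intro v hv q hq
    have h1 := hVP v hv
    rw [hPdef] at h1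
    rw [hP'] at hq
    have h2 := AS.add_mem_HP H a L L' _ _ h1 (AS.neg_mem_HP H a L' q hq)
    rw [hU]
    have h3 : v - t + -q = v - q - t := by ring
    rwa [h3] at h2)
  obtain ⟨S, hS⟩ : ∃ S, S = V.filter fun v => v - x ∈ P' := ⟨_, rfl⟩
  rw [← hS] at hx
  have hSV : S ⊆ V := by rw [hS]; exact filter_subset _ _
  have hSP : ∀ s ∈ S, s - x ∈ P' := fun s hs => by rw [hS] at hs; exact (mem_filter.1 hs).2
  have hSbig : δ / 2 * P'.card ≤ S.card := by
    have h1 : (V.card : ℝ) * P'.card ≤ U.card * S.card := by exact_mod_cast hx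
    have h2 : δ * P.card * P'.card ≤ 2 * P.card * S.card := by
      calc δ * P.card * P'.card ≤ V.card * P'.card := by gcongr
        _ ≤ U.card * S.card := h1
        _ ≤ 2 * P.card * S.card := by gcongr
    have h3 : (δ / 2 * P'.card) * (2 * P.card) ≤ S.card * (2 * P.card) := by linarith
    exact le_of_mul_le_mul_right h3 (by positivity)
  have hSc : (0 : ℝ) < S.card := lt_of_lt_of_le (by positivity) hSbig
  have hSne : S.Nonempty := by
    rw [← card_pos]
    exact_mod_cast hSc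
  have hW : (((V + S).card : ℕ) : ℝ) ≤ 2 / δ * V.card := by
    have h1 : ((V + S).card : ℝ) ≤ U.card := by
      have h2 := card_translate (V + S) U (t + x) (by
        intro w hw
        obtain ⟨v, hv, s, hs, rfl⟩ := mem_add.1 hw
        have h1 := hVP v hv
        have h2 := hSP s hs
        rw [hPdef] at h1
        rw [hP'] at h2
        have h3 := AS.add_mem_HP H a L L' _ _ h1 h2
        rw [hU]
        have h4 : v - t + (s - x) = v + s - (t + x) := by ring
        rwa [h4] at h3)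
      exact_mod_cast h2
    have h5 : 2 / δ * (δ * P.card) ≤ 2 / δ * V.card := by gcongr
    have h6 : 2 / δ * (δ * P.card) = 2 * (P.card : ℝ) := by field_simp
    linarith
  have hκ1 : 1 ≤ 2 / δ := by rw [le_div_iff₀ hδ]; linarith
  obtain ⟨Z, hZ⟩ : ∃ Z : Finset (ZMod N), Z = U'.image fun u => u + x := ⟨_, rfl⟩
  have hZc : (Z.card : ℝ) ≤ Real.exp l * S.card := by
    have h1 : (Z.card : ℝ) ≤ U'.card := by rw [hZ]; exact_mod_cast card_image_le
    have h2 : Real.exp l * S.card = 4 / δ * S.card := by rw [hexpl]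
    rw [h2]
    have h3 : 4 / δ * (δ / 2 * P'.card) ≤ 4 / δ * S.card := by gcongr
    have h4 : 4 / δ * (δ / 2 * P'.card) = 2 * (P'.card : ℝ) := by field_simp; norm_num
    linarith
  have hSYZ : S + Y ⊆ Z := by
    intro w hw
    obtain ⟨s, hs, y, hy, rfl⟩ := mem_add.1 hw
    have h1 := hSP s hs
    rw [hP'] at h1
    rw [hY] at hy
    have h2 := AS.add_mem_HP H a L' L'' _ _ h1 hy
    have h3 := HP_mono H a _ (fun i => L' i + 8 * m * L'' i) (fun i => by
      show L' i + L'' i ≤ L' i + 8 * m * L'' i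
      have : 1 * L'' i ≤ 8 * m * L'' i := Nat.mul_le_mul_right _ (by omega)
      omega) h2
    rw [hZ, mem_image]
    refine ⟨s - x + y, by rw [hU']; exact h3, by ring⟩
  obtain ⟨T, hTY, hT, hTc, hTper⟩ := hper N V S (V + S) Y Z (2 / δ) l m hVne hSne hYne (Subset.refl _) hW hκ1 hm1
    hm2 hl1 ((by exact_mod_cast card_le_card hSYZ : ((S + Y).card : ℝ) ≤ Z.card).trans hZc) hZc (by
      intro n hn r hr _ s hs
      have h1 := hSP s hs
      rw [hP'] at h1
      rw [hY] at hr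
      have h2 := ds_HP H a L'' n r hr
      have h3 := AS.add_mem_HP H a L' _ _ _ h1 h2
      have h4 := HP_mono H a _ (fun i => L' i + 8 * m * L'' i) (fun i => by
        show L' i + 2 * n * L'' i ≤ L' i + 8 * m * L'' i
        have : 2 * n * L'' i ≤ 8 * m * L'' i := Nat.mul_le_mul_right _ (by omega)
        omega) h3
      rw [hZ, mem_image]
      exact ⟨s - x + r, by rw [hU']; exact h4, by ring⟩)
  have hTpos : (0 : ℝ) < T.card := by exact_mod_cast hT.card_pos
  have hYc : (0 : ℝ) < Y.card := by exact_mod_cast hYne.card_pos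
  -- the number of frequencies
  obtain ⟨Q, hQ⟩ : ∃ Q : ℝ, Q = l ^ (3 + ε) := ⟨_, rfl⟩
  rw [← hQ]
  have hQ1 : 1 ≤ Q := by rw [hQ]; exact Real.one_le_rpow hl1 (by linarith)
  have hloss : C₁ * (l * (m : ℝ) ^ (2 + ε)) ≤ C₁ * c * Q := by
    have h1 : (m : ℝ) ^ (2 + ε) ≤ c * l ^ (2 + ε) := by
      rw [hc, ← Real.mul_rpow (by norm_num) hl0.le]
      exact Real.rpow_le_rpow (Nat.cast_nonneg _) hmle (by linarith)
    have h2 : Q = l * l ^ (2 + ε) := by
      rw [hQ, show (3 + ε : ℝ) = 1 + (2 + ε) by ring, Real.rpow_add hl0, Real.rpow_one]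
    calc C₁ * (l * (m : ℝ) ^ (2 + ε)) ≤ C₁ * (l * (c * l ^ (2 + ε))) := by gcongr
      _ = _ := by rw [h2]; ring
  have hlogT : Real.log (4 * Y.card / T.card) ≤ (2 + C₁ * c) * Q := by
    have h1 : 4 * (Y.card : ℝ) / T.card ≤ 4 * Real.exp (C₁ * c * Q) := by
      rw [div_le_iff₀ hTpos]
      have h2 : (Y.card : ℝ) ≤ Real.exp (C₁ * c * Q) * T.card :=
        hTc.trans (mul_le_mul_of_nonneg_right (Real.exp_le_exp.2 hloss) hTpos.le)
      linarith
    refine (Real.log_le_log (by positivity) h1).trans ?_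
    rw [Real.log_mul (by norm_num) (Real.exp_pos _).ne', Real.log_exp, hlog4]
    nlinarith
  obtain ⟨n, hn⟩ : ∃ n : ℕ, n = ⌈8 * ((2 + C₁ * c) * Q)⌉₊ := ⟨_, rfl⟩
  have hn1 : 8 * ((2 + C₁ * c) * Q) ≤ n := by rw [hn]; exact Nat.le_ceil _
  have hn2 : (n : ℝ) + 1 ≤ C₂ * Q := by
    have h1 : (n : ℝ) ≤ 8 * ((2 + C₁ * c) * Q) + 1 := by
      rw [hn]; exact (Nat.ceil_lt_add_one (by positivity)).le
    rw [hC₂]
    linarith
  have hn0 : (0 : ℝ) ≤ n := Nat.cast_nonneg n
  have hd0 : (0 : ℝ) ≤ d := Nat.cast_nonneg d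
  have hpi := Real.pi_pos
  have hpi' := Real.pi_lt_d2
  have hbigC : 0 ≤ C₂ * p + 180 + 5 * C₃ := by positivity
  have hRl : 13 * C₂ * l ≤ R := by nlinarith
  have hRd : (d : ℝ) + 3 ≤ R := by nlinarith
  have hR3 : (3 : ℝ) ≤ R := by linarith
  have hR0 : (0 : ℝ) < R := by linarith
  have hlR : l ≤ R := by nlinarith
  obtain ⟨Γ, hΓ1, hΓ2⟩ := local_bohr N T hT H d a L'' hPr'' 0 (fun y hy => by
    have := hTY hy
    rw [hY] at this
    simpa using this) n (by rw [← hY]; linarith) R (p - 1) (by linarith) (by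
    have hp2 : p - 1 + 1 = p := by omega
    rw [hp2]
    calc 4 * Real.pi * (n : ℝ) ≤ 13 * (C₂ * Q) := by nlinarith
      _ = (13 * C₂) ^ 1 * Q := by ring
      _ ≤ (13 * C₂) ^ p * l ^ p := by
          have h1 : (13 * C₂) ^ 1 ≤ (13 * C₂) ^ p := pow_le_pow_right₀ (by linarith) hp1
          have h2 : Q ≤ l ^ p := by
            rw [hQ, ← Real.rpow_natCast]
            exact Real.rpow_le_rpow_of_exponent_le hl1 hpε
          exact mul_le_mul h1 h2 (by linarith) (by positivity)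
      _ = (13 * C₂ * l) ^ p := (mul_pow (13 * C₂) l p).symm
      _ ≤ (R : ℝ) ^ p := pow_le_pow_left₀ (by positivity) hRl p)
  refine ⟨Γ, ?_, ?_⟩
  swap
  · intro y hy
    obtain ⟨v, hv, s, hs, w, hw, rfl⟩ := hTper T (Subset.refl _) hT y (hΓ2 y hy)
    obtain ⟨a₁, h1, a₂, h2, rfl⟩ := mem_add.1 hw
    exact ⟨a₁, hVA h1, a₂, hVA (hSV h2), s, hVA (hSV hs), v, hVA hv, by ring⟩
  obtain ⟨q, hq⟩ : ∃ q : ℕ, q = 4 * (d + 1) * (4 * (d + 1) * (8 * m)) *
    (4 * (d + 1) * (n + 1) * (16 * (d + 1))) := ⟨_, rfl⟩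
  have hLq : ∀ i, L'' i / (4 * (d + 1) * (n + 1) * (16 * (d + 1))) = L i / q := by
    intro i
    rw [hL'', hL', hq]
    simp only
    rw [Nat.div_div_eq_div_mul, Nat.div_div_eq_div_mul]
    congr 1
    ring
  simp_rw [hLq] at hΓ1
  have hq1 : 1 ≤ q := by rw [hq]; exact Nat.one_le_iff_ne_zero.2 (by positivity)
  obtain ⟨V₃, hV₃⟩ : ∃ V₃ : ℕ, V₃ = ∏ i, (2 * (L i / q) + 1) := ⟨_, rfl⟩
  rw [← hV₃] at hΓ1
  have hvolX := (t_VOL N H d a L).2 hP
  rw [← hPdef] at hvolX
  have hNpos : (0 : ℝ) < N := by exact_mod_cast NeZero.pos N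
  have hV₃0 : (0 : ℝ) < V₃ := by
    have : 0 < V₃ := by rw [hV₃]; exact prod_pos fun i _ => by omega
    exact_mod_cast this
  have hHc : (0 : ℝ) < Nat.card H := by exact_mod_cast Nat.card_pos
  have hq1R : (1 : ℝ) ≤ q := by exact_mod_cast hq1
  have hvol : (P.card : ℝ) ≤ (Nat.card H : ℝ) * ((2 * (q : ℝ)) ^ d * V₃) := by
    rw [hvolX]
    push_cast
    have h3 := AS.box_ratio L q hq1
    rw [← hV₃] at h3
    push_cast at h3
    gcongr
  have hlogR : 1 ≤ Real.log R := by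
    rw [Real.le_log_iff_exp_le hR0]
    have := Real.exp_one_lt_d9
    linarith
  have hlogR0 : 0 < Real.log R := by linarith
  have hlogq : Real.log (2 * (q : ℝ)) ≤ C₃ * Real.log R := by
    have h1 : (2 : ℝ) * (q : ℝ) ≤ 32768 * C₂ * (l * (R ^ 4 * Q)) := by
      have h3 : (q : ℝ) = 8192 * (m * ((d + 1) ^ 4 * (n + 1))) := by rw [hq]; push_cast; ring
      rw [h3]
      have h5 : (m : ℝ) * (((d : ℝ) + 1) ^ 4 * (n + 1)) ≤ (2 * l) * ((R : ℝ) ^ 4 * (C₂ * Q)) := by
        have h2 : (d : ℝ) + 1 ≤ R := by linarith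
        gcongr
      have h6 : (2 * l) * ((R : ℝ) ^ 4 * (C₂ * Q)) = 2 * (C₂ * (l * ((R : ℝ) ^ 4 * Q))) := by ring
      rw [h6] at h5
      linarith
    refine (Real.log_le_log (by positivity) h1).trans ?_
    have hQ0 : 0 < Q := by linarith
    have hC₂0 : (0 : ℝ) < 32768 * C₂ := by linarith
    have hR40 : (0 : ℝ) < (R : ℝ) ^ 4 := by positivity
    have hsplit : Real.log (32768 * C₂ * (l * ((R : ℝ) ^ 4 * Q))) =
        Real.log (32768 * C₂) + (Real.log l + (4 * Real.log R + (3 + ε) * Real.log l)) := by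
      rw [Real.log_mul hC₂0.ne' (by positivity), Real.log_mul hl0.ne' (by positivity),
        Real.log_mul hR40.ne' hQ0.ne', hQ, Real.log_rpow hl0, Real.log_pow]
      push_cast
      ring
    rw [hsplit]
    have hlogl : Real.log l ≤ Real.log R := Real.log_le_log hl0 hlR
    have h6 : 0 ≤ Real.log (32768 * C₂) := Real.log_nonneg (by linarith)
    have h8 : Real.log (32768 * C₂) ≤ Real.log (32768 * C₂) * Real.log R := le_mul_of_one_le_right h6 hlogR
    have h9 : (3 + ε) * Real.log l ≤ (3 + ε) * Real.log R := mul_le_mul_of_nonneg_left hlogl (by linarith)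
    rw [hC₃]
    linarith
  have hlogvol : Real.log (N / (Nat.card H * V₃)) ≤ Real.log (N / P.card) + d * (C₃ * Real.log R) := by
    have h1 : (N : ℝ) / (Nat.card H * V₃) ≤ (N / P.card) * (2 * (q : ℝ)) ^ d := by
      rw [div_mul_eq_mul_div, div_le_div_iff₀ (by positivity) hPc]
      calc (N : ℝ) * P.card ≤ N * ((Nat.card H : ℝ) * ((2 * (q : ℝ)) ^ d * V₃)) := by gcongr
        _ = _ := by ring
    refine (Real.log_le_log (by positivity) h1).trans ?_
    rw [Real.log_mul (by positivity) (by positivity), Real.log_pow]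
    have h2 : (d : ℝ) * Real.log (2 * q) ≤ d * (C₃ * Real.log R) := by gcongr
    linarith
  have e3 : Real.log (N / (Nat.card H * V₃)) / Real.log R ≤ Real.log (N / P.card) / Real.log R + C₃ * d := by
    have h1 : Real.log (N / (Nat.card H * V₃)) / Real.log R ≤
        (Real.log (N / P.card) + d * (C₃ * Real.log R)) / Real.log R := by gcongr
    rw [add_div] at h1
    have h2 : (d : ℝ) * (C₃ * Real.log R) / Real.log R = C₃ * d := by field_simp
    rw [h2] at h1
    exact h1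
  obtain ⟨xx, hxx⟩ : ∃ xx : ℝ, xx = Real.log (N / P.card) / Real.log R := ⟨_, rfl⟩
  rw [← hxx] at e3 ⊢
  have hxx0 : 0 ≤ xx := by
    rw [hxx]
    apply div_nonneg _ hlogR0.le
    apply Real.log_nonneg
    rw [le_div_iff₀ hPc, one_mul]
    have := card_le_univ P
    rw [ZMod.card] at this
    exact_mod_cast this
  have hp2 : ((p - 1 : ℕ) : ℝ) + 1 = p := by
    have : p - 1 + 1 = p := by omega
    exact_mod_cast this
  rw [hp2] at hΓ1
  have e1 : (n : ℝ) * p ≤ C₂ * p * Q := by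
    calc (n : ℝ) * p ≤ (C₂ * Q) * p := by
          refine mul_le_mul_of_nonneg_right ?_ (by linarith)
          linarith
      _ = _ := by ring
  calc (Γ.card : ℝ) ≤ n * p + (175 * d + 1 +
        5 * (Real.log (N / (Nat.card H * V₃)) / Real.log R)) := hΓ1
    _ ≤ C₂ * p * Q + (175 * d + Q + 5 * (xx + C₃ * d)) := by linarith
    _ ≤ (13 * C₂ + C₂ * p + 180 + 5 * C₃) * (d + Q + xx) := by
        have g1 : 0 ≤ (13 * C₂ + C₂ * p + 5) * d := by positivity
        have g2 : 0 ≤ (13 * C₂ + 179 + 5 * C₃) * Q := by positivity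
        have g3 : 0 ≤ (13 * C₂ + C₂ * p + 175 + 5 * C₃) * xx := by positivity
        nlinarith

end Pool.Agent.J4.H30.CD
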