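import Pool.Agent.J4.H30.CD.Loc

/-!
# Bohr sets in `2A - 2A` (helper30): sets of small doubling
-/

set_option autoImplicit false
set_option linter.unusedSectionVars false
set_option linter.unusedVariables false

namespace Pool.Agent.J4.H30.CD

open Finset Pool.Agent.N142.CD Pool.Agent.N142.CD.FOU Pool.Agent.TH858
open scoped Pointwise

/-- the sumset `3A - 2A` -/
theorem card_three_two {N : ℕ} [NeZero N] (A : Finset (ZMod N)) (K : ℝ) (hA : A.Nonempty) (hK : 1 ≤ K)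
    (hAA : ((A + A).card : ℝ) ≤ K * A.card) : ((A + ((A + A) - A - A)).card : ℝ) ≤ K ^ 5 * A.card := by
  have h := pluennecke_ruzsa_inequality_nsmul_sub_nsmul_add hA A 3 2
  have hA0 : (0 : ℝ) < A.card := by exact_mod_cast hA.card_pos
  have h0 : A + ((A + A) - A - A) = 3 • A - 2 • A := by
    rw [two_nsmul, succ_nsmul, two_nsmul]
    rw [sub_sub, ← add_sub_assoc, ← add_assoc]
  rw [← h0] at h
  have h2 : ((A + ((A + A) - A - A)).card : ℝ) ≤ (((A + A).card : ℝ) / A.card) ^ (3 + 2) * A.card := by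
    have h3 : (((A + ((A + A) - A - A)).card : ℚ≥0) : ℝ) ≤
        ((((A + A).card / A.card : ℚ≥0) ^ (3 + 2) * A.card : ℚ≥0) : ℝ) := by
      exact_mod_cast h
    push_cast at h3
    exact_mod_cast h3
  refine h2.trans (mul_le_mul_of_nonneg_right ?_ hA0.le)
  have h4 : ((A + A).card : ℝ) / A.card ≤ K := by
    rw [div_le_iff₀ hA0]
    exact hAA
  exact pow_le_pow_left₀ (by positivity) h4 5

/-- the data -/
theorem data3 (hFR : S_FR) (ε : ℝ) (hε : 0 < ε) : ∃ C : ℝ, 1 ≤ C ∧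
    ∀ (N : ℕ) [NeZero N] (A : Finset (ZMod N)) (K : ℝ), A.Nonempty → 1 ≤ K →
    ((A + A).card : ℝ) ≤ K * A.card →
    ∃ (T₁ : Finset (ZMod N)) (H : AddSubgroup (ZMod N)) (d : ℕ) (a : Fin d → ZMod N) (Lb : Fin d → ℕ)
      (t : ZMod N), T₁.Nonempty ∧
      (∀ y : ZMod N,
        (∀ γ : ZMod N, (T₁.card : ℝ) / 2 ≤ ‖∑ t ∈ T₁, ψ (γ * t)‖ → ‖ψ (γ * y) - 1‖ ≤ 1 / 4) →
        ∃ v ∈ A, ∃ s ∈ A, ∃ w ∈ A + A, y = w - s - v) ∧
      (d : ℝ) ≤ 300 * Real.log (2 * K) ∧ ProperH H a Lb ∧ (∀ x ∈ T₁, x - t ∈ HP H a Lb) ∧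
      Real.log (4 * (HP H a Lb).card / T₁.card) ≤ C * Real.log (2 * K) ^ (3 + ε) ∧
      (A.card : ℝ) ≤ Real.exp (C * Real.log (2 * K) ^ 2) * (HP H a Lb).card := by
  classical
  obtain ⟨CF, hCF, hFR⟩ := hFR
  obtain ⟨C₁, hC₁, hper⟩ := periods ε hε
  obtain ⟨c, hc⟩ : ∃ c : ℝ, c = (5 / 2 : ℝ) ^ (2 + ε) := ⟨_, rfl⟩
  have hc1 : 1 ≤ c := by rw [hc]; exact Real.one_le_rpow (by norm_num) (by linarith)
  obtain ⟨b, hb⟩ : ∃ b : ℝ, b = (2 : ℝ) ^ (3 + ε) := ⟨_, rfl⟩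
  have hb1 : 1 ≤ b := by rw [hb]; exact Real.one_le_rpow (by norm_num) (by linarith)
  refine ⟨2 * b + 2 * CF * b + 5 * C₁ * c, by nlinarith, ?_⟩
  intro N _ A K hA hK hAA
  obtain ⟨L, hL⟩ : ∃ L : ℝ, L = Real.log (2 * K) := ⟨_, rfl⟩
  have hlog2 := Real.log_two_gt_d9
  have hL2 : Real.log 2 ≤ L := by rw [hL]; exact Real.log_le_log (by norm_num) (by linarith)
  have hL0 : 0 < L := by linarith
  have hexpL : Real.exp L = 2 * K := by rw [hL, Real.exp_log (by linarith)]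
  have hAc : (0 : ℝ) < A.card := by exact_mod_cast hA.card_pos
  rw [← hL]
  -- powers of L
  have h2L : 1 ≤ 2 * L := by linarith
  have hLb : ∀ p : ℝ, 0 ≤ p → p ≤ 3 + ε → L ^ p ≤ b * L ^ (3 + ε) := by
    intro p hp hp'
    have h1 : (2 * L) ^ p ≤ (2 * L) ^ (3 + ε) := Real.rpow_le_rpow_of_exponent_le h2L hp'
    rw [Real.mul_rpow (by norm_num) hL0.le, Real.mul_rpow (by norm_num) hL0.le, ← hb] at h1
    have h2 : (1 : ℝ) ≤ 2 ^ p := Real.one_le_rpow (by norm_num) hp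
    have h3 : 0 ≤ L ^ p := Real.rpow_nonneg hL0.le p
    nlinarith
  have hL1b : 1 ≤ b * L ^ (3 + ε) := by
    have := hLb 0 le_rfl (by linarith)
    rwa [Real.rpow_zero] at this
  have hL2b : L ^ 2 ≤ b * L ^ (3 + ε) := by
    have := hLb 2 (by norm_num) (by linarith)
    rwa [Real.rpow_two] at this
  obtain ⟨m, hm⟩ : ∃ m : ℕ, m = ⌈L⌉₊ := ⟨_, rfl⟩
  have hm1 : 1 ≤ m := by rw [hm]; exact Nat.ceil_pos.2 hL0
  have hmL : L ≤ m := by rw [hm]; exact Nat.le_ceil _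
  have hm2 : 2 * K ≤ Real.exp m := by rw [← hexpL]; exact Real.exp_le_exp.2 hmL
  have hmle : (m : ℝ) ≤ 5 / 2 * L := by
    have h1 := (Nat.ceil_lt_add_one hL0.le).le
    rw [← hm] at h1
    linarith
  have hexp5 : Real.exp (5 * L) = (2 * K) ^ 5 := by
    rw [← hexpL, ← Real.exp_nat_mul]
    norm_num
  have hK5 : K ^ 5 ≤ Real.exp (5 * L) := by
    rw [hexp5]
    exact pow_le_pow_left₀ (by linarith) (by linarith) 5
  have hKK5 : K ≤ Real.exp (5 * L) := (le_self_pow₀ hK (by norm_num)).trans hK5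
  obtain ⟨T₀, hTA, hT₀, hTc, hTper⟩ := hper N A A (A + A) A (A + ((A + A) - A - A)) K (5 * L) m hA hA hA
    (Subset.refl _) hAA hK hm1 hm2 (by linarith)
    (hAA.trans (mul_le_mul_of_nonneg_right hKK5 hAc.le))
    ((card_three_two A K hA hK hAA).trans (mul_le_mul_of_nonneg_right hK5 hAc.le))
    (fun n _ r _ hr s hs => add_mem_add hs hr)
  have hloss : C₁ * (5 * L * (m : ℝ) ^ (2 + ε)) ≤ 5 * C₁ * c * L ^ (3 + ε) := by
    have h1 : (m : ℝ) ^ (2 + ε) ≤ c * L ^ (2 + ε) := by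
      rw [hc, ← Real.mul_rpow (by norm_num) hL0.le]
      exact Real.rpow_le_rpow (Nat.cast_nonneg _) hmle (by linarith)
    have h2 : L ^ (3 + ε) = L * L ^ (2 + ε) := by
      rw [show (3 + ε : ℝ) = 1 + (2 + ε) by ring, Real.rpow_add hL0, Real.rpow_one]
    calc C₁ * (5 * L * (m : ℝ) ^ (2 + ε)) ≤ C₁ * (5 * L * (c * L ^ (2 + ε))) := by gcongr
      _ = _ := by rw [h2]; ring
  -- covering
  obtain ⟨H, d, a, Lb, Tc, hd, hP, hX1, hTcc, hcov⟩ := hFR N A K hA hK hAA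
  obtain ⟨X, hX⟩ : ∃ X, X = HP H a Lb := ⟨_, rfl⟩
  rw [← hX] at hX1 hcov
  obtain ⟨t, ht, hpig⟩ := AS.pigeon T₀ Tc X (fun x hx => hcov x (hTA hx)) hT₀
  obtain ⟨T₁, hT₁⟩ : ∃ T₁, T₁ = T₀.filter fun x => x - t ∈ X := ⟨_, rfl⟩
  rw [← hT₁] at hpig
  have hT₁ne : T₁.Nonempty := by
    rw [← card_pos]
    rcases Nat.eq_zero_or_pos T₁.card with h | h
    · rw [h, mul_zero] at hpig
      have := hT₀.card_pos
      omega
    · exact h
  have hT₁c : (0 : ℝ) < T₁.card := by exact_mod_cast hT₁ne.card_pos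
  have hcc := AS.cover_card A Tc X hcov
  rw [← hL] at hd hX1 hTcc
  obtain ⟨E, hE⟩ : ∃ E : ℝ, E = Real.exp (CF * L ^ 2) := ⟨_, rfl⟩
  rw [← hE] at hX1 hTcc
  have hE0 : 0 < E := by rw [hE]; exact Real.exp_pos _
  have hlogE : Real.log E = CF * L ^ 2 := by rw [hE, Real.log_exp]
  have hpig' : (T₀.card : ℝ) ≤ E * T₁.card := by
    have h1 : (T₀.card : ℝ) ≤ Tc.card * T₁.card := by exact_mod_cast hpig
    exact h1.trans (mul_le_mul_of_nonneg_right hTcc hT₁c.le)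
  have hcc' : (A.card : ℝ) ≤ E * X.card := by
    have h1 : (A.card : ℝ) ≤ Tc.card * X.card := by exact_mod_cast hcc
    exact h1.trans (mul_le_mul_of_nonneg_right hTcc (Nat.cast_nonneg _))
  have hXc : (0 : ℝ) < X.card := by
    by_contra hcon
    have h1 : (X.card : ℝ) = 0 := le_antisymm (not_lt.1 hcon) (Nat.cast_nonneg _)
    rw [h1, mul_zero] at hcc'
    linarith
  have hlog4 : Real.log 4 ≤ 2 := by
    have h1 : Real.log 4 = 2 * Real.log 2 := by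
      rw [show (4 : ℝ) = 2 ^ 2 by norm_num, Real.log_pow]; norm_num
    have := Real.log_two_lt_d9
    linarith
  have hBle : Real.log (4 * X.card / T₁.card) ≤ Real.log 4 + 2 * CF * L ^ 2 + 5 * C₁ * c * L ^ (3 + ε) := by
    have h1 : (A.card : ℝ) ≤ Real.exp (5 * C₁ * c * L ^ (3 + ε)) * (E * T₁.card) := by
      refine hTc.trans ?_
      exact mul_le_mul (Real.exp_le_exp.2 hloss) hpig' (Nat.cast_nonneg _) (Real.exp_pos _).le
    have h2 : 4 * (X.card : ℝ) / T₁.card ≤ 4 * (E * (Real.exp (5 * C₁ * c * L ^ (3 + ε)) * E)) := by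
      rw [div_le_iff₀ hT₁c]
      calc 4 * (X.card : ℝ) ≤ 4 * (E * (Real.exp (5 * C₁ * c * L ^ (3 + ε)) * (E * T₁.card))) := by
            gcongr
            exact hX1.trans (by gcongr)
        _ = _ := by ring
    refine (Real.log_le_log (by positivity) h2).trans ?_
    rw [Real.log_mul (by norm_num) (by positivity), Real.log_mul hE0.ne' (by positivity),
      Real.log_mul (Real.exp_pos _).ne' hE0.ne', Real.log_exp, hlogE]
    linarith
  refine ⟨T₁, H, d, a, Lb, t, hT₁ne, ?_, hd, hP, ?_, ?_, ?_⟩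
  · intro y hy
    exact hTper T₁ (by rw [hT₁]; exact filter_subset _ _) hT₁ne y hy
  · intro x hx
    rw [hT₁, mem_filter] at hx
    rw [← hX]
    exact hx.2
  · rw [← hX]
    refine hBle.trans ?_
    have h3 : 2 * CF * L ^ 2 ≤ 2 * CF * (b * L ^ (3 + ε)) := by gcongr
    have h4 : (2 * b + 2 * CF * b + 5 * C₁ * c) * L ^ (3 + ε) =
        2 * (b * L ^ (3 + ε)) + 2 * CF * (b * L ^ (3 + ε)) + 5 * C₁ * c * L ^ (3 + ε) := by ring
    rw [h4]
    linarith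
  · rw [← hX]
    refine hcc'.trans ?_
    rw [hE]
    refine mul_le_mul_of_nonneg_right (Real.exp_le_exp.2 ?_) (Nat.cast_nonneg _)
    refine mul_le_mul_of_nonneg_right ?_ (by positivity)
    have h1 : 0 ≤ 5 * C₁ * c := by positivity
    nlinarith

/-- the main bound with free parameters `R`, `J` -/
theorem core3 (hFR : S_FR) (ε : ℝ) (hε : 0 < ε) : ∃ C : ℝ, 1 ≤ C ∧
    ∀ (N : ℕ) [NeZero N] (A : Finset (ZMod N)) (K : ℝ) (R J : ℕ), A.Nonempty → 1 ≤ K →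
    ((A + A).card : ℝ) ≤ K * A.card → 300 * Real.log (2 * K) + 3 ≤ R →
    C * Real.log (2 * K) ^ (3 + ε) ≤ (R : ℝ) ^ (J + 1) →
    ∃ Γ : Finset (ZMod N), (Γ.card : ℝ) ≤
      C * (Real.log (N / A.card) / Real.log R + (J + 1) * Real.log (2 * K) ^ (3 + ε)) ∧
      ∀ y : ZMod N, (∀ g ∈ Γ, CB.nn (g * y) ≤ 1 / (8 * R)) →
        ∃ a₁ ∈ A, ∃ a₂ ∈ A, ∃ a₃ ∈ A, ∃ a₄ ∈ A, y = a₁ + a₂ - a₃ - a₄ := by
  obtain ⟨C₁, hC₁, hdata⟩ := data3 hFR ε hε
  obtain ⟨b, hb⟩ : ∃ b : ℝ, b = (2 : ℝ) ^ (3 + ε) := ⟨_, rfl⟩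
  have hb1 : 1 ≤ b := by rw [hb]; exact Real.one_le_rpow (by norm_num) (by linarith)
  obtain ⟨C₂, hC₂⟩ : ∃ C₂ : ℝ, C₂ = 8 * C₁ + 2 * b := ⟨_, rfl⟩
  have hC₂1 : 10 ≤ C₂ := by rw [hC₂]; linarith
  obtain ⟨C₃, hC₃⟩ : ∃ C₃ : ℝ, C₃ = 2 * Real.log (64 * 302 ^ 2 * C₂) + 2 + 2 * (5 + ε) := ⟨_, rfl⟩
  have hC₃0 : 0 ≤ C₃ := by
    rw [hC₃]
    have : 0 ≤ Real.log (64 * 302 ^ 2 * C₂) := Real.log_nonneg (by linarith)
    linarith
  refine ⟨13 * C₂ + 52501 * b + 5 + 5 * (C₁ + 300 * C₃) * b, by nlinarith, ?_⟩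
  intro N _ A K R J hA hK hAA hR hRJ
  obtain ⟨T₁, H, d, a, Lb, t, hT₁, hTper, hd, hP, hTX, hlog, hAX⟩ := hdata N A K hA hK hAA
  obtain ⟨L, hL⟩ : ∃ L : ℝ, L = Real.log (2 * K) := ⟨_, rfl⟩
  have hlog2 := Real.log_two_gt_d9
  have hL2 : Real.log 2 ≤ L := by rw [hL]; exact Real.log_le_log (by norm_num) (by linarith)
  have hL0 : 0 < L := by linarith
  rw [← hL] at hd hlog hAX hR hRJ ⊢
  have h2L : 1 ≤ 2 * L := by linarith
  obtain ⟨P, hP'⟩ : ∃ P : ℝ, P = L ^ (3 + ε) := ⟨_, rfl⟩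
  rw [← hP'] at hlog hRJ ⊢
  have hP0 : 0 < P := by rw [hP']; exact Real.rpow_pos_of_pos hL0 _
  have hLb : ∀ p : ℝ, 0 ≤ p → p ≤ 3 + ε → L ^ p ≤ b * P := by
    intro p hp hp'
    have h1 : (2 * L) ^ p ≤ (2 * L) ^ (3 + ε) := Real.rpow_le_rpow_of_exponent_le h2L hp'
    rw [Real.mul_rpow (by norm_num) hL0.le, Real.mul_rpow (by norm_num) hL0.le, ← hb, ← hP'] at h1
    have h2 : (1 : ℝ) ≤ 2 ^ p := Real.one_le_rpow (by norm_num) hp
    have h3 : 0 ≤ L ^ p := Real.rpow_nonneg hL0.le p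
    nlinarith
  have hL1b : 1 ≤ b * P := by
    have := hLb 0 le_rfl (by linarith)
    rwa [Real.rpow_zero] at this
  have hLLb : L ≤ b * P := by
    have := hLb 1 (by norm_num) (by linarith)
    rwa [Real.rpow_one] at this
  have hL2b : L ^ 2 ≤ b * P := by
    have := hLb 2 (by norm_num) (by linarith)
    rwa [Real.rpow_two] at this
  obtain ⟨n, hn⟩ : ∃ n : ℕ, n = ⌈8 * (C₁ * P)⌉₊ := ⟨_, rfl⟩
  have hn1 : 8 * (C₁ * P) ≤ n := by rw [hn]; exact Nat.le_ceil _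
  have hn2 : (n : ℝ) + 1 ≤ C₂ * P := by
    have h1 : (n : ℝ) ≤ 8 * (C₁ * P) + 1 := by rw [hn]; exact (Nat.ceil_lt_add_one (by positivity)).le
    rw [hC₂]
    linarith
  have hn0 : (0 : ℝ) ≤ n := Nat.cast_nonneg n
  have hd0 : (0 : ℝ) ≤ d := Nat.cast_nonneg d
  have hpi := Real.pi_pos
  have hpi' := Real.pi_lt_d2
  obtain ⟨Γ, hΓ1, hΓ2⟩ := local_bohr N T₁ hT₁ H d a Lb hP t hTX n (by linarith) R J (by linarith) (by
    refine le_trans ?_ hRJ
    have h1 : 4 * Real.pi * (n : ℝ) ≤ 13 * (C₂ * P) := by nlinarith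
    have h2 : 0 ≤ (52501 * b + 5 + 5 * (C₁ + 300 * C₃) * b) * P := by positivity
    nlinarith)
  refine ⟨Γ, ?_, ?_⟩
  swap
  · intro y hy
    obtain ⟨v, hv, s, hs, w, hw, rfl⟩ := hTper y (hΓ2 y hy)
    obtain ⟨a₁, h1, a₂, h2, rfl⟩ := mem_add.1 hw
    exact ⟨a₁, h1, a₂, h2, s, hs, v, hv, by ring⟩
  obtain ⟨q, hq⟩ : ∃ q : ℕ, q = 4 * (d + 1) * (n + 1) * (16 * (d + 1)) := ⟨_, rfl⟩
  rw [← hq] at hΓ1
  have hq1 : 1 ≤ q := by rw [hq]; exact Nat.one_le_iff_ne_zero.2 (by positivity)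
  obtain ⟨V₃, hV₃⟩ : ∃ V₃ : ℕ, V₃ = ∏ i, (2 * (Lb i / q) + 1) := ⟨_, rfl⟩
  rw [← hV₃] at hΓ1
  have hvolX := (t_VOL N H d a Lb).2 hP
  obtain ⟨X, hX⟩ : ∃ X, X = HP H a Lb := ⟨_, rfl⟩
  rw [← hX] at hlog hAX hvolX
  have hAc : (0 : ℝ) < A.card := by exact_mod_cast hA.card_pos
  have hNpos : (0 : ℝ) < N := by exact_mod_cast NeZero.pos N
  have hV₃0 : (0 : ℝ) < V₃ := by
    have : 0 < V₃ := by rw [hV₃]; exact prod_pos fun i _ => by omega
    exact_mod_cast this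
  have hHc : (0 : ℝ) < Nat.card H := by exact_mod_cast Nat.card_pos
  have hq1R : (1 : ℝ) ≤ q := by exact_mod_cast hq1
  obtain ⟨E, hE⟩ : ∃ E : ℝ, E = Real.exp (C₁ * L ^ 2) := ⟨_, rfl⟩
  rw [← hE] at hAX
  have hE0 : 0 < E := by rw [hE]; exact Real.exp_pos _
  have hlogE : Real.log E = C₁ * L ^ 2 := by rw [hE, Real.log_exp]
  have hvol : (A.card : ℝ) ≤ E * ((Nat.card H : ℝ) * ((2 * (q : ℝ)) ^ d * V₃)) := by
    have h2 : (X.card : ℝ) ≤ (Nat.card H : ℝ) * ((2 * (q : ℝ)) ^ d * V₃) := by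
      rw [hvolX]
      push_cast
      have h3 := AS.box_ratio Lb q hq1
      rw [← hV₃] at h3
      push_cast at h3
      gcongr
    exact hAX.trans (by gcongr)
  have hR3 : (3 : ℝ) ≤ R := by linarith
  have hR0 : (0 : ℝ) < R := by linarith
  have hlogR : 1 ≤ Real.log R := by
    rw [Real.le_log_iff_exp_le hR0]
    have := Real.exp_one_lt_d9
    linarith
  have hlogR0 : 0 < Real.log R := by linarith
  have hlogq : Real.log (2 * (q : ℝ)) ≤ C₃ * L := by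
    have h1 : (2 : ℝ) * (q : ℝ) ≤ 2 * (64 * 302 ^ 2 * C₂ * (L ^ 2 * P)) := by
      have h2 : (d : ℝ) + 1 ≤ 302 * L := by linarith
      have h3 : (q : ℝ) = 64 * ((d + 1) ^ 2 * (n + 1)) := by rw [hq]; push_cast; ring
      rw [h3]
      have h4 : ((d : ℝ) + 1) ^ 2 * (n + 1) ≤ (302 * L) ^ 2 * (C₂ * P) := by gcongr
      have h5 : (302 * L) ^ 2 * (C₂ * P) = 302 ^ 2 * C₂ * (L ^ 2 * P) := by ring
      rw [h5] at h4
      linarith
    refine (Real.log_le_log (by positivity) h1).trans ?_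
    rw [Real.log_mul (by norm_num) (by positivity), Real.log_mul (by positivity) (by positivity),
      Real.log_mul (by positivity) hP0.ne', hP', Real.log_rpow hL0, Real.log_pow]
    have hlogL : Real.log L ≤ L := by
      have := Real.log_le_sub_one_of_pos hL0
      linarith
    have h6 : 0 ≤ Real.log (64 * 302 ^ 2 * C₂) := Real.log_nonneg (by linarith)
    have h7 : Real.log 2 ≤ 1 * (2 * L) := by linarith
    have h8 : Real.log (64 * 302 ^ 2 * C₂) ≤ 2 * Real.log (64 * 302 ^ 2 * C₂) * L := by nlinarith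
    have h9 : (3 + ε) * Real.log L ≤ (3 + ε) * L := mul_le_mul_of_nonneg_left hlogL (by linarith)
    rw [hC₃]
    push_cast
    nlinarith
  have hlogvol : Real.log (N / (Nat.card H * V₃)) ≤ Real.log (N / A.card) + (C₁ + 300 * C₃) * L ^ 2 := by
    have h1 : (N : ℝ) / (Nat.card H * V₃) ≤ (N / A.card) * (E * (2 * (q : ℝ)) ^ d) := by
      rw [div_mul_eq_mul_div, div_le_div_iff₀ (by positivity) hAc]
      calc (N : ℝ) * A.card ≤ N * (E * ((Nat.card H : ℝ) * ((2 * (q : ℝ)) ^ d * V₃))) := by gcongr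
        _ = _ := by ring
    refine (Real.log_le_log (by positivity) h1).trans ?_
    rw [Real.log_mul (by positivity) (by positivity), Real.log_mul hE0.ne' (by positivity), hlogE, Real.log_pow]
    have h2 : (d : ℝ) * Real.log (2 * q) ≤ 300 * C₃ * L ^ 2 := by
      have h3 : 0 ≤ Real.log (2 * q) := Real.log_nonneg (by linarith)
      calc (d : ℝ) * Real.log (2 * q) ≤ (300 * L) * (C₃ * L) := by gcongr
        _ = 300 * C₃ * L ^ 2 := by ring
    linarith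
  have hCC : 0 ≤ C₁ + 300 * C₃ := by linarith
  have e3 : Real.log (N / (Nat.card H * V₃)) / Real.log R ≤
      Real.log (N / A.card) / Real.log R + (C₁ + 300 * C₃) * (b * P) := by
    have h1 : Real.log (N / (Nat.card H * V₃)) / Real.log R ≤
        (Real.log (N / A.card) + (C₁ + 300 * C₃) * L ^ 2) / Real.log R := by gcongr
    have h2 : (C₁ + 300 * C₃) * L ^ 2 / Real.log R ≤ (C₁ + 300 * C₃) * (b * P) := by
      rw [div_le_iff₀ hlogR0]
      have h3 : (C₁ + 300 * C₃) * L ^ 2 ≤ (C₁ + 300 * C₃) * (b * P) := by gcongr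
      have h4 : 0 ≤ (C₁ + 300 * C₃) * (b * P) := by positivity
      have h5 := mul_le_mul_of_nonneg_left hlogR h4
      linarith
    rw [add_div] at h1
    linarith
  have hx0 : 0 ≤ Real.log (N / A.card) / Real.log R := by
    apply div_nonneg _ hlogR0.le
    apply Real.log_nonneg
    rw [le_div_iff₀ hAc, one_mul]
    have := card_le_univ A
    rw [ZMod.card] at this
    exact_mod_cast this
  have hJ1 : (1 : ℝ) ≤ (J : ℝ) + 1 := by
    have : (0 : ℝ) ≤ J := Nat.cast_nonneg J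
    linarith
  have hPJ : P ≤ (J + 1) * P := by nlinarith
  obtain ⟨xx, hxx⟩ : ∃ xx : ℝ, xx = Real.log (N / A.card) / Real.log R := ⟨_, rfl⟩
  rw [← hxx] at e3 hx0 ⊢
  have hbP : b * P ≤ b * ((J + 1) * P) := by gcongr
  have e1 : (n : ℝ) * (J + 1) ≤ C₂ * ((J + 1) * P) := by
    calc (n : ℝ) * (J + 1) ≤ (C₂ * P) * (J + 1) := by
          refine mul_le_mul_of_nonneg_right ?_ (by linarith)
          linarith
      _ = _ := by ring
  have e2 : 175 * (d : ℝ) + 1 ≤ 52501 * (b * ((J + 1) * P)) := by linarith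
  have e4 : (C₁ + 300 * C₃) * (b * P) ≤ (C₁ + 300 * C₃) * (b * ((J + 1) * P)) := by gcongr
  have hJP : 0 ≤ (J + 1) * P := by positivity
  calc (Γ.card : ℝ) ≤ n * (J + 1) + (175 * d + 1 +
        5 * (Real.log (N / (Nat.card H * V₃)) / Real.log R)) := hΓ1
    _ ≤ C₂ * ((J + 1) * P) + (52501 * (b * ((J + 1) * P)) +
        5 * (xx + (C₁ + 300 * C₃) * (b * ((J + 1) * P)))) := by linarith
    _ ≤ (13 * C₂ + 52501 * b + 5 + 5 * (C₁ + 300 * C₃) * b) * (xx + (J + 1) * P) := by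
        have h1 : 0 ≤ (13 * C₂ + 52501 * b + 5 * (C₁ + 300 * C₃) * b) * xx := by positivity
        have h2 : 0 ≤ (12 * C₂ + 5) * ((J + 1) * P) := by positivity
        nlinarith

/-- **Bohr sets in `2A - 2A` for sets of small doubling** -/
theorem r3 (hFR : S_FR) (ε : ℝ) (hε : 0 < ε) : ∃ C : ℝ, 1 ≤ C ∧
    ∀ (N : ℕ) [NeZero N] (A : Finset (ZMod N)) (K : ℝ), A.Nonempty → (A.card : ℝ) / N ≤ 1 / 2 → 1 ≤ K →
    ((A + A).card : ℝ) ≤ K * A.card →
    ∃ (Γ : Finset (ZMod N)) (ρ : ℝ), 0 < ρ ∧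
      (Γ.card : ℝ) ≤ C * (Real.log (N / A.card) / Real.log (2 + Real.log (N / A.card)) +
        Real.log (2 * K) ^ (3 + ε)) ∧
      1 / (C * Real.log (N / A.card)) ≤ ρ ∧
      ∀ y : ZMod N, (∀ g ∈ Γ, CB.nn (g * y) ≤ ρ) →
        ∃ a₁ ∈ A, ∃ a₂ ∈ A, ∃ a₃ ∈ A, ∃ a₄ ∈ A, y = a₁ + a₂ - a₃ - a₄ := by
  obtain ⟨C, hC, hcore⟩ := core3 hFR ε hε
  obtain ⟨p, hp⟩ : ∃ p : ℕ, p = ⌈ε⌉₊ + 3 := ⟨_, rfl⟩
  have hpε : 3 + ε ≤ p := by
    rw [hp]
    push_cast
    linarith [Nat.le_ceil ε]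
  have hp1 : 1 ≤ p := by omega
  refine ⟨C * p + 8 * (2 * C + 610), by nlinarith, ?_⟩
  intro N _ A K hA hα hK hAA
  have hAc : (0 : ℝ) < A.card := by exact_mod_cast hA.card_pos
  have hNpos : (0 : ℝ) < N := by exact_mod_cast NeZero.pos N
  obtain ⟨x, hx⟩ : ∃ x : ℝ, x = Real.log (N / A.card) := ⟨_, rfl⟩
  have hlog2 := Real.log_two_gt_d9
  have hlog2' := Real.log_two_lt_d9
  have hN2 : 2 ≤ (N : ℝ) / A.card := by
    rw [div_le_iff₀ hNpos] at hα
    rw [le_div_iff₀ hAc]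
    linarith
  have hx2 : Real.log 2 ≤ x := by
    rw [hx]
    exact Real.log_le_log (by norm_num) hN2
  have hx0 : 0 < x := by linarith
  obtain ⟨K', hK'⟩ : ∃ K' : ℝ, K' = min K (N / A.card) := ⟨_, rfl⟩
  have hK'1 : 1 ≤ K' := by rw [hK']; exact le_min hK (by linarith)
  have hK'K : K' ≤ K := by rw [hK']; exact min_le_left _ _
  have hAA' : ((A + A).card : ℝ) ≤ K' * A.card := by
    rw [hK', min_mul_of_nonneg _ _ hAc.le]
    refine le_min hAA ?_
    rw [div_mul_cancel₀ _ hAc.ne']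
    have := card_le_univ (A + A)
    rw [ZMod.card] at this
    exact_mod_cast this
  obtain ⟨L, hL⟩ : ∃ L : ℝ, L = Real.log (2 * K') := ⟨_, rfl⟩
  have hL2 : Real.log 2 ≤ L := by rw [hL]; exact Real.log_le_log (by norm_num) (by linarith)
  have hL0 : 0 < L := by linarith
  have hLx : L ≤ 2 * x := by
    have h1 : L ≤ Real.log (2 * (N / A.card)) := by
      rw [hL]
      apply Real.log_le_log (by linarith)
      have : K' ≤ N / A.card := by rw [hK']; exact min_le_right _ _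
      linarith
    rw [Real.log_mul (by norm_num) (by positivity), ← hx] at h1
    linarith
  have hLL : L ≤ Real.log (2 * K) := by
    rw [hL]
    apply Real.log_le_log (by linarith)
    linarith
  obtain ⟨R, hR⟩ : ∃ R : ℕ, R = ⌈2 * C * x + 600 * x + 3⌉₊ := ⟨_, rfl⟩
  have hRge : 2 * C * x + 600 * x + 3 ≤ R := by rw [hR]; exact Nat.le_ceil _
  have hRle : (R : ℝ) ≤ (2 * C + 610) * x := by
    have h1 := (Nat.ceil_lt_add_one (by positivity : 0 ≤ 2 * C * x + 600 * x + 3)).le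
    rw [← hR] at h1
    linarith
  have hR0 : (0 : ℝ) < R := by
    have : 0 < C * x := by positivity
    linarith
  obtain ⟨Γ, hΓ1, hΓ2⟩ := hcore N A K' R (p - 1) hA hK'1 hAA' (by
    rw [← hL]
    have : 0 < C * x := by positivity
    linarith) (by
    rw [← hL]
    have hp2 : p - 1 + 1 = p := by omega
    rw [hp2]
    have h1 : (1 : ℝ) ≤ 2 * x := by linarith
    calc C * L ^ (3 + ε) ≤ C * (2 * x) ^ (3 + ε) := by gcongr
      _ ≤ C * (2 * x) ^ (p : ℝ) := by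
          have := Real.rpow_le_rpow_of_exponent_le h1 hpε
          gcongr
      _ = C ^ 1 * (2 * x) ^ p := by rw [Real.rpow_natCast, pow_one]
      _ ≤ C ^ p * (2 * x) ^ p := by
          have : C ^ 1 ≤ C ^ p := pow_le_pow_right₀ hC hp1
          gcongr
      _ = (C * (2 * x)) ^ p := (mul_pow C (2 * x) p).symm
      _ ≤ (R : ℝ) ^ p := by
          apply pow_le_pow_left₀ (by positivity)
          linarith)
  refine ⟨Γ, 1 / (8 * R), by positivity, ?_, ?_, hΓ2⟩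
  · rw [← hx, ← hL] at hΓ1
    rw [← hx]
    have hp2 : ((p - 1 : ℕ) : ℝ) + 1 = p := by
      have : p - 1 + 1 = p := by omega
      exact_mod_cast this
    rw [hp2] at hΓ1
    have hlx : 0 < Real.log (2 + x) := Real.log_pos (by linarith)
    have hRx : 2 + x ≤ (R : ℝ) := by
      have : 0 < C * x := by positivity
      linarith
    have hlR : Real.log (2 + x) ≤ Real.log R := Real.log_le_log (by linarith) hRx
    have e1 : x / Real.log R ≤ x / Real.log (2 + x) := div_le_div_of_nonneg_left hx0.le hlx hlR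
    have e2 : L ^ (3 + ε) ≤ Real.log (2 * K) ^ (3 + ε) := Real.rpow_le_rpow hL0.le hLL (by linarith)
    have hp1R : (1 : ℝ) ≤ p := by exact_mod_cast hp1
    have hX0 : 0 ≤ x / Real.log (2 + x) := by positivity
    have hY0 : 0 ≤ Real.log (2 * K) ^ (3 + ε) := Real.rpow_nonneg (by linarith) _
    calc (Γ.card : ℝ) ≤ C * (x / Real.log R + p * L ^ (3 + ε)) := hΓ1
      _ ≤ C * (x / Real.log (2 + x) + p * Real.log (2 * K) ^ (3 + ε)) := by gcongr
      _ ≤ C * (p * (x / Real.log (2 + x)) + p * Real.log (2 * K) ^ (3 + ε)) := by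
          have : x / Real.log (2 + x) ≤ p * (x / Real.log (2 + x)) := le_mul_of_one_le_left hX0 hp1R
          gcongr
      _ = C * p * (x / Real.log (2 + x) + Real.log (2 * K) ^ (3 + ε)) := by ring
      _ ≤ (C * p + 8 * (2 * C + 610)) * (x / Real.log (2 + x) + Real.log (2 * K) ^ (3 + ε)) := by
          refine mul_le_mul_of_nonneg_right ?_ (by positivity)
          linarith
  · rw [← hx]
    apply one_div_le_one_div_of_le (by positivity)
    have h1 : 0 ≤ C * p * x := by positivity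
    nlinarith

end Pool.Agent.J4.H30.CD
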