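import Pool.Agent.J4.H30.CD.Ent

/-!
# Bohr sets in `2A - 2A` (helper30): one stage of the iterated Croot-Sisask argument
-/

set_option autoImplicit false
set_option linter.unusedSectionVars false
set_option linter.unusedVariables false

namespace Pool.Agent.J4.H30.CD

open Finset
open scoped Pointwise

/-- `F(x)`: the `σ`-probability of `x + u ∈ W` -/
noncomputable def FW {G : Type} [AddCommGroup G] [Fintype G] [DecidableEq G] (W : Finset G) (σ : G → ℝ) (x : G) :
    ℝ := ∑ u, σ u * (if x + u ∈ W then (1 : ℝ) else 0)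

/-- the truncated `L¹`-distance -/
noncomputable def PhiE {G : Type} [Fintype G] (ε : ℝ) (H F : G → ℝ) : ℝ := ∑ x, max (|H x - F x| - ε) 0

/-- sums of `j` differences of elements of `T` -/
def ds {G : Type} [AddCommGroup G] [DecidableEq G] (T : Finset G) : ℕ → Finset G
  | 0 => {0}
  | j + 1 => ds T j + (T - T)

/-- the average over the translates by the differences of `T` -/
noncomputable def PP {G : Type} [AddCommGroup G] (T : Finset G) (φ : G → ℝ) : G → ℝ :=
  av (T ×ˢ T) (fun p => p.1 - p.2) φ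

section

variable {G : Type} [AddCommGroup G] [Fintype G] [DecidableEq G]

theorem FW_nonneg (W : Finset G) (σ : G → ℝ) (h : IsP σ) (x : G) : 0 ≤ FW W σ x := by
  unfold FW
  refine sum_nonneg fun u _ => mul_nonneg (h.1 u) ?_
  split_ifs <;> norm_num

theorem FW_le_one (W : Finset G) (σ : G → ℝ) (h : IsP σ) (x : G) : FW W σ x ≤ 1 := by
  unfold FW
  refine (sum_le_sum fun u _ => mul_le_of_le_one_right (h.1 u) ?_).trans h.2.le
  split_ifs <;> norm_num

theorem sum_FW (W : Finset G) (σ : G → ℝ) (h : IsP σ) : ∑ x, FW W σ x = W.card := by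
  unfold FW
  rw [sum_comm]
  have h1 : ∀ u, ∑ x, σ u * (if x + u ∈ W then (1 : ℝ) else 0) = σ u * W.card := by
    intro u
    rw [← mul_sum]
    congr 1
    exact (Equiv.sum_comp (Equiv.addRight u) (fun y => if y ∈ W then (1 : ℝ) else 0)).trans
      (by rw [sum_ite_mem, univ_inter, sum_const, nsmul_eq_mul, mul_one])
  simp_rw [h1]
  rw [← sum_mul, h.2, one_mul]

theorem max_pow (u θ : ℝ) (hθ : 0 < θ) (m : ℕ) (hm : 1 ≤ m) :
    max (|u| - θ) 0 ≤ θ * (u ^ (2 * m) / θ ^ (2 * m)) := by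
  have h1 : u ^ (2 * m) = |u| ^ (2 * m) := (Even.pow_abs ⟨m, by ring⟩ u).symm
  rw [h1, ← div_pow]
  refine max_le ?_ (by positivity)
  rcases le_total |u| θ with h | h
  · have : 0 ≤ θ * (|u| / θ) ^ (2 * m) := by positivity
    linarith
  · have h2 : 1 ≤ |u| / θ := by rw [le_div_iff₀ hθ, one_mul]; exact h
    have h3 : |u| / θ ≤ (|u| / θ) ^ (2 * m) := le_self_pow₀ h2 (by omega)
    calc |u| - θ ≤ |u| := by linarith
      _ = θ * (|u| / θ) := by field_simp
      _ ≤ θ * (|u| / θ) ^ (2 * m) := mul_le_mul_of_nonneg_left h3 hθ.le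

theorem pow_add_le (p q : ℝ) (m : ℕ) (hm : 1 ≤ m) :
    (p + q) ^ (2 * m) ≤ 2 ^ (2 * m - 1) * (p ^ (2 * m) + q ^ (2 * m)) := by
  have h1 : (p + q) ^ (2 * m) = |p + q| ^ (2 * m) := (Even.pow_abs ⟨m, by ring⟩ _).symm
  have h2 : p ^ (2 * m) = |p| ^ (2 * m) := (Even.pow_abs ⟨m, by ring⟩ _).symm
  have h3 : q ^ (2 * m) = |q| ^ (2 * m) := (Even.pow_abs ⟨m, by ring⟩ _).symm
  rw [h1, h2, h3]
  calc |p + q| ^ (2 * m) ≤ (|p| + |q|) ^ (2 * m) :=
        pow_le_pow_left₀ (abs_nonneg _) (abs_add_le _ _) _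
    _ ≤ _ := add_pow_le (abs_nonneg _) (abs_nonneg _) _

/-- the sample mean -/
noncomputable def Fa (W : Finset G) {k : ℕ} (a : Fin k → G) (x : G) : ℝ :=
  (∑ i, if x + a i ∈ W then (1 : ℝ) else 0) / k

theorem Fa_shift (W : Finset G) {k : ℕ} (z : Fin k → G) (x s : G) :
    Fa W (fun i => z i - s) (x + s) = Fa W z x := by
  unfold Fa
  congr 1
  refine sum_congr rfl fun i _ => ?_
  have : x + s + (z i - s) = x + z i := by abel
  rw [this]

/-- the mean of the sampling error -/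
theorem samp (W : Finset G) (σ : G → ℝ) (hσ : IsP σ) (k m : ℕ) (hm : 1 ≤ m) (hmk : m ≤ k) :
    ∑ a : Fin k → G, pk σ a * ∑ x, (Fa W a x - FW W σ x) ^ (2 * m) ≤ W.card * (22 * m / k : ℝ) ^ m := by
  have hk : (0 : ℝ) < k := by exact_mod_cast (by omega : 0 < k)
  have h1 : ∀ x, ∑ a : Fin k → G, pk σ a * (Fa W a x - FW W σ x) ^ (2 * m) ≤
      FW W σ x * (22 * m / k : ℝ) ^ m := by
    intro x
    have h2 := mom2 σ hσ (fun u => if x + u ∈ W then (1 : ℝ) else 0)
      (fun u => by split_ifs <;> norm_num) k m hm hmk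
    have h3 : ∀ a : Fin k → G, ∑ i, ((if x + a i ∈ W then (1 : ℝ) else 0) -
        ∑ v, σ v * (if x + v ∈ W then (1 : ℝ) else 0)) = k * (Fa W a x - FW W σ x) := by
      intro a
      rw [sum_sub_distrib, sum_const, card_univ, Fintype.card_fin, nsmul_eq_mul, mul_sub]
      unfold Fa FW
      congr 1
      field_simp
    have h4 : ∑ a : Fin k → G, pk σ a * (k * (Fa W a x - FW W σ x)) ^ (2 * m) ≤
        FW W σ x * (22 * m * k) ^ m := by
      refine le_trans (le_of_eq ?_) h2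
      refine sum_congr rfl fun a _ => ?_
      rw [← h3 a]
    have h5 : ∑ a : Fin k → G, pk σ a * (k * (Fa W a x - FW W σ x)) ^ (2 * m) =
        (k : ℝ) ^ (2 * m) * ∑ a : Fin k → G, pk σ a * (Fa W a x - FW W σ x) ^ (2 * m) := by
      rw [mul_sum]
      refine sum_congr rfl fun a _ => ?_
      rw [mul_pow]
      ring
    rw [h5] at h4
    have hkp : (0 : ℝ) < (k : ℝ) ^ (2 * m) := by positivity
    have h6 : (k : ℝ) ^ (2 * m) * (FW W σ x * (22 * m / k : ℝ) ^ m) = FW W σ x * (22 * m * k) ^ m := by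
      have : (k : ℝ) ^ (2 * m) * (22 * m / k : ℝ) ^ m = (22 * m * k) ^ m := by
        rw [pow_mul, ← mul_pow]
        congr 1
        field_simp
      rw [← this]
      ring
    rw [← h6] at h4
    exact le_of_mul_le_mul_left h4 hkp
  simp_rw [mul_sum]
  rw [sum_comm]
  calc ∑ x, ∑ a : Fin k → G, pk σ a * (Fa W a x - FW W σ x) ^ (2 * m)
      ≤ ∑ x, FW W σ x * (22 * m / k : ℝ) ^ m := sum_le_sum fun x _ => h1 x
    _ = W.card * (22 * m / k : ℝ) ^ m := by rw [← sum_mul, sum_FW W σ hσ]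

/-- **the Croot-Sisask argument for a measure** -/
theorem cs2 (W : Finset G) (hW : W.Nonempty) (σ : G → ℝ) (hσ : IsP σ) (T : Finset G) (hT : T.Nonempty)
    (k m : ℕ) (hm : 1 ≤ m) (hmk : m ≤ k) (η : ℝ) (hη0 : 0 ≤ η)
    (hη : En (av T (fun t => -t) σ) - En σ ≤ η) :
    ∃ T' : Finset G, T' ⊆ T ∧ (T.card : ℝ) ≤ Real.exp (2 * (k * η) + 4) * T'.card ∧
      ∀ s ∈ T', ∀ s' ∈ T', ∀ θ : ℝ, 0 < θ → PhiE θ (fun x => FW W σ (x + (s - s'))) (FW W σ) ≤
        2 * θ * W.card * (88 * m / (k * θ ^ 2)) ^ m := by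
  classical
  have hk0 : (0 : ℝ) < k := by exact_mod_cast (by omega : 0 < k)
  have hm0 : (0 : ℝ) < m := by exact_mod_cast hm
  have hW0 : (0 : ℝ) < W.card := by exact_mod_cast hW.card_pos
  obtain ⟨M, hM⟩ : ∃ M : ℝ, M = W.card * (22 * m / k : ℝ) ^ m := ⟨_, rfl⟩
  have hM0 : 0 < M := by rw [hM]; positivity
  obtain ⟨E, hE⟩ : ∃ E : (Fin k → G) → ℝ, E = fun a => ∑ x, (Fa W a x - FW W σ x) ^ (2 * m) := ⟨_, rfl⟩
  have hEnn : ∀ a, 0 ≤ E a := fun a => by
    rw [hE]
    exact sum_nonneg fun x _ => Even.pow_nonneg ⟨m, by ring⟩ _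
  have hsum : ∑ a : Fin k → G, pk σ a * E a ≤ M := by
    rw [hE, hM]
    exact samp W σ hσ k m hm hmk
  obtain ⟨Good, hGood⟩ : ∃ Good : Finset (Fin k → G), Good = univ.filter fun a => E a ≤ 2 * M := ⟨_, rfl⟩
  have hGP : 1 / 2 ≤ ∑ a ∈ Good, pk σ a := by
    have h1 := sum_add_sum_compl Good (fun a => pk σ a)
    rw [sum_pk σ hσ k] at h1
    have h2 : (∑ a ∈ Goodᶜ, pk σ a) * (2 * M) ≤ M := by
      rw [sum_mul]
      calc ∑ a ∈ Goodᶜ, pk σ a * (2 * M) ≤ ∑ a ∈ Goodᶜ, pk σ a * E a := by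
            refine sum_le_sum fun a ha => mul_le_mul_of_nonneg_left ?_ (pk_nonneg σ hσ a)
            rw [mem_compl, hGood, mem_filter] at ha
            push Not at ha
            exact (ha (mem_univ a)).le
        _ ≤ ∑ a, pk σ a * E a :=
            sum_le_sum_of_subset_of_nonneg (subset_univ _) fun a _ _ => mul_nonneg (pk_nonneg σ hσ a) (hEnn a)
        _ ≤ M := hsum
    have h3 : (∑ a ∈ Goodᶜ, pk σ a) ≤ 1 / 2 := by
      have : ((∑ a ∈ Goodᶜ, pk σ a) * 2) * M ≤ 1 * M := by linarith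
      have := le_of_mul_le_mul_right this hM0
      linarith
    linarith
  obtain ⟨z, hz⟩ := sel σ hσ T hT k Good hGP η hη0 hη
  refine ⟨T.filter (fun t => (fun i => z i - t) ∈ Good), filter_subset _ _, hz, ?_⟩
  have key : ∀ s ∈ T.filter (fun t => (fun i => z i - t) ∈ Good),
      ∑ x, (Fa W z x - FW W σ (x + s)) ^ (2 * m) ≤ 2 * M := by
    intro s hs
    have h1 := (mem_filter.1 hs).2
    rw [hGood, mem_filter] at h1
    have h2 : E (fun i => z i - s) = ∑ x, (Fa W z x - FW W σ (x + s)) ^ (2 * m) := by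
      rw [hE]
      simp only
      rw [← Equiv.sum_comp (Equiv.addRight s)]
      refine sum_congr rfl fun x _ => ?_
      rw [Equiv.coe_addRight, Fa_shift]
    rw [← h2]
    exact h1.2
  intro s hs s' hs' θ hθ
  have h1 := key s hs
  have h2 := key s' hs'
  have h3 : ∑ x, (FW W σ (x + s) - FW W σ (x + s')) ^ (2 * m) ≤
      ∑ x, 2 ^ (2 * m - 1) * ((Fa W z x - FW W σ (x + s)) ^ (2 * m) +
        (Fa W z x - FW W σ (x + s')) ^ (2 * m)) := by
    refine sum_le_sum fun x _ => ?_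
    have h4 := pow_add_le (-(Fa W z x - FW W σ (x + s))) (Fa W z x - FW W σ (x + s')) m hm
    have h5 : -(Fa W z x - FW W σ (x + s)) + (Fa W z x - FW W σ (x + s')) =
        FW W σ (x + s) - FW W σ (x + s') := by ring
    rw [h5, Even.neg_pow ⟨m, by ring⟩] at h4
    exact h4
  rw [← mul_sum, sum_add_distrib] at h3
  have h6 : (2 : ℝ) ^ (2 * m) = 2 ^ (2 * m - 1) * 2 := by
    rw [← pow_succ]
    congr 1
    omega
  have h7 : ∑ x, (FW W σ (x + s) - FW W σ (x + s')) ^ (2 * m) ≤ 2 ^ (2 * m) * (2 * M) := by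
    calc ∑ x, (FW W σ (x + s) - FW W σ (x + s')) ^ (2 * m)
        ≤ 2 ^ (2 * m - 1) * (∑ x, (Fa W z x - FW W σ (x + s)) ^ (2 * m) +
          ∑ x, (Fa W z x - FW W σ (x + s')) ^ (2 * m)) := h3
      _ ≤ 2 ^ (2 * m - 1) * (2 * M + 2 * M) :=
          mul_le_mul_of_nonneg_left (by linarith) (by positivity)
      _ = 2 ^ (2 * m) * (2 * M) := by rw [h6]; ring
  unfold PhiE
  rw [← Equiv.sum_comp (Equiv.addRight s')]
  simp only [Equiv.coe_addRight]
  have h8 : ∀ x : G, x + s' + (s - s') = x + s := fun x => by abel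
  simp_rw [h8]
  calc ∑ x, max (|FW W σ (x + s) - FW W σ (x + s')| - θ) 0
      ≤ ∑ x, θ * ((FW W σ (x + s) - FW W σ (x + s')) ^ (2 * m) / θ ^ (2 * m)) :=
        sum_le_sum fun x _ => max_pow _ θ hθ m hm
    _ = θ * ((∑ x, (FW W σ (x + s) - FW W σ (x + s')) ^ (2 * m)) / θ ^ (2 * m)) := by
        rw [← mul_sum, sum_div]
    _ ≤ θ * ((2 ^ (2 * m) * (2 * M)) / θ ^ (2 * m)) := by gcongr
    _ = 2 * θ * W.card * (88 * m / (k * θ ^ 2)) ^ m := by
        have h9 : (88 * m / (k * θ ^ 2) : ℝ) ^ m = 2 ^ (2 * m) * (22 * m / k : ℝ) ^ m / θ ^ (2 * m) := by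
          rw [pow_mul, pow_mul, ← mul_pow, ← div_pow]
          congr 1
          field_simp
          norm_num
        rw [h9, hM]
        ring

/-! ### averages over differences -/

theorem isP_PP (T : Finset G) (hT : T.Nonempty) (σ : G → ℝ) (h : IsP σ) : IsP (PP T σ) :=
  isP_av _ (hT.product hT) _ σ h

theorem PP_eq (T : Finset G) (φ : G → ℝ) (z : G) :
    PP T φ z = (∑ t ∈ T, ∑ t' ∈ T, φ (z + (t - t'))) / (T.card : ℝ) ^ 2 := by
  unfold PP av
  rw [sum_product, card_product]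
  push_cast
  rw [pow_two]

theorem PP_eq' (T : Finset G) (φ : G → ℝ) (z : G) :
    PP T φ z = (∑ t ∈ T, ∑ t' ∈ T, φ (z - (t - t'))) / (T.card : ℝ) ^ 2 := by
  rw [PP_eq, sum_comm]
  congr 1
  refine sum_congr rfl fun t _ => sum_congr rfl fun t' _ => ?_
  congr 1
  abel

theorem PP_eq_av (T : Finset G) (φ : G → ℝ) : PP T φ = av T (fun t => t) (av T (fun t => -t) φ) := by
  funext z
  rw [PP_eq]
  unfold av
  rw [← sum_div, div_div, pow_two]
  congr 1
  refine sum_congr rfl fun t _ => sum_congr rfl fun t' _ => ?_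
  congr 1
  abel_nf

theorem FW_PP (W T : Finset G) (σ : G → ℝ) : FW W (PP T σ) = PP T (FW W σ) := by
  funext x
  rw [PP_eq' T (FW W σ) x]
  unfold FW
  simp_rw [PP_eq T σ, div_mul_eq_mul_div, sum_mul]
  rw [← sum_div]
  congr 1
  rw [sum_comm]
  refine sum_congr rfl fun t _ => ?_
  rw [sum_comm]
  refine sum_congr rfl fun t' _ => ?_
  rw [← Equiv.sum_comp (Equiv.addRight (t - t')) (fun v => σ v * (if x - (t - t') + v ∈ W then (1 : ℝ) else 0))]
  refine sum_congr rfl fun u _ => ?_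
  have : x - (t - t') + (Equiv.addRight (t - t')) u = x + u := by
    simp only [Equiv.coe_addRight]
    abel
  rw [this]
  rfl

theorem FW_iter (W T : Finset G) (σ : G → ℝ) (j : ℕ) : FW W ((PP T)^[j] σ) = (PP T)^[j] (FW W σ) := by
  induction j with
  | zero => rfl
  | succ j ih => rw [Function.iterate_succ_apply', Function.iterate_succ_apply', FW_PP, ih]

theorem isP_iter (T : Finset G) (hT : T.Nonempty) (σ : G → ℝ) (h : IsP σ) (j : ℕ) : IsP ((PP T)^[j] σ) := by
  induction j with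
  | zero => exact h
  | succ j ih => rw [Function.iterate_succ_apply']; exact isP_PP T hT _ ih

theorem zero_mem_ds (T : Finset G) (hT : T.Nonempty) (j : ℕ) : (0 : G) ∈ ds T j := by
  induction j with
  | zero => simp [ds]
  | succ j ih =>
    obtain ⟨t, ht⟩ := hT
    unfold ds
    rw [mem_add]
    exact ⟨0, ih, t - t, sub_mem_sub ht ht, by simp⟩

theorem ds_mono (T : Finset G) (hT : T.Nonempty) (i j : ℕ) (h : i ≤ j) : ds T i ⊆ ds T j := by
  induction j, h using Nat.le_induction with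
  | base => exact Subset.refl _
  | succ j _ ih =>
    refine ih.trans fun r hr => ?_
    obtain ⟨t, ht⟩ := hT
    unfold ds
    rw [mem_add]
    exact ⟨r, hr, t - t, sub_mem_sub ht ht, by simp⟩

theorem ds_subset (T T' : Finset G) (h : T' ⊆ T) (j : ℕ) : ds T' j ⊆ ds T j := by
  induction j with
  | zero => exact Subset.refl _
  | succ j ih =>
    unfold ds
    exact add_subset_add ih (sub_subset_sub h h)

/-- closed properties of the iterated averages -/
theorem iter_closed (T : Finset G) (C : (G → ℝ) → Prop)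
    (hC : ∀ φ : G → ℝ, (∀ t ∈ T, ∀ t' ∈ T, C (fun x => φ (x + (t - t')))) → C (PP T φ)) :
    ∀ (j : ℕ) (φ : G → ℝ), (∀ r ∈ ds T j, C (fun x => φ (x + r))) → C ((PP T)^[j] φ) := by
  intro j
  induction j with
  | zero =>
    intro φ h
    have := h 0 (by simp [ds])
    simpa using this
  | succ j ih =>
    intro φ h
    rw [Function.iterate_succ_apply]
    refine ih (PP T φ) fun r hr => ?_
    have h1 : (fun x => PP T φ (x + r)) = PP T (fun x => φ (x + r)) := by
      funext x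
      rw [PP_eq, PP_eq]
      congr 1
      refine sum_congr rfl fun t _ => sum_congr rfl fun t' _ => ?_
      congr 1
      abel
    rw [h1]
    refine hC _ fun t ht t' ht' => ?_
    have h2 := h (r + (t - t')) (by
      unfold ds
      exact add_mem_add hr (sub_mem_sub ht ht'))
    have h3 : (fun x => φ (x + (t - t') + r)) = fun x => φ (x + (r + (t - t'))) := by
      funext x
      congr 1
      abel
    rw [h3]
    exact h2

/-! ### the truncated distance -/

theorem PhiE_nonneg (ε : ℝ) (H F : G → ℝ) : 0 ≤ PhiE ε H F := sum_nonneg fun _ _ => le_max_right _ _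

theorem PhiE_symm (ε : ℝ) (H F : G → ℝ) : PhiE ε H F = PhiE ε F H := by
  unfold PhiE
  simp_rw [abs_sub_comm]

theorem PhiE_self (ε : ℝ) (hε : 0 ≤ ε) (F : G → ℝ) : PhiE ε F F = 0 := by
  unfold PhiE
  refine sum_eq_zero fun x _ => ?_
  rw [sub_self, abs_zero, zero_sub]
  exact max_eq_right (by linarith)

theorem PhiE_triangle (ε ε' : ℝ) (H H' F : G → ℝ) :
    PhiE (ε + ε') H F ≤ PhiE ε H H' + PhiE ε' H' F := by
  unfold PhiE
  rw [← sum_add_distrib]
  refine sum_le_sum fun x _ => ?_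
  have h1 : |H x - F x| ≤ |H x - H' x| + |H' x - F x| := by
    have := abs_add_le (H x - H' x) (H' x - F x)
    simpa using this
  refine max_le ?_ (add_nonneg (le_max_right _ _) (le_max_right _ _))
  have h2 := le_max_left (|H x - H' x| - ε) 0
  have h3 := le_max_left (|H' x - F x| - ε') 0
  linarith

theorem PhiE_mono (ε ε' : ℝ) (h : ε ≤ ε') (H F : G → ℝ) : PhiE ε' H F ≤ PhiE ε H F := by
  unfold PhiE
  refine sum_le_sum fun x _ => max_le_max ?_ le_rfl
  linarith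

theorem PhiE_shift (ε : ℝ) (H F : G → ℝ) (r : G) :
    PhiE ε (fun x => H (x + r)) (fun x => F (x + r)) = PhiE ε H F := by
  unfold PhiE
  exact Equiv.sum_comp (Equiv.addRight r) (fun x => max (|H x - F x| - ε) 0)

theorem PhiE_PP (T : Finset G) (hT : T.Nonempty) (ε b : ℝ) (F φ : G → ℝ)
    (h : ∀ t ∈ T, ∀ t' ∈ T, PhiE ε (fun x => φ (x + (t - t'))) F ≤ b) : PhiE ε (PP T φ) F ≤ b := by
  have hT0 : (0 : ℝ) < T.card := by exact_mod_cast hT.card_pos
  have hT2 : (0 : ℝ) < (T.card : ℝ) ^ 2 := by positivity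
  have h1 : ∀ x, max (|PP T φ x - F x| - ε) 0 ≤
      (∑ t ∈ T, ∑ t' ∈ T, max (|φ (x + (t - t')) - F x| - ε) 0) / (T.card : ℝ) ^ 2 := by
    intro x
    have hc : ∀ c : ℝ, (∑ _t ∈ T, ∑ _t' ∈ T, c) = c * (T.card : ℝ) ^ 2 := by
      intro c
      rw [sum_const, sum_const, nsmul_eq_mul, nsmul_eq_mul]
      ring
    refine max_le ?_ (by
      refine div_nonneg (sum_nonneg fun _ _ => sum_nonneg fun _ _ => le_max_right _ _) hT2.le)
    rw [le_div_iff₀ hT2]
    have h2 : PP T φ x - F x = (∑ t ∈ T, ∑ t' ∈ T, (φ (x + (t - t')) - F x)) / (T.card : ℝ) ^ 2 := by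
      rw [PP_eq]
      simp_rw [sum_sub_distrib]
      have h3 := hc (F x)
      rw [h3]
      field_simp
    have h4 : |PP T φ x - F x| * (T.card : ℝ) ^ 2 ≤ ∑ t ∈ T, ∑ t' ∈ T, |φ (x + (t - t')) - F x| := by
      rw [h2, abs_div, abs_of_pos hT2, div_mul_cancel₀ _ hT2.ne']
      exact (abs_sum_le_sum_abs _ _).trans (sum_le_sum fun t _ => abs_sum_le_sum_abs _ _)
    calc (|PP T φ x - F x| - ε) * (T.card : ℝ) ^ 2
        = |PP T φ x - F x| * (T.card : ℝ) ^ 2 - ε * (T.card : ℝ) ^ 2 := by ring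
      _ ≤ ∑ t ∈ T, ∑ t' ∈ T, |φ (x + (t - t')) - F x| - ∑ _t ∈ T, ∑ _t' ∈ T, ε := by
          rw [hc]
          linarith
      _ = ∑ t ∈ T, ∑ t' ∈ T, (|φ (x + (t - t')) - F x| - ε) := by
          simp_rw [sum_sub_distrib]
      _ ≤ ∑ t ∈ T, ∑ t' ∈ T, max (|φ (x + (t - t')) - F x| - ε) 0 :=
          sum_le_sum fun t _ => sum_le_sum fun t' _ => le_max_left _ _
  unfold PhiE
  refine (sum_le_sum fun x _ => h1 x).trans ?_
  rw [← sum_div, div_le_iff₀ hT2, sum_comm]
  have h5 : ∀ t ∈ T, ∑ x, ∑ t' ∈ T, max (|φ (x + (t - t')) - F x| - ε) 0 ≤ T.card * b := by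
    intro t ht
    rw [sum_comm]
    calc ∑ t' ∈ T, ∑ x, max (|φ (x + (t - t')) - F x| - ε) 0 ≤ ∑ _t' ∈ T, b :=
          sum_le_sum fun t' ht' => h t ht t' ht'
      _ = T.card * b := by rw [sum_const, nsmul_eq_mul]
  refine (sum_le_sum h5).trans ?_
  rw [sum_const, nsmul_eq_mul]
  exact le_of_eq (by ring)

theorem PhiE_iter (T : Finset G) (hT : T.Nonempty) (ε b : ℝ) (F φ : G → ℝ) (j : ℕ)
    (h : ∀ r ∈ ds T j, PhiE ε (fun x => φ (x + r)) F ≤ b) : PhiE ε ((PP T)^[j] φ) F ≤ b :=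
  iter_closed T (fun H => PhiE ε H F ≤ b) (fun φ hφ => PhiE_PP T hT ε b F φ hφ) j φ h

/-- **one stage** -/
theorem stage (W S T : Finset G) (hW : W.Nonempty) (hS : S.Nonempty) (hT : T.Nonempty) (j : ℕ) (ε b : ℝ)
    (hj : ∀ r ∈ ds T j, PhiE ε (fun x => FW W (unif S) (x + r)) (FW W (unif S)) ≤ b) (η : ℝ) (hη0 : 0 ≤ η)
    (hη : En (av T (fun t => -t) ((PP T)^[j] (unif S))) - En ((PP T)^[j] (unif S)) ≤ η)
    (m l k : ℕ) (hm : 1 ≤ m) (hl : 1 ≤ l) (hmk : m ≤ k) (δ : ℝ) (hδ : 0 < δ)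
    (hk : 88 * m * Real.exp 4 * (l : ℝ) ^ 2 ≤ k * δ ^ 2) :
    ∃ T' : Finset G, T' ⊆ T ∧ T'.Nonempty ∧ (T.card : ℝ) ≤ Real.exp (2 * (k * η) + 4) * T'.card ∧
      ∀ r ∈ ds T' l, PhiE (2 * ε + δ) (fun x => FW W (unif S) (x + r)) (FW W (unif S)) ≤
        2 * b + 2 * δ * W.card * Real.exp (-(4 * m)) := by
  have hT0 : (0 : ℝ) < T.card := by exact_mod_cast hT.card_pos
  have hl0 : (0 : ℝ) < l := by exact_mod_cast hl
  have hm0 : (0 : ℝ) < m := by exact_mod_cast hm
  have hk0 : (0 : ℝ) < k := by exact_mod_cast (by omega : 0 < k)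
  have hW0 : (0 : ℝ) < W.card := by exact_mod_cast hW.card_pos
  obtain ⟨F, hF⟩ : ∃ F, F = FW W (unif S) := ⟨_, rfl⟩
  obtain ⟨σ, hσ⟩ : ∃ σ, σ = (PP T)^[j] (unif S) := ⟨_, rfl⟩
  obtain ⟨Fj, hFj⟩ : ∃ Fj, Fj = FW W σ := ⟨_, rfl⟩
  rw [← hF] at hj ⊢
  rw [← hσ] at hη
  have hFj' : Fj = (PP T)^[j] F := by rw [hFj, hσ, FW_iter, ← hF]
  have hclose : PhiE ε Fj F ≤ b := by
    rw [hFj']
    exact PhiE_iter T hT ε b F F j hj
  obtain ⟨T', hT'T, hT', hper⟩ := cs2 W hW σ (by rw [hσ]; exact isP_iter T hT _ (isP_unif S hS) j) T hT k m hm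
    hmk η hη0 hη
  rw [← hFj] at hper
  have hT'ne : T'.Nonempty := by
    rw [nonempty_iff_ne_empty]
    rintro rfl
    simp at hT'
    exact absurd hT' (by simpa using hT.ne_empty)
  refine ⟨T', hT'T, hT'ne, hT', ?_⟩
  obtain ⟨β, hβ⟩ : ∃ β : ℝ, β = 2 * (δ / l) * W.card * Real.exp (-(4 * m)) := ⟨_, rfl⟩
  have hone : ∀ s ∈ T', ∀ s' ∈ T', PhiE (δ / l) (fun x => Fj (x + (s - s'))) Fj ≤ β := by
    intro s hs s' hs'
    refine (hper s hs s' hs' (δ / l) (by positivity)).trans ?_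
    rw [hβ]
    refine mul_le_mul_of_nonneg_left ?_ (by positivity)
    have h1 : (88 * m / (k * (δ / l) ^ 2) : ℝ) ≤ Real.exp (-4) := by
      rw [div_le_iff₀ (by positivity)]
      have h2 : Real.exp (-4) * Real.exp 4 = 1 := by rw [← Real.exp_add]; simp
      have h3 := mul_le_mul_of_nonneg_left hk (Real.exp_pos (-4)).le
      have h4 : Real.exp (-4) * (88 * m * Real.exp 4 * (l : ℝ) ^ 2) = 88 * m * (l : ℝ) ^ 2 := by
        calc Real.exp (-4) * (88 * m * Real.exp 4 * (l : ℝ) ^ 2)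
            = (Real.exp (-4) * Real.exp 4) * (88 * m * (l : ℝ) ^ 2) := by ring
          _ = _ := by rw [h2, one_mul]
      rw [h4] at h3
      rw [div_pow]
      have h5 : Real.exp (-4) * (k * (δ ^ 2 / (l : ℝ) ^ 2)) = Real.exp (-4) * (k * δ ^ 2) / (l : ℝ) ^ 2 := by
        ring
      rw [h5, le_div_iff₀ (by positivity)]
      exact h3
    calc (88 * m / (k * (δ / l) ^ 2) : ℝ) ^ m ≤ Real.exp (-4) ^ m :=
          pow_le_pow_left₀ (by positivity) h1 m
      _ = Real.exp (-(4 * m)) := by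
          rw [← Real.exp_nat_mul]
          congr 1
          ring
  have hmany : ∀ (i : ℕ), ∀ r ∈ ds T' i, PhiE (i * (δ / l)) (fun x => Fj (x + r)) Fj ≤ i * β := by
    intro i
    induction i with
    | zero =>
      intro r hr
      have : r = 0 := by simpa [ds] using hr
      subst this
      simp only [add_zero, Nat.cast_zero, zero_mul]
      exact (PhiE_self 0 le_rfl Fj).le
    | succ i ih =>
      intro r hr
      unfold ds at hr
      obtain ⟨r', hr', q, hq, rfl⟩ := mem_add.1 hr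
      obtain ⟨s, hs, s', hs', rfl⟩ := mem_sub.1 hq
      have h1 := PhiE_triangle (i * (δ / l)) (δ / l) (fun x => Fj (x + (r' + (s - s'))))
        (fun x => Fj (x + (s - s'))) Fj
      have h2 : PhiE (i * (δ / l)) (fun x => Fj (x + (r' + (s - s')))) (fun x => Fj (x + (s - s'))) =
          PhiE (i * (δ / l)) (fun x => Fj (x + r')) Fj := by
        rw [← PhiE_shift (i * (δ / l)) (fun x => Fj (x + r')) Fj (s - s')]
        congr 1
        funext x
        congr 1
        abel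
      rw [h2] at h1
      have h3 := ih r' hr'
      have h4 := hone s hs s' hs'
      have h5 : ((i + 1 : ℕ) : ℝ) * (δ / l) = i * (δ / l) + δ / l := by push_cast; ring
      have h6 : ((i + 1 : ℕ) : ℝ) * β = i * β + β := by push_cast; ring
      rw [h5, h6]
      linarith
  intro r hr
  have h1 := hmany l r hr
  have h2 : (l : ℝ) * (δ / l) = δ := by field_simp
  have h3 : (l : ℝ) * β = 2 * δ * W.card * Real.exp (-(4 * m)) := by
    rw [hβ]
    field_simp
  rw [h2, h3] at h1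
  have h4 := PhiE_triangle (ε + δ) ε (fun x => F (x + r)) Fj F
  have h5 := PhiE_triangle ε δ (fun x => F (x + r)) (fun x => Fj (x + r)) Fj
  rw [PhiE_shift ε F Fj r, PhiE_symm ε F Fj] at h5
  have h6 : 2 * ε + δ = ε + δ + ε := by ring
  rw [h6]
  linarith

end

end Pool.Agent.J4.H30.CD
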